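import Pool.Agent.Vizing.Table

/-!
# Applying a configuration certificate
-/

set_option autoImplicit false

namespace Pool.Agent.Vizing

theorem Col.congr {V C : Type*} {H : SimpleGraph V} {T T' : List (Sym2 V)} {m : C → V → V}
    (hm : Col H T m) (h : ∀ e, e ∈ T ↔ e ∈ T') : Col H T' m :=
  ⟨hm.inv, hm.adj, fun c v hv hT => hm.notT c v hv ((h _).2 hT),
    fun u v huv hT => hm.cov u v huv (fun hT' => hT ((h _).1 hT')), hm.uniq⟩

/-- Uncolour a list of edges. -/
theorem peel {V C : Type*} {H : SimpleGraph V} : ∀ (l : List (C × V × V)) (T : List (Sym2 V))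
    (m : C → V → V), Col H T m → (∀ p ∈ l, m p.1 p.2.1 = p.2.2 ∧ p.2.1 ≠ p.2.2) →
    (l.Pairwise fun p q => s(p.2.1, p.2.2) ≠ s(q.2.1, q.2.2)) →
    ∃ m0 : C → V → V, Col H (l.map (fun p => s(p.2.1, p.2.2)) ++ T) m0 ∧
      (∀ c w, m c w = w → m0 c w = w) ∧
      (∀ p ∈ l, m0 p.1 p.2.1 = p.2.1 ∧ m0 p.1 p.2.2 = p.2.2) := by
  intro l
  induction l with
  | nil => intro T m hm _ _; exact ⟨m, hm, fun _ _ h => h, by simp⟩
  | cons p l ih =>
    intro T m hm hl hd
    obtain ⟨hp1, hp2⟩ := hl p (by simp)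
    rw [List.pairwise_cons] at hd
    have hp3 : m p.1 p.2.2 = p.2.1 := by rw [← hp1, hm.inv]
    have hm1 := hm.rem hp2 hp1
    obtain ⟨m0, h1, h2, h3⟩ := ih (s(p.2.1, p.2.2) :: T) (remC m p.1 p.2.1 p.2.2) hm1 (by
      intro q hq
      obtain ⟨hq1, hq2⟩ := hl q (by simp [hq])
      refine ⟨?_, hq2⟩
      have hne := hd.1 q hq
      by_cases hc : q.1 = p.1
      · have a1 : q.2.1 ≠ p.2.1 := by
          intro h
          apply hne
          rw [← hq1, hc, h, hp1]
        have a2 : q.2.1 ≠ p.2.2 := by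
          intro h
          apply hne
          rw [← hq1, hc, h, hp3, Sym2.eq_swap]
        rw [remC_other_vertex _ _ a1 a2, hq1]
      · rw [remC_other_colour hc, hq1]) hd.2
    refine ⟨m0, ?_, ?_, ?_⟩
    · refine h1.congr ?_
      intro e
      simp only [List.map_cons, List.mem_append, List.mem_cons]
      tauto
    · intro c w hw
      exact h2 c w (remC_fixed _ _ _ _ _ hw)
    · intro q hq
      rw [List.mem_cons] at hq
      rcases hq with rfl | hq
      · exact ⟨h2 _ _ (remC_u _ _ _), h2 _ _ (remC_v _ _ _)⟩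
      · exact h3 q hq

/-- Vertex names from a list. -/
def nth {α : Type*} (l : List α) (d : α) (i : ℕ) : α := l.getD i d

@[simp] theorem nth_cons_zero {α : Type*} (a : α) (l : List α) (d : α) : nth (a :: l) d 0 = a := rfl
@[simp] theorem nth_cons_succ {α : Type*} (a : α) (l : List α) (d : α) (i : ℕ) :
    nth (a :: l) d (i + 1) = nth l d i := rfl
@[simp] theorem nth_cons_one {α : Type*} (a b : α) (l : List α) (d : α) :
    nth (a :: b :: l) d 1 = b := rfl
@[simp] theorem nth_cons_two {α : Type*} (a b c : α) (l : List α) (d : α) :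
    nth (a :: b :: c :: l) d 2 = c := rfl
@[simp] theorem nth_cons_three {α : Type*} (a b c e : α) (l : List α) (d : α) :
    nth (a :: b :: c :: e :: l) d 3 = e := rfl
@[simp] theorem nth_cons_four {α : Type*} (a b c e f : α) (l : List α) (d : α) :
    nth (a :: b :: c :: e :: f :: l) d 4 = f := rfl
@[simp] theorem nth_cons_five {α : Type*} (a b c e f g : α) (l : List α) (d : α) :
    nth (a :: b :: c :: e :: f :: g :: l) d 5 = g := rfl
@[simp] theorem nth_cons_six {α : Type*} (a b c e f g h : α) (l : List α) (d : α) :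
    nth (a :: b :: c :: e :: f :: g :: h :: l) d 6 = h := rfl
@[simp] theorem nth_cons_seven {α : Type*} (a b c e f g h i : α) (l : List α) (d : α) :
    nth (a :: b :: c :: e :: f :: g :: h :: i :: l) d 7 = i := rfl
@[simp] theorem nth_cons_eight {α : Type*} (a b c e f g h i j : α) (l : List α) (d : α) :
    nth (a :: b :: c :: e :: f :: g :: h :: i :: j :: l) d 8 = j := rfl

theorem nth_injOn {α : Type*} {l : List α} (hl : l.Nodup) (d : α) :
    Set.InjOn (nth l d) {i | i < l.length} := by
  intro i hi j hj h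
  simp only [Set.mem_ofPred_eq] at hi hj
  rw [nth, nth, List.getD_eq_getElem _ _ hi, List.getD_eq_getElem _ _ hj] at h
  exact (List.Nodup.getElem_inj_iff hl).1 h

/-- The mask of a list of vertices. -/
def lmask (l : List ℕ) : ℕ := l.foldr (fun q a => 2 ^ q ||| a) 0

theorem mem_of_lmask {l : List ℕ} {q : ℕ} (h : (lmask l).testBit q = true) : q ∈ l := by
  induction l with
  | nil => simp [lmask] at h
  | cons a l ih =>
    rw [lmask, List.foldr_cons, Nat.testBit_or, Bool.or_eq_true, Nat.testBit_two_pow] at h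
    rcases h with h | h
    · simp only [decide_eq_true_eq] at h
      simp [h]
    · exact List.mem_cons_of_mem _ (ih h)

theorem cfg_apply (g : Cfg) (get : ℕ → Ent) (N f : ℕ) (ts : List ℕ)
    (hok : cfgOK g get N f ts = true) {V C : Type} {H : SimpleGraph V}
    (hnc : ¬ ∃ m' : C → V → V, Col H [] m')
    (vs : List V) (y0 : V) (hvs : vs.Nodup) (hlen : vs.length = g.n)
    (m : C → V → V) (hm : Col H [s(nth vs y0 0, nth vs y0 1)] m)
    (hadj : H.Adj (nth vs y0 0) (nth vs y0 1))
    (l : List (C × ℕ × ℕ)) (hes : g.es = (0, 1) :: l.map Prod.snd)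
    (hl : ∀ p ∈ l, m p.1 (nth vs y0 p.2.1) = nth vs y0 p.2.2)
    (xs : List C) (x0 : C) (fl : List (List ℕ)) (hfl : g.F = fl.map lmask)
    (hxl : xs.length = fl.length)
    (hspd : ∀ i < g.sp, ∀ j < g.sp, i ≠ j → nth xs x0 i ≠ nth xs x0 j)
    (hx0 : nth xs x0 0 = x0) (hsp0 : 0 < g.sp)
    (hfacts : ∀ p ∈ xs.zip fl, ∀ q ∈ p.2, m p.1 (nth vs y0 q) = nth vs y0 q ∨
      ∃ e ∈ l, e.1 = p.1 ∧ (q = e.2.1 ∨ q = e.2.2))
    (hdflt : ∀ c ∈ xs, (∃ s < g.sp, c = nth xs x0 s) ∨ m c (nth vs y0 0) = nth vs y0 0)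
    (hne : ∀ p ∈ g.ne, nth xs x0 p.1 ≠ nth xs x0 p.2) : False := by
  have hg : goodEdges g.n g.es = true := by
    rw [cfgOK, Bool.and_eq_true] at hok; exact hok.1
  have hinj : Set.InjOn (nth vs y0) {i | i < g.n} := hlen ▸ nth_injOn hvs y0
  -- all edges are pairs of distinct indices < n, pairwise distinct
  have hgood : ∀ (es : List (ℕ × ℕ)), goodEdges g.n es = true →
      (∀ e ∈ es, e.1 < e.2 ∧ e.2 < g.n) ∧ es.Pairwise (fun e e' => ¬ (e.1 = e'.1 ∧ e.2 = e'.2)) := by
    intro es
    induction es with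
    | nil => intro _; exact ⟨by simp, List.Pairwise.nil⟩
    | cons e es ih =>
      intro h
      simp only [goodEdges, Bool.and_eq_true, decide_eq_true_eq, List.all_eq_true,
        Bool.not_eq_true'] at h
      obtain ⟨⟨h1, h2⟩, h3, h4⟩ := h
      obtain ⟨ih1, ih2⟩ := ih h4
      refine ⟨?_, ?_⟩
      · intro e' he'
        rw [List.mem_cons] at he'
        rcases he' with rfl | he'
        · exact ⟨h1, h2⟩
        · exact ih1 e' he'
      · rw [List.pairwise_cons]
        refine ⟨?_, ih2⟩
        rintro e' he' ⟨h5, h6⟩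
        have := h3 e' he'
        rw [h5, h6] at this
        simp at this
  obtain ⟨hlt, hpw⟩ := hgood _ hg
  rw [hes] at hlt hpw
  rw [List.pairwise_cons] at hpw
  have hsym : ∀ e ∈ l.map Prod.snd, ∀ e' ∈ (0, 1) :: l.map Prod.snd,
      s(nth vs y0 e.1, nth vs y0 e.2) = s(nth vs y0 e'.1, nth vs y0 e'.2) →
      e.1 = e'.1 ∧ e.2 = e'.2 := by
    intro e he e' he' h
    have h1 := hlt e (by simp [he])
    have h2 := hlt e' he'
    rw [Sym2.eq_iff] at h
    rcases h with ⟨h3, h4⟩ | ⟨h3, h4⟩
    · exact ⟨hinj (by simp; omega) (by simp; omega) h3, hinj (by simp; omega) (by simp; omega) h4⟩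
    · have h5 := hinj (by simp; omega) (by simp; omega) h3
      have h6 := hinj (by simp; omega) (by simp; omega) h4
      omega
  obtain ⟨m0, h1, h2, h3⟩ := peel (l.map fun p => (p.1, nth vs y0 p.2.1, nth vs y0 p.2.2))
    [s(nth vs y0 0, nth vs y0 1)] m hm (by
      intro p hp
      rw [List.mem_map] at hp
      obtain ⟨q, hq, rfl⟩ := hp
      refine ⟨hl q hq, ?_⟩
      intro h
      have := hlt q.2 (by simp only [List.mem_cons, List.mem_map]; exact Or.inr ⟨q, hq, rfl⟩)
      have := hinj (by simp; omega) (by simp; omega) h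
      omega) (by
      rw [List.pairwise_map]
      have hpw2 := hpw.2
      rw [List.pairwise_map] at hpw2
      refine List.Pairwise.imp_of_mem ?_ hpw2
      intro p q hp hq hpq h
      apply hpq
      exact hsym p.2 (List.mem_map_of_mem hp) q.2
        (List.mem_cons_of_mem _ (List.mem_map_of_mem hq)) h)
  apply hnc
  have hT : Col H (edgeList (nth vs y0) g.es) m0 := by
    refine h1.congr ?_
    intro e
    rw [hes]
    simp only [edgeList, List.map_cons, List.map_map, List.mem_append, List.mem_cons,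
      List.not_mem_nil, or_false, Function.comp_def]
    tauto
  have hadj' : ∀ e ∈ g.es, H.Adj (nth vs y0 e.1) (nth vs y0 e.2) := by
    rw [hes]
    intro e he
    rw [List.mem_cons] at he
    rcases he with rfl | he
    · exact hadj
    · rw [List.mem_map] at he
      obtain ⟨p, hp, rfl⟩ := he
      have hpl := hl p hp
      have hlt' := hlt p.2 (by simp only [List.mem_cons, List.mem_map]; exact Or.inr ⟨p, hp, rfl⟩)
      have hne' : nth vs y0 p.2.1 ≠ nth vs y0 p.2.2 := by
        intro h
        have := hinj (by simp; omega) (by simp; omega) h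
        omega
      have := hm.adj p.1 (nth vs y0 p.2.1) (by rw [hpl]; exact hne'.symm)
      rwa [hpl] at this
  refine cfg_sound g get N f ts hok H (nth vs y0) m0 hinj hadj' hT (nth xs x0) ?_ hspd
  constructor
  · intro i q hq hbit
    have hi : i < fl.length := by
      by_contra hcon
      rw [hfl, List.getD_eq_default] at hbit
      · simp at hbit
      · rw [List.length_map]; omega
    rw [hfl, List.getD_eq_getElem _ _ (by rw [List.length_map]; exact hi), List.getElem_map] at hbit
    have hmem := mem_of_lmask hbit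
    have hix : i < xs.length := by omega
    have hzip : (xs[i], fl[i]) ∈ xs.zip fl := by
      rw [List.mem_iff_getElem]
      exact ⟨i, by rw [List.length_zip]; omega, by simp⟩
    have hxi : nth xs x0 i = xs[i] := by rw [nth, List.getD_eq_getElem _ _ hix]
    rw [hxi]
    rcases hfacts _ hzip q hmem with h | ⟨e, he, he1, he2⟩
    · exact h2 _ _ h
    · simp only at he1
      rw [← he1]
      have := h3 (e.1, nth vs y0 e.2.1, nth vs y0 e.2.2) (List.mem_map.2 ⟨e, he, rfl⟩)
      rcases he2 with h | h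
      · rw [h]; exact this.1
      · rw [h]; exact this.2
  · intro i hi
    by_cases hix : i < xs.length
    · have hxi : nth xs x0 i = xs[i] := by rw [nth, List.getD_eq_getElem _ _ hix]
      rw [hxi] at hi ⊢
      rcases hdflt xs[i] (List.getElem_mem hix) with ⟨s, hs, h⟩ | h
      · exact absurd h (hi s hs)
      · exact h2 _ _ h
    · exfalso
      apply hi 0 hsp0
      rw [hx0, nth, List.getD_eq_default]
      omega
  · exact hne

end Pool.Agent.Vizing
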