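import Mathlib

/-!
# Edge colourings as families of involutions, Kempe changes

A proper edge colouring of (part of) a simple graph `H` on `V` with colours `C` is given by a
family `m : C → V → V` of involutions: `m c v` is the other end of the edge of colour `c` at `v`,
and `m c v = v` if the colour `c` is missing at `v`.
-/

set_option autoImplicit false

namespace Pool.Agent.Vizing

variable {V : Type*}

/-! ### Orbits of two involutions -/

/-- `S` is closed under `f` and `g`. -/
def Cl (f g : V → V) (S : Set V) : Prop := (∀ v ∈ S, f v ∈ S) ∧ (∀ v ∈ S, g v ∈ S)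

/-- The orbit of `u` under two involutions. -/
def orb (f g : V → V) (u : V) : Set V := {v | ∀ S : Set V, Cl f g S → u ∈ S → v ∈ S}

theorem Cl.swap {f g : V → V} {S : Set V} (h : Cl f g S) : Cl g f S := ⟨h.2, h.1⟩

theorem orb_swap (f g : V → V) (u : V) : orb f g u = orb g f u := by
  ext v
  exact ⟨fun h S hS => h S hS.swap, fun h S hS => h S hS.swap⟩

theorem self_mem_orb (f g : V → V) (u : V) : u ∈ orb f g u := fun _ _ h => h

theorem cl_orb (f g : V → V) (u : V) : Cl f g (orb f g u) :=
  ⟨fun v hv S hS hu => hS.1 v (hv S hS hu), fun v hv S hS hu => hS.2 v (hv S hS hu)⟩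

theorem Cl.compl {f g : V → V} (hf : ∀ v, f (f v) = v) (hg : ∀ v, g (g v) = v) {S : Set V}
    (h : Cl f g S) : Cl f g Sᶜ := by
  constructor
  · intro v hv hfv
    apply hv
    have := h.1 _ hfv
    rwa [hf] at this
  · intro v hv hfv
    apply hv
    have := h.2 _ hfv
    rwa [hg] at this

theorem orb_symm {f g : V → V} (hf : ∀ v, f (f v) = v) (hg : ∀ v, g (g v) = v) {u v : V}
    (h : v ∈ orb f g u) : u ∈ orb f g v := by
  intro S hS hv
  by_contra hu
  exact h _ (hS.compl hf hg) hu hv

theorem orb_trans {f g : V → V} {u v w : V}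
    (h : v ∈ orb f g u) (h' : w ∈ orb f g v) : w ∈ orb f g u :=
  fun S hS hu => h' S hS (h S hS hu)

theorem orb_of_fixed {f g : V → V} {u : V} (h1 : f u = u) (h2 : g u = u) {v : V}
    (h : v ∈ orb f g u) : v = u := by
  have := h {u} ⟨by intro w hw; rw [Set.mem_singleton_iff] at hw; subst hw; simp [h1],
    by intro w hw; rw [Set.mem_singleton_iff] at hw; subst hw; simp [h2]⟩ rfl
  simpa using this

/-- The alternating sequence from `p`, starting with `g`. -/
def alt (f g : V → V) (p : V) : ℕ → V
  | 0 => p
  | n + 1 => if n % 2 = 0 then g (alt f g p n) else f (alt f g p n)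

theorem alt_even (f g : V → V) (p : V) {n : ℕ} (h : n % 2 = 0) :
    alt f g p (n + 1) = g (alt f g p n) := by simp [alt, h]

theorem alt_odd (f g : V → V) (p : V) {n : ℕ} (h : n % 2 = 1) :
    alt f g p (n + 1) = f (alt f g p n) := by simp [alt, h]

/-- If the alternating sequence is fixed by the next involution at `m`, the first `m+1` terms form
a closed set. -/
theorem alt_cl {f g : V → V} (hf : ∀ v, f (f v) = v) (hg : ∀ v, g (g v) = v) {p : V}
    (hp : f p = p) {m : ℕ} (hm : alt f g p (m + 1) = alt f g p m) :
    Cl f g {v | ∃ j ≤ m, alt f g p j = v} := by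
  constructor
  · rintro v ⟨j, hj, rfl⟩
    rcases Nat.mod_two_eq_zero_or_one j with h | h
    · -- j even: previous step used `f`
      rcases j with _ | j
      · exact ⟨0, Nat.zero_le _, by simp [alt, hp]⟩
      · refine ⟨j, by omega, ?_⟩
        rw [alt_odd f g p (by omega : j % 2 = 1), hf]
    · -- j odd: next step uses `f`
      rcases Nat.lt_or_ge j m with h' | h'
      · exact ⟨j + 1, h', by rw [alt_odd f g p h]⟩
      · have : j = m := by omega
        subst this
        exact ⟨j, le_rfl, by rw [← alt_odd f g p h, hm]⟩
  · rintro v ⟨j, hj, rfl⟩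
    rcases Nat.mod_two_eq_zero_or_one j with h | h
    · rcases Nat.lt_or_ge j m with h' | h'
      · exact ⟨j + 1, h', by rw [alt_even f g p h]⟩
      · have : j = m := by omega
        subst this
        exact ⟨j, le_rfl, by rw [← alt_even f g p h, hm]⟩
    · rcases j with _ | j
      · simp at h
      · refine ⟨j, by omega, ?_⟩
        rw [alt_even f g p (by omega : j % 2 = 0), hg]

theorem orb_alt {f g : V → V} (hf : ∀ v, f (f v) = v) (hg : ∀ v, g (g v) = v) {p : V}
    (hp : f p = p) {q : V} (hq : q ∈ orb f g p) : ∃ j, alt f g p j = q := by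
  have := hq {v | ∃ j, alt f g p j = v} ?_ ⟨0, rfl⟩
  · exact this
  · constructor
    · rintro v ⟨j, rfl⟩
      rcases Nat.mod_two_eq_zero_or_one j with h | h
      · rcases j with _ | j
        · exact ⟨0, by simp [alt, hp]⟩
        · exact ⟨j, by rw [alt_odd f g p (by omega : j % 2 = 1), hf]⟩
      · exact ⟨j + 1, by rw [alt_odd f g p h]⟩
    · rintro v ⟨j, rfl⟩
      rcases Nat.mod_two_eq_zero_or_one j with h | h
      · exact ⟨j + 1, by rw [alt_even f g p h]⟩
      · rcases j with _ | j
        · simp at h
        · exact ⟨j, by rw [alt_even f g p (by omega : j % 2 = 0), hg]⟩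

theorem orb_three_aux {f g : V → V} (hf : ∀ v, f (f v) = v) (hg : ∀ v, g (g v) = v) {p q r : V}
    (hp : f p = p) (hq : f q = q ∨ g q = q) (hr : f r = r ∨ g r = r)
    (hpq : q ≠ p) (hpr : r ≠ p) (hqr : q ≠ r)
    (h1 : q ∈ orb f g p) (h2 : r ∈ orb f g p) : False := by
  classical
  have hex : ∃ j, alt f g p j = q ∨ alt f g p j = r := by
    obtain ⟨j, hj⟩ := orb_alt hf hg hp h1
    exact ⟨j, Or.inl hj⟩
  -- minimal index
  let m := Nat.find hex
  have hm : alt f g p m = q ∨ alt f g p m = r := Nat.find_spec hex
  have hmin : ∀ j < m, ¬ (alt f g p j = q ∨ alt f g p j = r) := fun j hj => Nat.find_min hex hj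
  have key : ∀ s : V, alt f g p m = s → (s = q ∨ s = r) → (f s = s ∨ g s = s) → s ≠ p →
      alt f g p (m + 1) = alt f g p m := by
    intro s hs hs2 hfix hsp
    rcases hm0 : m with _ | n
    · exfalso
      apply hsp
      rw [← hs, hm0]
      rfl
    · have hne : alt f g p n ≠ s := by
        intro h
        apply hmin n (by omega)
        rcases hs2 with h' | h'
        · left; rw [h, h']
        · right; rw [h, h']
      rw [hm0] at hs
      rcases Nat.mod_two_eq_zero_or_one n with h | h
      · -- reached by g; so g does not fix s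
        have hs' : g (alt f g p n) = s := by rw [← alt_even f g p h, hs]
        have : f s = s := by
          rcases hfix with h3 | h3
          · exact h3
          · exfalso
            apply hne
            rw [← hg (alt f g p n), hs', h3]
        rw [alt_odd f g p (by omega : (n + 1) % 2 = 1), hs, this]
      · have hs' : f (alt f g p n) = s := by rw [← alt_odd f g p h, hs]
        have : g s = s := by
          rcases hfix with h3 | h3
          · exfalso
            apply hne
            rw [← hf (alt f g p n), hs', h3]
          · exact h3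
        rw [alt_even f g p (by omega : (n + 1) % 2 = 0), hs, this]
  have hstop : alt f g p (m + 1) = alt f g p m := by
    rcases hm with h | h
    · exact key q h (Or.inl rfl) hq hpq
    · exact key r h (Or.inr rfl) hr hpr
  have hcl := alt_cl hf hg hp hstop
  obtain ⟨j1, hj1, e1⟩ := h1 _ hcl ⟨0, Nat.zero_le _, rfl⟩
  obtain ⟨j2, hj2, e2⟩ := h2 _ hcl ⟨0, Nat.zero_le _, rfl⟩
  have a1 : j1 = m := by
    by_contra hne
    exact hmin j1 (by omega) (Or.inl e1)
  have a2 : j2 = m := by
    by_contra hne
    exact hmin j2 (by omega) (Or.inr e2)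
  subst a1
  rw [a2] at e2
  exact hqr (e1.symm.trans e2)

/-- An orbit of two involutions contains at most two points fixed by one of them. -/
theorem orb_three {f g : V → V} (hf : ∀ v, f (f v) = v) (hg : ∀ v, g (g v) = v) {p q r : V}
    (hp : f p = p ∨ g p = p) (hq : f q = q ∨ g q = q) (hr : f r = r ∨ g r = r)
    (hpq : q ≠ p) (hpr : r ≠ p) (hqr : q ≠ r)
    (h1 : q ∈ orb f g p) (h2 : r ∈ orb f g p) : False := by
  rcases hp with h | h
  · exact orb_three_aux hf hg h hq hr hpq hpr hqr h1 h2
  · rw [orb_swap] at h1 h2
    exact orb_three_aux hg hf h hq.symm hr.symm hpq hpr hqr h1 h2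

/-! ### Colourings -/

/-- `m` is a proper edge colouring (as a family of involutions) of the edges of `H` outside the
list `T`. -/
structure Col {C : Type*} (H : SimpleGraph V) (T : List (Sym2 V)) (m : C → V → V) : Prop where
  inv : ∀ c v, m c (m c v) = v
  adj : ∀ c v, m c v ≠ v → H.Adj v (m c v)
  notT : ∀ c v, m c v ≠ v → s(v, m c v) ∉ T
  cov : ∀ u v, H.Adj u v → s(u, v) ∉ T → ∃ c, m c u = v
  uniq : ∀ c d v, m c v = m d v → m c v ≠ v → c = d

/-- The Kempe change of colours `a`, `b` on the set `S`. -/
noncomputable def kswap {C : Type*} (m : C → V → V) (a b : C) (S : Set V) : C → V → V := by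
  classical
  exact fun c v => if c = a then (if v ∈ S then m b v else m a v)
    else if c = b then (if v ∈ S then m a v else m b v) else m c v

section kswap
variable {C : Type*} {H : SimpleGraph V} {T : List (Sym2 V)} {m : C → V → V}

theorem kswap_a_in (a b : C) {S : Set V} {v : V} (h : v ∈ S) :
    kswap m a b S a v = m b v := by simp [kswap, h]

theorem kswap_a_out (a b : C) {S : Set V} {v : V} (h : v ∉ S) :
    kswap m a b S a v = m a v := by simp [kswap, h]

theorem kswap_b_in {a b : C} (hab : a ≠ b) {S : Set V} {v : V} (h : v ∈ S) :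
    kswap m a b S b v = m a v := by simp [kswap, h, hab.symm]

theorem kswap_b_out {a b : C} (hab : a ≠ b) {S : Set V} {v : V} (h : v ∉ S) :
    kswap m a b S b v = m b v := by simp [kswap, h, hab.symm]

theorem kswap_other {a b c : C} (hca : c ≠ a) (hcb : c ≠ b) (S : Set V) (v : V) :
    kswap m a b S c v = m c v := by simp [kswap, hca, hcb]

theorem Col.kswap (hm : Col H T m) {a b : C} (hab : a ≠ b) {S : Set V}
    (hS : Cl (m a) (m b) S) : Col H T (kswap m a b S) := by
  have hSc := hS.compl (hm.inv a) (hm.inv b)
  constructor
  · intro c v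
    by_cases hca : c = a
    · subst hca
      by_cases hv : v ∈ S
      · rw [kswap_a_in _ _ hv, kswap_a_in _ _ (hS.2 v hv), hm.inv]
      · rw [kswap_a_out _ _ hv, kswap_a_out _ _ (hSc.1 v hv), hm.inv]
    · by_cases hcb : c = b
      · subst hcb
        by_cases hv : v ∈ S
        · rw [kswap_b_in hab hv, kswap_b_in hab (hS.1 v hv), hm.inv]
        · rw [kswap_b_out hab hv, kswap_b_out hab (hSc.2 v hv), hm.inv]
      · rw [kswap_other hca hcb, kswap_other hca hcb, hm.inv]
  · intro c v
    by_cases hca : c = a
    · subst hca
      by_cases hv : v ∈ S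
      · rw [kswap_a_in _ _ hv]; exact hm.adj _ _
      · rw [kswap_a_out _ _ hv]; exact hm.adj _ _
    · by_cases hcb : c = b
      · subst hcb
        by_cases hv : v ∈ S
        · rw [kswap_b_in hab hv]; exact hm.adj _ _
        · rw [kswap_b_out hab hv]; exact hm.adj _ _
      · rw [kswap_other hca hcb]; exact hm.adj _ _
  · intro c v
    by_cases hca : c = a
    · subst hca
      by_cases hv : v ∈ S
      · rw [kswap_a_in _ _ hv]; exact hm.notT _ _
      · rw [kswap_a_out _ _ hv]; exact hm.notT _ _
    · by_cases hcb : c = b
      · subst hcb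
        by_cases hv : v ∈ S
        · rw [kswap_b_in hab hv]; exact hm.notT _ _
        · rw [kswap_b_out hab hv]; exact hm.notT _ _
      · rw [kswap_other hca hcb]; exact hm.notT _ _
  · intro u v huv hT
    obtain ⟨c, hc⟩ := hm.cov u v huv hT
    by_cases hca : c = a
    · subst hca
      by_cases hu : u ∈ S
      · exact ⟨b, by rw [kswap_b_in hab hu, hc]⟩
      · exact ⟨c, by rw [kswap_a_out _ _ hu, hc]⟩
    · by_cases hcb : c = b
      · subst hcb
        by_cases hu : u ∈ S
        · exact ⟨a, by rw [kswap_a_in _ _ hu, hc]⟩
        · exact ⟨c, by rw [kswap_b_out hab hu, hc]⟩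
      · exact ⟨c, by rw [kswap_other hca hcb, hc]⟩
  · -- uniqueness: at a vertex the change is a permutation of the colours
    have key : ∀ v, ∃ σ : Equiv.Perm C, ∀ c, Pool.Agent.Vizing.kswap m a b S c v = m (σ c) v := by
      classical
      intro v
      by_cases hv : v ∈ S
      · refine ⟨Equiv.swap a b, fun c => ?_⟩
        by_cases hca : c = a
        · subst hca
          rw [kswap_a_in _ _ hv, Equiv.swap_apply_left]
        · by_cases hcb : c = b
          · subst hcb
            rw [kswap_b_in hab hv, Equiv.swap_apply_right]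
          · rw [kswap_other hca hcb, Equiv.swap_apply_of_ne_of_ne hca hcb]
      · refine ⟨1, fun c => ?_⟩
        by_cases hca : c = a
        · subst hca
          rw [kswap_a_out _ _ hv]; rfl
        · by_cases hcb : c = b
          · subst hcb
            rw [kswap_b_out hab hv]; rfl
          · rw [kswap_other hca hcb]; rfl
    intro c d v h1 h2
    obtain ⟨σ, hσ⟩ := key v
    rw [hσ c, hσ d] at h1
    rw [hσ c] at h2
    exact σ.injective (hm.uniq _ _ v h1 h2)

end kswap

/-! ### Adding and removing an edge -/

/-- Give the edge `uv` the colour `c`. -/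
noncomputable def addC {C : Type*} (m : C → V → V) (c : C) (u v : V) : C → V → V := by
  classical
  exact fun d w => if d = c then (if w = u then v else if w = v then u else m c w) else m d w

/-- Uncolour the edge `uv` of colour `c`. -/
noncomputable def remC {C : Type*} (m : C → V → V) (c : C) (u v : V) : C → V → V := by
  classical
  exact fun d w => if d = c ∧ (w = u ∨ w = v) then w else m d w

section addrem
variable {C : Type*} {H : SimpleGraph V} {T : List (Sym2 V)} {m : C → V → V}

theorem addC_u (c : C) (u v : V) : addC m c u v c u = v := by simp [addC]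

theorem addC_v (c : C) (u v : V) : addC m c u v c v = u := by
  by_cases h : v = u <;> simp [addC, h]

theorem addC_other_vertex (c d : C) {u v w : V} (h1 : w ≠ u) (h2 : w ≠ v) :
    addC m c u v d w = m d w := by
  by_cases h : d = c
  · subst h; simp [addC, h1, h2]
  · simp [addC, h]

theorem addC_other_colour {c d : C} (h : d ≠ c) (u v w : V) :
    addC m c u v d w = m d w := by simp [addC, h]

theorem remC_u (c : C) (u v : V) : remC m c u v c u = u := by simp [remC]

theorem remC_v (c : C) (u v : V) : remC m c u v c v = v := by simp [remC]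

theorem remC_other_vertex (c d : C) {u v w : V} (h1 : w ≠ u) (h2 : w ≠ v) :
    remC m c u v d w = m d w := by simp [remC, h1, h2]

theorem remC_other_colour {c d : C} (h : d ≠ c) (u v w : V) :
    remC m c u v d w = m d w := by simp [remC, h]

/-- Missing colours stay missing when an edge is uncoloured. -/
theorem remC_fixed (c d : C) (u v w : V) (h : m d w = w) : remC m c u v d w = w := by
  by_cases h' : d = c ∧ (w = u ∨ w = v)
  · simp [remC, h']
  · simp only [remC]; rw [if_neg h', h]

theorem Col.add (hm : Col H T m) {c : C} {u v : V} (huv : u ≠ v) (hadj : H.Adj u v)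
    (hT : s(u, v) ∈ T) (hu : m c u = u) (hv : m c v = v) {T' : List (Sym2 V)}
    (hT' : ∀ e, e ∈ T' ↔ e ∈ T ∧ e ≠ s(u, v)) : Col H T' (addC m c u v) := by
  have hout : ∀ w, w ≠ u → w ≠ v → m c w ≠ u ∧ m c w ≠ v := by
    intro w h1 h2
    constructor
    · intro h
      apply h1
      rw [← hm.inv c w, h, hu]
    · intro h
      apply h2
      rw [← hm.inv c w, h, hv]
  constructor
  · intro d w
    by_cases hd : d = c
    · subst hd
      by_cases h1 : w = u
      · subst h1
        rw [addC_u, addC_v]
      · by_cases h2 : w = v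
        · subst h2
          rw [addC_v, addC_u]
        · rw [addC_other_vertex _ _ h1 h2, addC_other_vertex _ _ (hout w h1 h2).1
            (hout w h1 h2).2, hm.inv]
    · rw [addC_other_colour hd, addC_other_colour hd, hm.inv]
  · intro d w hne
    by_cases hd : d = c
    · subst hd
      by_cases h1 : w = u
      · subst h1
        rw [addC_u]; exact hadj
      · by_cases h2 : w = v
        · subst h2
          rw [addC_v]; exact hadj.symm
        · rw [addC_other_vertex _ _ h1 h2] at hne ⊢
          exact hm.adj _ _ hne
    · rw [addC_other_colour hd] at hne ⊢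
      exact hm.adj _ _ hne
  · intro d w hne hmem
    rw [hT'] at hmem
    by_cases hd : d = c
    · subst hd
      by_cases h1 : w = u
      · subst h1
        rw [addC_u] at hmem
        exact hmem.2 rfl
      · by_cases h2 : w = v
        · subst h2
          rw [addC_v] at hmem
          exact hmem.2 (Sym2.eq_swap)
        · rw [addC_other_vertex _ _ h1 h2] at hne hmem
          exact hm.notT _ _ hne hmem.1
    · rw [addC_other_colour hd] at hne hmem
      exact hm.notT _ _ hne hmem.1
  · intro a b hab hnT
    by_cases he : s(a, b) = s(u, v)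
    · rw [Sym2.eq_iff] at he
      rcases he with ⟨rfl, rfl⟩ | ⟨rfl, rfl⟩
      · exact ⟨c, addC_u _ _ _⟩
      · exact ⟨c, addC_v _ _ _⟩
    · have hnT2 : s(a, b) ∉ T := fun h => hnT ((hT' _).2 ⟨h, he⟩)
      obtain ⟨d, hd⟩ := hm.cov a b hab hnT2
      refine ⟨d, ?_⟩
      by_cases hdc : d = c
      · subst hdc
        have h1 : a ≠ u := by
          rintro rfl
          rw [hu] at hd
          exact hab.ne hd
        have h2 : a ≠ v := by
          rintro rfl
          rw [hv] at hd
          exact hab.ne hd
        rw [addC_other_vertex _ _ h1 h2, hd]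
      · rw [addC_other_colour hdc, hd]
  · intro d e w h1 h2
    -- a vertex `w` where the colour `c` was added
    have main : ∀ d, d ≠ c → m d w ≠ w → addC m c u v c w = m d w → False := by
      intro d hdc hne heq
      by_cases hwu : w = u
      · subst hwu
        rw [addC_u] at heq
        have := hm.notT d w hne
        rw [← heq] at this
        exact this hT
      · by_cases hwv : w = v
        · subst hwv
          rw [addC_v] at heq
          have := hm.notT d w hne
          rw [← heq, Sym2.eq_swap] at this
          exact this hT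
        · rw [addC_other_vertex _ _ hwu hwv] at heq
          exact hdc (hm.uniq d c w heq.symm hne)
    by_cases hd : d = c
    · by_cases he : e = c
      · rw [hd, he]
      · exfalso
        subst hd
        rw [addC_other_colour he] at h1
        apply main e he _ h1
        rw [← h1]; exact h2
    · by_cases he : e = c
      · exfalso
        subst he
        rw [addC_other_colour hd] at h1 h2
        exact main d hd h2 h1.symm
      · rw [addC_other_colour hd, addC_other_colour he] at h1
        rw [addC_other_colour hd] at h2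
        exact hm.uniq d e w h1 h2

theorem Col.rem (hm : Col H T m) {c : C} {u v : V} (huv : u ≠ v) (hc : m c u = v) :
    Col H (s(u, v) :: T) (remC m c u v) := by
  have hcv : m c v = u := by rw [← hc, hm.inv]
  have hout : ∀ w, w ≠ u → w ≠ v → m c w ≠ u ∧ m c w ≠ v := by
    intro w h1 h2
    constructor
    · intro h
      apply h2
      rw [← hm.inv c w, h, hc]
    · intro h
      apply h1
      rw [← hm.inv c w, h, hcv]
  -- the new colouring is either fixed or equals the old one
  have alt : ∀ d w, remC m c u v d w ≠ w → remC m c u v d w = m d w ∧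
      ¬ (d = c ∧ (w = u ∨ w = v)) := by
    intro d w h
    by_cases h' : d = c ∧ (w = u ∨ w = v)
    · exfalso; apply h; simp [remC, h']
    · refine ⟨by simp only [remC]; rw [if_neg h'], h'⟩
  constructor
  · intro d w
    by_cases hd : d = c
    · subst hd
      by_cases h1 : w = u
      · subst h1; rw [remC_u, remC_u]
      · by_cases h2 : w = v
        · subst h2; rw [remC_v, remC_v]
        · rw [remC_other_vertex _ _ h1 h2, remC_other_vertex _ _ (hout w h1 h2).1
            (hout w h1 h2).2, hm.inv]
    · rw [remC_other_colour hd, remC_other_colour hd, hm.inv]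
  · intro d w h
    obtain ⟨h1, h2⟩ := alt d w h
    rw [h1] at h ⊢
    exact hm.adj _ _ h
  · intro d w h hmem
    obtain ⟨h1, h2⟩ := alt d w h
    rw [h1] at h hmem
    rw [List.mem_cons] at hmem
    rcases hmem with hmem | hmem
    · have hdc : d = c := by
        rw [Sym2.eq_iff] at hmem
        rcases hmem with ⟨rfl, h3⟩ | ⟨rfl, h3⟩
        · exact hm.uniq d c w (by rw [h3, hc]) h
        · exact hm.uniq d c w (by rw [h3, hcv]) h
      apply h2
      refine ⟨hdc, ?_⟩
      rw [Sym2.eq_iff] at hmem
      rcases hmem with ⟨h3, _⟩ | ⟨h3, _⟩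
      · exact Or.inl h3
      · exact Or.inr h3
    · exact hm.notT _ _ h hmem
  · intro a b hab hnT
    rw [List.mem_cons, not_or] at hnT
    obtain ⟨d, hd⟩ := hm.cov a b hab hnT.2
    refine ⟨d, ?_⟩
    have h' : ¬ (d = c ∧ (a = u ∨ a = v)) := by
      rintro ⟨rfl, rfl | rfl⟩
      · rw [hc] at hd; subst hd; exact hnT.1 rfl
      · rw [hcv] at hd; subst hd; exact hnT.1 Sym2.eq_swap
    simp only [remC]
    rw [if_neg h', hd]
  · intro d e w h1 h2
    obtain ⟨h3, h4⟩ := alt d w h2
    have h5 : remC m c u v e w ≠ w := by rw [← h1]; exact h2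
    obtain ⟨h6, h7⟩ := alt e w h5
    rw [h3, h6] at h1
    rw [h3] at h2
    exact hm.uniq d e w h1 h2

end addrem

end Pool.Agent.Vizing
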