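import Mathlib

/-!
# Class one graphs, colouring number and Vizing's function `s(k)`
-/

set_option autoImplicit false

namespace Pool.Agent.Vizing

/-- The chromatic index: the least number of colours in a proper edge colouring, that is in a
proper vertex colouring of the line graph. -/
noncomputable def chromaticIndex {V : Type} (G : SimpleGraph V) : ℕ :=
  sInf {n : ℕ | G.lineGraph.Colorable n}

/-- A finite graph is of class one if its chromatic index equals its maximum degree. -/
def ClassOne {V : Type} [Fintype V] (G : SimpleGraph V) [DecidableRel G.Adj] : Prop :=
  chromaticIndex G = G.maxDegree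

/-- The colouring number: the least positive integer `c` such that the vertices can be ordered
(by an injection `f` into the natural numbers) so that every vertex has fewer than `c` neighbours
earlier in the order. -/
noncomputable def colNumber {V : Type} (G : SimpleGraph V) : ℕ :=
  sInf {c : ℕ | 0 < c ∧ ∃ f : V → ℕ, Function.Injective f ∧
    ∀ v, {u : V | G.Adj v u ∧ f u < f v}.ncard < c}

/-- `s(k)`: the least positive integer `s` such that every finite graph `G` with
`col(G) ≤ k + 1` and maximum degree at least `s` is of class one. -/
noncomputable def vizingS (k : ℕ) : ℕ :=
  sInf {s : ℕ | 0 < s ∧ ∀ (V : Type) [Fintype V] (G : SimpleGraph V) [DecidableRel G.Adj],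
    colNumber G ≤ k + 1 → s ≤ G.maxDegree → ClassOne G}

end Pool.Agent.Vizing
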