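import Pool.Agent.Vizing.Main
import Pool.Agent.Vizing.Defs

/-!
# From families of involutions to the chromatic index
-/

set_option autoImplicit false

namespace Pool.Agent.Vizing

open Finset

theorem colorable_of_col {V : Type} {n : ℕ} {G : SimpleGraph V} {m : Fin n → V → V}
    (hm : Col G [] m) : G.lineGraph.Colorable n := by
  classical
  have hex : ∀ e : G.edgeSet, ∃ c : Fin n, ∀ u v, (e : Sym2 V) = s(u, v) → m c u = v := by
    rintro ⟨e, he⟩
    induction e using Sym2.ind with
    | _ a b =>
      rw [SimpleGraph.mem_edgeSet] at he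
      obtain ⟨c, hc⟩ := hm.cov a b he (by simp)
      refine ⟨c, ?_⟩
      intro u v huv
      simp only [Sym2.eq_iff] at huv
      rcases huv with ⟨rfl, rfl⟩ | ⟨rfl, rfl⟩
      · exact hc
      · rw [← hc, hm.inv]
  choose f hf using hex
  refine ⟨SimpleGraph.Coloring.mk f ?_⟩
  intro e e' hadj heq
  rw [SimpleGraph.lineGraph_adj_iff_exists] at hadj
  obtain ⟨hne, w, hw, hw'⟩ := hadj
  obtain ⟨a, ha⟩ := Sym2.mem_iff_exists.1 hw
  obtain ⟨b, hb⟩ := Sym2.mem_iff_exists.1 hw'
  apply hne
  apply Subtype.ext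
  rw [ha, hb]
  have h1 := hf e w a ha
  have h2 := hf e' w b hb
  rw [← h1, ← h2, heq]

theorem dg_eq_degree {V : Type} [Fintype V] (G : SimpleGraph V) [DecidableRel G.Adj] (v : V) :
    dg G v = G.degree v := by
  classical
  rw [dg, ← SimpleGraph.card_neighborFinset_eq_degree]
  congr 1
  ext u
  rw [mem_nb, SimpleGraph.mem_neighborFinset]

/-- The maximum degree is at most the number of colours. -/
theorem maxDegree_le_of_colorable {V : Type} [Fintype V] (G : SimpleGraph V) [DecidableRel G.Adj]
    {n : ℕ} (h : G.lineGraph.Colorable n) : G.maxDegree ≤ n := by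
  classical
  obtain ⟨f⟩ := h
  apply G.maxDegree_le_of_forall_degree_le
  intro v
  rw [← SimpleGraph.card_neighborSet_eq_degree, ← Fintype.card_fin n]
  have hmem : ∀ u : G.neighborSet v, s(v, (u : V)) ∈ G.edgeSet := fun u => by
    rw [SimpleGraph.mem_edgeSet]; exact u.2
  refine Fintype.card_le_of_injective
    (fun u : G.neighborSet v => f ⟨s(v, u), hmem u⟩) ?_
  intro a b hab
  by_contra hne
  have hadj : G.lineGraph.Adj ⟨s(v, (a : V)), hmem a⟩ ⟨s(v, (b : V)), hmem b⟩ := by
    rw [SimpleGraph.lineGraph_adj_iff_exists]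
    refine ⟨?_, v, by simp, by simp⟩
    intro h
    have h' := congrArg Subtype.val h
    simp only at h'
    rw [Sym2.congr_right] at h'
    exact hne (Subtype.ext h')
  exact f.valid hadj hab

theorem classOne_of_colorable {V : Type} [Fintype V] (G : SimpleGraph V) [DecidableRel G.Adj]
    (h : G.lineGraph.Colorable G.maxDegree) : ClassOne G := by
  apply le_antisymm
  · exact Nat.sInf_le h
  · exact maxDegree_le_of_colorable G
      (Nat.sInf_mem (s := {n : ℕ | G.lineGraph.Colorable n}) ⟨_, h⟩)

theorem colorable_of_classOne {V : Type} [Fintype V] (G : SimpleGraph V) [DecidableRel G.Adj]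
    (h : ClassOne G) : G.lineGraph.Colorable G.maxDegree := by
  classical
  have hne : {n : ℕ | G.lineGraph.Colorable n}.Nonempty :=
    ⟨_, SimpleGraph.colorable_of_fintype G.lineGraph⟩
  have := Nat.sInf_mem hne
  rw [ClassOne, chromaticIndex] at h
  rwa [h] at this

theorem degen_of_colNumber {V : Type} [Fintype V] (G : SimpleGraph V) {k : ℕ}
    (h : colNumber G ≤ k + 1) : Degen k G := by
  classical
  have hne : {c : ℕ | 0 < c ∧ ∃ f : V → ℕ, Function.Injective f ∧
      ∀ v, {u : V | G.Adj v u ∧ f u < f v}.ncard < c}.Nonempty := by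
    refine ⟨Fintype.card V + 1, by omega, fun v => (Fintype.equivFin V v : ℕ), ?_, ?_⟩
    · intro a b hab
      exact (Fintype.equivFin V).injective (Fin.ext hab)
    · intro v
      have := Set.ncard_le_ncard (Set.subset_univ
        {u : V | G.Adj v u ∧ (Fintype.equivFin V u : ℕ) < (Fintype.equivFin V v : ℕ)})
        (Set.toFinite _)
      rw [Set.ncard_univ, Nat.card_eq_fintype_card] at this
      exact Nat.lt_succ_of_le this
  obtain ⟨_, f, hf, hc⟩ := Nat.sInf_mem hne
  intro S hS
  obtain ⟨v, hv, hmax⟩ := Finset.exists_max_image S f hS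
  refine ⟨v, hv, ?_⟩
  have h1 := hc v
  have h2 : (((S.filter fun u => G.Adj v u) : Finset V) : Set V) ⊆
      {u : V | G.Adj v u ∧ f u < f v} := by
    intro u hu
    simp only [coe_filter, Set.mem_ofPred_eq] at hu ⊢
    refine ⟨hu.2, lt_of_le_of_ne (hmax u hu.1) ?_⟩
    intro h3
    exact hu.2.ne' (hf h3)
  have h3 := Set.ncard_le_ncard h2 (Set.toFinite _)
  rw [Set.ncard_coe_finset] at h3
  have h4 : colNumber G = sInf {c : ℕ | 0 < c ∧ ∃ f : V → ℕ, Function.Injective f ∧
      ∀ v, {u : V | G.Adj v u ∧ f u < f v}.ncard < c} := rfl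
  omega

/-- The main theorem for finite graphs. -/
theorem classOne_of_col {k : ℕ} (hk : 4 ≤ k) (V : Type) [Fintype V] (G : SimpleGraph V)
    [DecidableRel G.Adj] (h1 : colNumber G ≤ k + 1) (h2 : 2 * k - 1 ≤ G.maxDegree) :
    ClassOne G := by
  apply classOne_of_colorable
  obtain ⟨m, hm⟩ := colourable (C := Fin G.maxDegree) hk (by rw [Fintype.card_fin]; omega) G
    (degen_of_colNumber G h1) (fun v => by
      rw [Fintype.card_fin, dg_eq_degree]; exact G.degree_le_maxDegree v)
  exact colorable_of_col hm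

end Pool.Agent.Vizing
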