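import Pool.Agent.Vizing.Table

/-! Certificate (generated). -/

set_option autoImplicit false

namespace Pool.Agent.Vizing.S2

def cfg : Cfg where
  n := 3
  es := [(0, 1), (1, 2)]
  sp := 1
  F := [2, 7, 4]
  ne := [(1, 0), (2, 1)]

def tbl : List (List ℕ) := [
  [4432408346754, 664735382903905605084858531708960771]]

def toks : List ℕ := [
  1, 2, 17, 16]

theorem ok : cfgOK cfg (getT 2 tbl) 2 5 toks = true := by decide +kernel

end Pool.Agent.Vizing.S2
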