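import Pool.Agent.Vizing.Table

/-! Certificate (generated). -/

set_option autoImplicit false

namespace Pool.Agent.Vizing.S3

def cfg : Cfg where
  n := 4
  es := [(0, 1), (1, 2), (1, 3)]
  sp := 2
  F := [2, 14, 7, 8]
  ne := [(2, 0), (2, 1), (3, 1)]

def tbl : List (List ℕ) := [
  [72620614868811907, 1393968040330783758371906945052291111059459,
    178428079293139821648764075726849424387833860]]

def toks : List ℕ := [
  2, 3, 18, 17, 16]

theorem ok : cfgOK cfg (getT 3 tbl) 3 6 toks = true := by decide +kernel

end Pool.Agent.Vizing.S3
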