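import Pool.Agent.Vizing.Table

/-! Certificate (generated). -/

set_option autoImplicit false

namespace Pool.Agent.Vizing.W0

def cfg : Cfg where
  n := 4
  es := [(0, 1), (1, 2), (2, 3)]
  sp := 2
  F := [2, 2, 7, 12, 8]
  ne := [(2, 0), (2, 1), (3, 2), (4, 3)]

def tbl : List (List ℕ) := [
  [72061995576197251, 1393967375716783409376705107716922042040323,
    178427824091748276400218253787766466185084932,
    22838761483743779379227936484834108116494794757, 11059192583903908873706322824530013290500,
    1426465686481170366665237309004283874738181, 11229333685917827038403864468784699965444,
    1448243747538951891746522639446828835176453, 11399485334784739408914624579924884717572,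
    1470021829447050489988549258751152427728901]]

def toks : List ℕ := [
  2, 3, 4, 25, 24, 22, 22, 4, 20, 16, 17, 4, 20, 16, 17]

theorem ok : cfgOK cfg (getT 3 tbl) 10 16 toks = true := by decide +kernel

end Pool.Agent.Vizing.W0
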