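import Pool.Agent.Vizing.Table

/-! Certificate (generated). -/

set_option autoImplicit false

namespace Pool.Agent.Vizing.W2

def cfg : Cfg where
  n := 6
  es := [(0, 1), (1, 2), (2, 3), (1, 4), (1, 5)]
  sp := 3
  F := [2, 30, 42, 7, 16, 32]
  ne := [(3, 0), (3, 1), (3, 2), (4, 1), (4, 2), (5, 1), (5, 2), (4, 5)]

def tbl : List (List ℕ) := [
  [80049867266670702643342678238437230754600520913440205428705774012910020609964579997561540270205342575857135473999876,
    102787638203252591556783658766030632424063351191306582589445,
    10246383010133849938347862814519965536588866676920346294874339073652482638075466239687877154586283849709841018547159045,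
    13156817690016331719268308322051920950280108968830818035924998,
    2923010265679962709945866114568043536651150295044,
    377068317281696373285241897207748220357295508635653,
    379990963744437655892204587101587023306904796889093,
    49013033450370558074631249476942509120862166691692550,
    388760330380344256050037108590959476332301052674053,
    388759973568423073406497298498797648108395170332677,
    50509565455071660760094633969646962828611869750034438]]

def toks : List ℕ := [
  3, 4, 5, 26, 24, 21, 5, 22, 16, 5, 25, 20]

theorem ok : cfgOK cfg (getT 5 tbl) 11 13 toks = true := by decide +kernel

end Pool.Agent.Vizing.W2
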