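import Pool.Agent.Vizing.Apply
import Pool.Agent.Vizing.CertS2
import Pool.Agent.Vizing.CertS3
import Pool.Agent.Vizing.CertW0
import Pool.Agent.Vizing.CertW1
import Pool.Agent.Vizing.CertW2
import Pool.Agent.Vizing.CertE1a
import Pool.Agent.Vizing.CertE1b
import Pool.Agent.Vizing.CertE2

/-!
# The reducible configurations
-/

set_option autoImplicit false

namespace Pool.Agent.Vizing

variable {V C : Type} {H : SimpleGraph V} {T : List (Sym2 V)} {m : C → V → V}

theorem Col.back (hm : Col H T m) {c : C} {u v : V} (h : m c u = v) : m c v = u := by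
  rw [← h, hm.inv]

theorem ne_of_miss {c d : C} {u v : V} (huv : u ≠ v) (h : m c u = v) (h' : m d u = u) : c ≠ d := by
  rintro rfl; exact huv (h'.symm.trans h)

theorem ne_of_ne {c d : C} {u v w : V} (hvw : v ≠ w) (h : m c u = v) (h' : m d u = w) : c ≠ d := by
  rintro rfl; exact hvw (h.symm.trans h')

theorem conf_S2 (hnc : ¬ ∃ m' : C → V → V, Col H [] m') {y x u : V} (hnd : [y, x, u].Nodup)
    (hm : Col H [s(y, x)] m) (hyx : H.Adj y x) {al ka c : C} (h1 : m al x = x) (h2 : m ka x = u)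
    (h3 : m ka y = y) (h4 : m c u = u) (h5 : c = al ∨ m c y = y) : False := by
  have hnd' := hnd
  simp only [List.nodup_cons, List.mem_cons, List.not_mem_nil, or_false, not_or,
    not_false_eq_true, List.nodup_nil, and_true] at hnd'
  obtain ⟨⟨hyx', hyu⟩, hxu⟩ := hnd'
  have e1 : ka ≠ al := ne_of_miss hxu h2 h1
  have e2 : ka ≠ c := ne_of_miss (Ne.symm hxu) (hm.back h2) h4
  refine cfg_apply S2.cfg _ _ _ _ S2.ok hnc [y, x, u] y hnd rfl m (by simpa using hm)
    (by simpa using hyx) [(ka, 1, 2)] rfl (by simpa using h2) [al, ka, c] al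
    [[1], [0, 1, 2], [2]] (by decide) rfl ?_ rfl (by decide) ?_ ?_ ?_
  · intro i hi j hj hij; simp only [S2.cfg] at hi hj; omega
  · simp [h1, h3, h4]
  · simp [S2.cfg, h3]
    exact h5
  · simp [S2.cfg, e1, e2.symm]

theorem conf_S3 (hnc : ¬ ∃ m' : C → V → V, Col H [] m') {y x w A : V} (hnd : [y, x, w, A].Nodup)
    (hm : Col H [s(y, x)] m) (hyx : H.Adj y x) {al de ka e : C} (h1 : m al x = x)
    (h2 : m ka x = w) (h3 : m ka y = y) (h4 : m de x = A) (h5 : m de w = w) (h6 : m e A = A)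
    (h7 : e = al ∨ m e y = y) : False := by
  have hnd' := hnd
  simp only [List.nodup_cons, List.mem_cons, List.not_mem_nil, or_false, not_or,
    not_false_eq_true, List.nodup_nil, and_true] at hnd'
  obtain ⟨⟨hyx', hyw, hyA⟩, ⟨hxw, hxA⟩, hwA⟩ := hnd'
  have e0 : de ≠ al := ne_of_miss hxA h4 h1
  have e1 : ka ≠ al := ne_of_miss hxw h2 h1
  have e2 : ka ≠ de := ne_of_ne hwA h2 h4
  have e3 : de ≠ e := ne_of_miss (Ne.symm hxA) (hm.back h4) h6
  refine cfg_apply S3.cfg _ _ _ _ S3.ok hnc [y, x, w, A] y hnd rfl m (by simpa using hm)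
    (by simpa using hyx) [(ka, 1, 2), (de, 1, 3)] rfl (by simp [h2, h4]) [al, de, ka, e] al
    [[1], [1, 2, 3], [0, 1, 2], [3]] (by decide) rfl ?_ rfl (by decide) ?_ ?_ ?_
  · intro i hi j hj hij
    simp only [S3.cfg] at hi hj
    interval_cases i <;> interval_cases j <;>
      first | exact absurd rfl hij | exact e0 | exact e0.symm
  · simp [h1, h3, h5, h6]
  · simp only [List.mem_cons, List.not_mem_nil, or_false, forall_eq_or_imp, forall_eq]
    refine ⟨Or.inl ⟨0, by decide, rfl⟩, Or.inl ⟨1, by decide, rfl⟩, Or.inr h3, ?_⟩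
    rcases h7 with h | h
    · exact Or.inl ⟨0, by decide, h⟩
    · exact Or.inr h
  · simp [S3.cfg, e1, e2, e3.symm]

theorem conf_W0 (hnc : ¬ ∃ m' : C → V → V, Col H [] m') {y x z w : V} (hnd : [y, x, z, w].Nodup)
    (hm : Col H [s(y, x)] m) (hyx : H.Adj y x) {al al2 be et c : C} (h1 : m al x = x)
    (h1' : m al2 x = x) (hal : al ≠ al2) (h2 : m be x = z) (h3 : m be y = y) (h4 : m et z = w)
    (h5 : m c w = w) (h6 : et = al ∨ et = al2 ∨ m et y = y) (h7 : c = al ∨ c = al2 ∨ m c y = y) :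
    False := by
  have hnd' := hnd
  simp only [List.nodup_cons, List.mem_cons, List.not_mem_nil, or_false, not_or,
    not_false_eq_true, List.nodup_nil, and_true] at hnd'
  obtain ⟨⟨hyx', hyz, hyw⟩, ⟨hxz, hxw⟩, hzw⟩ := hnd'
  have e1 : be ≠ al := ne_of_miss hxz h2 h1
  have e2 : be ≠ al2 := ne_of_miss hxz h2 h1'
  have e3 : et ≠ be := ne_of_ne (Ne.symm hxw) h4 (hm.back h2)
  have e4 : et ≠ c := ne_of_miss (Ne.symm hzw) (hm.back h4) h5
  refine cfg_apply W0.cfg _ _ _ _ W0.ok hnc [y, x, z, w] y hnd rfl m (by simpa using hm)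
    (by simpa using hyx) [(be, 1, 2), (et, 2, 3)] rfl (by simp [h2, h4]) [al, al2, be, et, c] al
    [[1], [1], [0, 1, 2], [2, 3], [3]] (by decide) rfl ?_ rfl (by decide) ?_ ?_ ?_
  · intro i hi j hj hij
    simp only [W0.cfg] at hi hj
    interval_cases i <;> interval_cases j <;>
      first | exact absurd rfl hij | exact hal | exact hal.symm
  · simp [h1, h1', h3, h5]
  · simp only [List.mem_cons, List.not_mem_nil, or_false, forall_eq_or_imp, forall_eq]
    refine ⟨Or.inl ⟨0, by decide, rfl⟩, Or.inl ⟨1, by decide, rfl⟩, Or.inr h3, ?_, ?_⟩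
    · rcases h6 with h | h | h
      · exact Or.inl ⟨0, by decide, h⟩
      · exact Or.inl ⟨1, by decide, h⟩
      · exact Or.inr h
    · rcases h7 with h | h | h
      · exact Or.inl ⟨0, by decide, h⟩
      · exact Or.inl ⟨1, by decide, h⟩
      · exact Or.inr h
  · simp [W0.cfg, e1, e2, e3, e4.symm]

theorem conf_W1 (hnc : ¬ ∃ m' : C → V → V, Col H [] m') {y x z w A : V}
    (hnd : [y, x, z, w, A].Nodup)
    (hm : Col H [s(y, x)] m) (hyx : H.Adj y x) {al de be et c a1 a2 : C} (h1 : m al x = x)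
    (hde : m de x = A) (h2 : m be x = z) (h3 : m be y = y) (h4 : m et z = w)
    (h5 : m c w = w) (ha1 : m a1 A = A) (ha2 : m a2 A = A) (ha : a1 ≠ a2)
    (h6 : et = al ∨ et = de ∨ m et y = y) (h7 : c = al ∨ c = de ∨ m c y = y)
    (h8 : a1 = al ∨ m a1 y = y) (h9 : a2 = al ∨ m a2 y = y) : False := by
  have hnd' := hnd
  simp only [List.nodup_cons, List.mem_cons, List.not_mem_nil, or_false, not_or,
    not_false_eq_true, List.nodup_nil, and_true] at hnd'
  obtain ⟨⟨hyx', hyz, hyw, hyA⟩, ⟨hxz, hxw, hxA⟩, ⟨hzw, hzA⟩, hwA⟩ := hnd'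
  have e0 : de ≠ al := ne_of_miss hxA hde h1
  have e1 : be ≠ al := ne_of_miss hxz h2 h1
  have e2 : be ≠ de := ne_of_ne hzA h2 hde
  have e3 : et ≠ be := ne_of_ne (Ne.symm hxw) h4 (hm.back h2)
  have e4 : et ≠ c := ne_of_miss (Ne.symm hzw) (hm.back h4) h5
  have e5 : de ≠ a1 := ne_of_miss (Ne.symm hxA) (hm.back hde) ha1
  have e6 : de ≠ a2 := ne_of_miss (Ne.symm hxA) (hm.back hde) ha2
  refine cfg_apply W1.cfg _ _ _ _ W1.ok hnc [y, x, z, w, A] y hnd rfl m (by simpa using hm)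
    (by simpa using hyx) [(be, 1, 2), (et, 2, 3), (de, 1, 4)] rfl (by simp [h2, h4, hde])
    [al, de, be, et, c, a1, a2] al
    [[1], [1, 4], [0, 1, 2], [2, 3], [3], [4], [4]] (by decide) rfl ?_ rfl (by decide) ?_ ?_ ?_
  · intro i hi j hj hij
    simp only [W1.cfg] at hi hj
    interval_cases i <;> interval_cases j <;>
      first | exact absurd rfl hij | exact e0 | exact e0.symm
  · simp [h1, h3, h5, ha1, ha2]
  · simp only [List.mem_cons, List.not_mem_nil, or_false, forall_eq_or_imp, forall_eq]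
    refine ⟨Or.inl ⟨0, by decide, rfl⟩, Or.inl ⟨1, by decide, rfl⟩, Or.inr h3, ?_, ?_, ?_, ?_⟩
    · rcases h6 with h | h | h
      · exact Or.inl ⟨0, by decide, h⟩
      · exact Or.inl ⟨1, by decide, h⟩
      · exact Or.inr h
    · rcases h7 with h | h | h
      · exact Or.inl ⟨0, by decide, h⟩
      · exact Or.inl ⟨1, by decide, h⟩
      · exact Or.inr h
    · rcases h8 with h | h
      · exact Or.inl ⟨0, by decide, h⟩
      · exact Or.inr h
    · rcases h9 with h | h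
      · exact Or.inl ⟨0, by decide, h⟩
      · exact Or.inr h
  · simp [W1.cfg, e1, e2, e3, e4.symm, e5.symm, e6.symm, ha]

theorem conf_W2 (hnc : ¬ ∃ m' : C → V → V, Col H [] m') {y x z w A B : V}
    (hnd : [y, x, z, w, A, B].Nodup)
    (hm : Col H [s(y, x)] m) (hyx : H.Adj y x) {al et c be a b : C} (h1 : m al x = x)
    (hA : m et x = A) (hB : m c x = B) (h2 : m be x = z) (h3 : m be y = y) (h4 : m et z = w)
    (h5 : m c w = w) (ha : m a A = A) (hb : m b B = B) (hab : a ≠ b)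
    (h8 : a = al ∨ m a y = y) (h9 : b = al ∨ m b y = y) (hac : a ≠ c) (hbe : b ≠ et) :
    False := by
  have hnd' := hnd
  simp only [List.nodup_cons, List.mem_cons, List.not_mem_nil, or_false, not_or,
    not_false_eq_true, List.nodup_nil, and_true] at hnd'
  obtain ⟨⟨hyx', hyz, hyw, hyA, hyB⟩, ⟨hxz, hxw, hxA, hxB⟩, ⟨hzw, hzA, hzB⟩, ⟨hwA, hwB⟩, hAB⟩ := hnd'
  have e0 : et ≠ al := ne_of_miss hxA hA h1
  have e0' : c ≠ al := ne_of_miss hxB hB h1
  have e0'' : et ≠ c := ne_of_ne hAB hA hB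
  have e1 : be ≠ al := ne_of_miss hxz h2 h1
  have e2 : be ≠ et := ne_of_ne hzA h2 hA
  have e3 : be ≠ c := ne_of_ne hzB h2 hB
  have e5 : et ≠ a := ne_of_miss (Ne.symm hxA) (hm.back hA) ha
  have e6 : c ≠ b := ne_of_miss (Ne.symm hxB) (hm.back hB) hb
  refine cfg_apply W2.cfg _ _ _ _ W2.ok hnc [y, x, z, w, A, B] y hnd rfl m (by simpa using hm)
    (by simpa using hyx) [(be, 1, 2), (et, 2, 3), (et, 1, 4), (c, 1, 5)] rfl
    (by simp [h2, h4, hA, hB]) [al, et, c, be, a, b] al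
    [[1], [1, 4, 2, 3], [1, 5, 3], [0, 1, 2], [4], [5]] (by decide) rfl ?_ rfl (by decide) ?_ ?_ ?_
  · intro i hi j hj hij
    simp only [W2.cfg] at hi hj
    interval_cases i <;> interval_cases j <;>
      first | exact absurd rfl hij | exact e0 | exact e0.symm | exact e0' | exact e0'.symm |
        exact e0'' | exact e0''.symm
  · simp [h1, h3, h5, ha, hb]
  · simp only [List.mem_cons, List.not_mem_nil, or_false, forall_eq_or_imp, forall_eq]
    refine ⟨Or.inl ⟨0, by decide, rfl⟩, Or.inl ⟨1, by decide, rfl⟩, Or.inl ⟨2, by decide, rfl⟩,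
      Or.inr h3, ?_, ?_⟩
    · rcases h8 with h | h
      · exact Or.inl ⟨0, by decide, h⟩
      · exact Or.inr h
    · rcases h9 with h | h
      · exact Or.inl ⟨0, by decide, h⟩
      · exact Or.inr h
  · simp [W2.cfg, e1, e2, e3, e5.symm, e6.symm, hab, hac, hbe]

theorem conf_E1a (hnc : ¬ ∃ m' : C → V → V, Col H [] m') {y x z w v A : V}
    (hnd : [y, x, z, w, v, A].Nodup)
    (hm : Col H [s(y, x)] m) (hyx : H.Adj y x) {al de be et ze v2 v3 c c2 : C} (h1 : m al x = x)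
    (hde : m de x = A) (h2 : m be x = z) (h3 : m be y = y) (h4 : m et z = w) (h5 : m ze w = v)
    (hdv : m de v = v) (hv2 : m v2 v = v) (hv3 : m v3 v = v) (hc : m c A = A) (hc2 : m c2 A = A)
    (hv23 : v2 ≠ v3) (hcc : c ≠ c2) (hdv2 : v2 ≠ de) (hdv3 : v3 ≠ de)
    (r1 : et = al ∨ et = de ∨ m et y = y) (r2 : ze = al ∨ ze = de ∨ m ze y = y)
    (r3 : v2 = al ∨ m v2 y = y) (r4 : v3 = al ∨ m v3 y = y)
    (r5 : c = al ∨ m c y = y) (r6 : c2 = al ∨ m c2 y = y) : False := by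
  have hnd' := hnd
  simp only [List.nodup_cons, List.mem_cons, List.not_mem_nil, or_false, not_or,
    not_false_eq_true, List.nodup_nil, and_true] at hnd'
  obtain ⟨⟨hyx', hyz, hyw, hyv, hyA⟩, ⟨hxz, hxw, hxv, hxA⟩, ⟨hzw, hzv, hzA⟩, ⟨hwv, hwA⟩, hvA⟩ := hnd'
  have e0 : de ≠ al := ne_of_miss hxA hde h1
  have e1 : be ≠ al := ne_of_miss hxz h2 h1
  have e2 : be ≠ de := ne_of_ne hzA h2 hde
  have e3 : et ≠ be := ne_of_ne (Ne.symm hxw) h4 (hm.back h2)
  have e4 : ze ≠ et := ne_of_ne (Ne.symm hzv) h5 (hm.back h4)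
  have e5 : ze ≠ de := ne_of_miss (Ne.symm hwv) (hm.back h5) hdv
  have e6 : ze ≠ v2 := ne_of_miss (Ne.symm hwv) (hm.back h5) hv2
  have e7 : ze ≠ v3 := ne_of_miss (Ne.symm hwv) (hm.back h5) hv3
  have e8 : de ≠ c := ne_of_miss (Ne.symm hxA) (hm.back hde) hc
  have e9 : de ≠ c2 := ne_of_miss (Ne.symm hxA) (hm.back hde) hc2
  refine cfg_apply E1a.cfg _ _ _ _ E1a.ok hnc [y, x, z, w, v, A] y hnd rfl m (by simpa using hm)
    (by simpa using hyx) [(be, 1, 2), (et, 2, 3), (ze, 3, 4), (de, 1, 5)] rfl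
    (by simp [h2, h4, h5, hde]) [al, de, be, et, ze, v2, v3, c, c2] al
    [[1], [1, 5, 4], [0, 1, 2], [2, 3], [3, 4], [4], [4], [5], [5]] (by decide) rfl ?_ rfl
    (by decide) ?_ ?_ ?_
  · intro i hi j hj hij
    simp only [E1a.cfg] at hi hj
    interval_cases i <;> interval_cases j <;>
      first | exact absurd rfl hij | exact e0 | exact e0.symm
  · simp [h1, h3, hdv, hv2, hv3, hc, hc2]
  · simp only [List.mem_cons, List.not_mem_nil, or_false, forall_eq_or_imp, forall_eq]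
    refine ⟨Or.inl ⟨0, by decide, rfl⟩, Or.inl ⟨1, by decide, rfl⟩, Or.inr h3, ?_, ?_, ?_, ?_,
      ?_, ?_⟩
    · rcases r1 with h | h | h
      · exact Or.inl ⟨0, by decide, h⟩
      · exact Or.inl ⟨1, by decide, h⟩
      · exact Or.inr h
    · rcases r2 with h | h | h
      · exact Or.inl ⟨0, by decide, h⟩
      · exact Or.inl ⟨1, by decide, h⟩
      · exact Or.inr h
    · rcases r3 with h | h
      · exact Or.inl ⟨0, by decide, h⟩
      · exact Or.inr h
    · rcases r4 with h | h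
      · exact Or.inl ⟨0, by decide, h⟩
      · exact Or.inr h
    · rcases r5 with h | h
      · exact Or.inl ⟨0, by decide, h⟩
      · exact Or.inr h
    · rcases r6 with h | h
      · exact Or.inl ⟨0, by decide, h⟩
      · exact Or.inr h
  · simp [E1a.cfg, e1, e2, e3, e4, e5, e6.symm, e7.symm, e8.symm, e9.symm, hv23.symm, hcc, hdv2,
      hdv3]

theorem conf_E1b (hnc : ¬ ∃ m' : C → V → V, Col H [] m') {y x z w v A : V}
    (hnd : [y, x, z, w, v, A].Nodup)
    (hm : Col H [s(y, x)] m) (hyx : H.Adj y x) {al de be et ze c v2 v3 c2 : C} (h1 : m al x = x)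
    (hde : m de x = A) (h2 : m be x = z) (h3 : m be y = y) (h4 : m et z = w) (h5 : m ze w = v)
    (hcv : m c v = v) (hc : m c A = A) (hv2 : m v2 v = v) (hv3 : m v3 v = v) (hc2 : m c2 A = A)
    (hv23 : v2 ≠ v3) (hcv2 : v2 ≠ c) (hcv3 : v3 ≠ c) (hcc : c ≠ c2)
    (r1 : et = al ∨ et = de ∨ m et y = y) (r2 : ze = al ∨ ze = de ∨ m ze y = y)
    (r3 : v2 = al ∨ v2 = de ∨ m v2 y = y) (r4 : v3 = al ∨ v3 = de ∨ m v3 y = y)
    (r5 : c = al ∨ m c y = y) (r6 : c2 = al ∨ m c2 y = y) : False := by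
  have hnd' := hnd
  simp only [List.nodup_cons, List.mem_cons, List.not_mem_nil, or_false, not_or,
    not_false_eq_true, List.nodup_nil, and_true] at hnd'
  obtain ⟨⟨hyx', hyz, hyw, hyv, hyA⟩, ⟨hxz, hxw, hxv, hxA⟩, ⟨hzw, hzv, hzA⟩, ⟨hwv, hwA⟩, hvA⟩ := hnd'
  have e0 : de ≠ al := ne_of_miss hxA hde h1
  have e1 : be ≠ al := ne_of_miss hxz h2 h1
  have e2 : be ≠ de := ne_of_ne hzA h2 hde
  have e3 : et ≠ be := ne_of_ne (Ne.symm hxw) h4 (hm.back h2)
  have e4 : ze ≠ et := ne_of_ne (Ne.symm hzv) h5 (hm.back h4)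
  have e5 : ze ≠ c := ne_of_miss (Ne.symm hwv) (hm.back h5) hcv
  have e6 : ze ≠ v2 := ne_of_miss (Ne.symm hwv) (hm.back h5) hv2
  have e7 : ze ≠ v3 := ne_of_miss (Ne.symm hwv) (hm.back h5) hv3
  have e8 : de ≠ c := ne_of_miss (Ne.symm hxA) (hm.back hde) hc
  have e9 : de ≠ c2 := ne_of_miss (Ne.symm hxA) (hm.back hde) hc2
  refine cfg_apply E1b.cfg _ _ _ _ E1b.ok hnc [y, x, z, w, v, A] y hnd rfl m (by simpa using hm)
    (by simpa using hyx) [(be, 1, 2), (et, 2, 3), (ze, 3, 4), (de, 1, 5)] rfl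
    (by simp [h2, h4, h5, hde]) [al, de, be, et, ze, c, v2, v3, c2] al
    [[1], [1, 5], [0, 1, 2], [2, 3], [3, 4], [4, 5], [4], [4], [5]] (by decide) rfl ?_ rfl
    (by decide) ?_ ?_ ?_
  · intro i hi j hj hij
    simp only [E1b.cfg] at hi hj
    interval_cases i <;> interval_cases j <;>
      first | exact absurd rfl hij | exact e0 | exact e0.symm
  · simp [h1, h3, hcv, hv2, hv3, hc, hc2]
  · simp only [List.mem_cons, List.not_mem_nil, or_false, forall_eq_or_imp, forall_eq]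
    refine ⟨Or.inl ⟨0, by decide, rfl⟩, Or.inl ⟨1, by decide, rfl⟩, Or.inr h3, ?_, ?_, ?_, ?_,
      ?_, ?_⟩
    · rcases r1 with h | h | h
      · exact Or.inl ⟨0, by decide, h⟩
      · exact Or.inl ⟨1, by decide, h⟩
      · exact Or.inr h
    · rcases r2 with h | h | h
      · exact Or.inl ⟨0, by decide, h⟩
      · exact Or.inl ⟨1, by decide, h⟩
      · exact Or.inr h
    · rcases r5 with h | h
      · exact Or.inl ⟨0, by decide, h⟩
      · exact Or.inr h
    · rcases r3 with h | h | h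
      · exact Or.inl ⟨0, by decide, h⟩
      · exact Or.inl ⟨1, by decide, h⟩
      · exact Or.inr h
    · rcases r4 with h | h | h
      · exact Or.inl ⟨0, by decide, h⟩
      · exact Or.inl ⟨1, by decide, h⟩
      · exact Or.inr h
    · rcases r6 with h | h
      · exact Or.inl ⟨0, by decide, h⟩
      · exact Or.inr h
  · simp [E1b.cfg, e1, e2, e3, e4, e5.symm, e6.symm, e7.symm, e8.symm, e9.symm, hv23.symm, hcc,
      hcv2, hcv3]

theorem conf_E2 (hnc : ¬ ∃ m' : C → V → V, Col H [] m') {y x z w v A B : V}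
    (hnd : [y, x, z, w, v, A, B].Nodup)
    (hm : Col H [s(y, x)] m) (hyx : H.Adj y x) {al dA dB be et ze a b : C} (h1 : m al x = x)
    (hA : m dA x = A) (hB : m dB x = B) (h2 : m be x = z) (h3 : m be y = y) (h4 : m et z = w)
    (h5 : m ze w = v) (hav : m al v = v) (hAv : m dA v = v) (hBv : m dB v = v)
    (ha : m a A = A) (hb : m b B = B) (hab : a ≠ b)
    (r1 : et = al ∨ m et y = y) (r2 : m ze y = y)
    (r5 : a = al ∨ m a y = y) (r6 : b = al ∨ m b y = y) (heA : et ≠ dA) (heB : et ≠ dB)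
    (haB : a ≠ dB) (hbA : b ≠ dA) : False := by
  have hnd' := hnd
  simp only [List.nodup_cons, List.mem_cons, List.not_mem_nil, or_false, not_or,
    not_false_eq_true, List.nodup_nil, and_true] at hnd'
  obtain ⟨⟨hyx', hyz, hyw, hyv, hyA, hyB⟩, ⟨hxz, hxw, hxv, hxA, hxB⟩, ⟨hzw, hzv, hzA, hzB⟩,
    ⟨hwv, hwA, hwB⟩, ⟨hvA, hvB⟩, hAB⟩ := hnd'
  have e01 : dA ≠ al := ne_of_miss hxA hA h1
  have e02 : dB ≠ al := ne_of_miss hxB hB h1
  have e03 : dA ≠ dB := ne_of_ne hAB hA hB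
  have e1 : be ≠ al := ne_of_miss hxz h2 h1
  have e2 : be ≠ dA := ne_of_ne hzA h2 hA
  have e2' : be ≠ dB := ne_of_ne hzB h2 hB
  have e3 : et ≠ be := ne_of_ne (Ne.symm hxw) h4 (hm.back h2)
  have e4 : ze ≠ et := ne_of_ne (Ne.symm hzv) h5 (hm.back h4)
  have e5 : ze ≠ al := ne_of_miss (Ne.symm hwv) (hm.back h5) hav
  have e6 : ze ≠ dA := ne_of_miss (Ne.symm hwv) (hm.back h5) hAv
  have e7 : ze ≠ dB := ne_of_miss (Ne.symm hwv) (hm.back h5) hBv
  have e8 : dA ≠ a := ne_of_miss (Ne.symm hxA) (hm.back hA) ha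
  have e9 : dB ≠ b := ne_of_miss (Ne.symm hxB) (hm.back hB) hb
  refine cfg_apply E2.cfg _ _ _ _ E2.ok hnc [y, x, z, w, v, A, B] y hnd rfl m (by simpa using hm)
    (by simpa using hyx) [(be, 1, 2), (et, 2, 3), (ze, 3, 4), (dA, 1, 5), (dB, 1, 6)] rfl
    (by simp [h2, h4, h5, hA, hB]) [al, dA, dB, be, et, ze, a, b] al
    [[1, 4], [1, 5, 4], [1, 6, 4], [0, 1, 2], [2, 3], [3, 4], [5], [6]] (by decide) rfl ?_ rfl
    (by decide) ?_ ?_ ?_
  · intro i hi j hj hij
    simp only [E2.cfg] at hi hj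
    interval_cases i <;> interval_cases j <;>
      first | exact absurd rfl hij | exact e01 | exact e01.symm | exact e02 | exact e02.symm |
        exact e03 | exact e03.symm
  · simp [h1, h3, hav, hAv, hBv, ha, hb]
  · simp only [List.mem_cons, List.not_mem_nil, or_false, forall_eq_or_imp, forall_eq]
    refine ⟨Or.inl ⟨0, by decide, rfl⟩, Or.inl ⟨1, by decide, rfl⟩, Or.inl ⟨2, by decide, rfl⟩,
      Or.inr h3, ?_, Or.inr r2, ?_, ?_⟩
    · rcases r1 with h | h
      · exact Or.inl ⟨0, by decide, h⟩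
      · exact Or.inr h
    · rcases r5 with h | h
      · exact Or.inl ⟨0, by decide, h⟩
      · exact Or.inr h
    · rcases r6 with h | h
      · exact Or.inl ⟨0, by decide, h⟩
      · exact Or.inr h
  · simp [E2.cfg, e1, e2, e2', e3, e4, e5, e6, e7, e8.symm, e9.symm, hab, haB, hbA, heA, heB]

end Pool.Agent.Vizing
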