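import Pool.Agent.Vizing.Configs

/-!
# Counting missing colours, linked Kempe changes
-/

set_option autoImplicit false
set_option linter.unusedSectionVars false

namespace Pool.Agent.Vizing

open Finset

variable {V C : Type} [Fintype V] [Fintype C] {H : SimpleGraph V} {m : C → V → V}

open Classical in
/-- The neighbours of `v`. -/
noncomputable def nb (H : SimpleGraph V) (v : V) : Finset V := univ.filter fun u => H.Adj v u

/-- The degree of `v`. -/
noncomputable def dg (H : SimpleGraph V) (v : V) : ℕ := (nb H v).card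

open Classical in
/-- The colours missing at `v`. -/
noncomputable def miss (m : C → V → V) (v : V) : Finset C := univ.filter fun c => m c v = v

theorem mem_nb {v u : V} : u ∈ nb H v ↔ H.Adj v u := by simp [nb]

theorem mem_miss {v : V} {c : C} : c ∈ miss m v ↔ m c v = v := by simp [miss]

open Classical in
theorem card_miss_gen {T : List (Sym2 V)} (hm : Col H T m) (v : V) :
    (miss m v).card + ((nb H v).filter fun u => s(v, u) ∉ T).card = Fintype.card C := by
  have h1 : (univ.filter fun c => m c v ≠ v).card = ((nb H v).filter fun u => s(v, u) ∉ T).card := by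
    apply Finset.card_bij (fun c _ => m c v)
    · intro c hc
      simp only [mem_filter, mem_univ, true_and] at hc
      simp only [mem_filter, mem_nb]
      exact ⟨hm.adj _ _ hc, hm.notT _ _ hc⟩
    · intro c hc d hd h
      simp only [mem_filter, mem_univ, true_and] at hc
      exact hm.uniq c d v h hc
    · intro u hu
      simp only [mem_filter, mem_nb] at hu
      obtain ⟨c, hc⟩ := hm.cov v u hu.1 hu.2
      refine ⟨c, ?_, hc⟩
      simp only [mem_filter, mem_univ, true_and]
      rw [hc]
      exact hu.1.ne'
  rw [← h1, miss, Finset.card_filter_add_card_filter_not, Finset.card_univ]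

theorem card_miss {y x : V} (hm : Col H [s(y, x)] m) {v : V} (hvx : v ≠ x) (hvy : v ≠ y) :
    (miss m v).card + dg H v = Fintype.card C := by
  classical
  have h := card_miss_gen hm v
  rw [dg]
  rw [Finset.filter_true_of_mem] at h
  · exact h
  · intro u _ hu
    simp only [List.mem_singleton, Sym2.eq_iff] at hu
    rcases hu with ⟨h1, _⟩ | ⟨h1, _⟩
    · exact hvy h1
    · exact hvx h1

theorem card_miss_y {y x : V} (hm : Col H [s(y, x)] m) (hyx : H.Adj y x) :
    (miss m y).card + dg H y = Fintype.card C + 1 := by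
  classical
  have h := card_miss_gen hm y
  have h1 : (nb H y).filter (fun u => s(y, u) ∉ [s(y, x)]) = (nb H y).erase x := by
    ext u
    simp only [mem_filter, mem_erase, List.mem_singleton, Sym2.eq_iff, true_and, ne_eq]
    constructor
    · rintro ⟨h1, h2⟩
      exact ⟨fun h => h2 (Or.inl h), h1⟩
    · rintro ⟨h1, h2⟩
      refine ⟨h2, ?_⟩
      rintro (h | ⟨h, _⟩)
      · exact h1 h
      · exact hyx.ne h
  rw [h1, Finset.card_erase_of_mem (mem_nb.2 hyx)] at h
  have : 0 < (nb H y).card := Finset.card_pos.2 ⟨x, mem_nb.2 hyx⟩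
  rw [dg]
  omega

theorem Col.symm_edge {y x : V} (hm : Col H [s(y, x)] m) : Col H [s(x, y)] m := by
  rw [Sym2.eq_swap]; exact hm

theorem card_miss_x {y x : V} (hm : Col H [s(y, x)] m) (hyx : H.Adj y x) :
    (miss m x).card + dg H x = Fintype.card C + 1 := card_miss_y hm.symm_edge hyx.symm

/-- The edge `yx` is uncoloured. -/
theorem Col.unc {y x : V} (hm : Col H [s(y, x)] m) (hyx : y ≠ x) (c : C) : m c x ≠ y := by
  intro h
  have := hm.notT c x (by rw [h]; exact hyx)
  apply this
  rw [h, Sym2.eq_swap]
  simp

/-- Coloured edges. -/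
theorem Col.ex {y x : V} (hm : Col H [s(y, x)] m) {u v : V} (huv : H.Adj u v)
    (h : s(u, v) ≠ s(y, x)) : ∃ c, m c u = v := hm.cov u v huv (by simpa using h)

theorem no_common (hnc : ¬ ∃ m' : C → V → V, Col H [] m') {y x : V} (hm : Col H [s(y, x)] m)
    (hyx : H.Adj y x) {c : C} (h1 : m c y = y) (h2 : m c x = x) : False := by
  apply hnc
  exact ⟨_, hm.add (T' := []) hyx.ne hyx (by simp) h1 h2 (by simp)⟩

/-- The result of a linked Kempe change. -/
structure Linked (m m' : C → V → V) (al ka : C) (x y : V) : Prop where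
  x_miss : m' ka x = x
  y_miss : m' al y = y
  miss_iff : ∀ c u, u ≠ x → u ≠ y → (m' c u = u ↔ m c u = u)
  other : ∀ c, c ≠ al → c ≠ ka → ∀ u, m' c u = m c u
  fixed : ∀ u, u ≠ x → u ≠ y → (m al u = u ∨ m ka u = u) → ∀ c, m' c u = m c u

theorem linked (hnc : ¬ ∃ m' : C → V → V, Col H [] m') {y x : V} (hm : Col H [s(y, x)] m)
    (hyx : H.Adj y x) {al ka : C} (h1 : m al x = x) (h2 : m ka y = y) :
    ∃ m' : C → V → V, Col H [s(y, x)] m' ∧ Linked m m' al ka x y := by
  have hne : al ≠ ka := by
    rintro rfl
    exact no_common hnc hm hyx h2 h1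
  have hy : y ∈ orb (m al) (m ka) x := by
    by_contra hy
    have hm' := hm.kswap hne (cl_orb (m al) (m ka) x)
    apply no_common hnc hm' hyx (c := ka)
    · rw [kswap_b_out hne hy, h2]
    · rw [kswap_b_in hne (self_mem_orb _ _ _), h1]
  have hfix : ∀ u, u ≠ x → u ≠ y → (m al u = u ∨ m ka u = u) → u ∉ orb (m al) (m ka) x := by
    intro u hux huy hu hmem
    exact orb_three (hm.inv al) (hm.inv ka) (Or.inl h1) (Or.inr h2) hu hyx.ne hux (Ne.symm huy)
      hy hmem
  refine ⟨_, hm.kswap hne (cl_orb (m al) (m ka) x), ?_, ?_, ?_, ?_, ?_⟩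
  · rw [kswap_b_in hne (self_mem_orb _ _ _), h1]
  · rw [kswap_a_in _ _ hy, h2]
  · intro c u hux huy
    by_cases hu : u ∈ orb (m al) (m ka) x
    · have h3 : m al u ≠ u := fun h => hfix u hux huy (Or.inl h) hu
      have h4 : m ka u ≠ u := fun h => hfix u hux huy (Or.inr h) hu
      by_cases hca : c = al
      · subst hca
        rw [kswap_a_in _ _ hu]
        exact ⟨fun h => absurd h h4, fun h => absurd h h3⟩
      · by_cases hck : c = ka
        · subst hck
          rw [kswap_b_in hne hu]
          exact ⟨fun h => absurd h h3, fun h => absurd h h4⟩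
        · rw [kswap_other hca hck]
    · by_cases hca : c = al
      · subst hca
        rw [kswap_a_out _ _ hu]
      · by_cases hck : c = ka
        · subst hck
          rw [kswap_b_out hne hu]
        · rw [kswap_other hca hck]
  · intro c hca hck u
    rw [kswap_other hca hck]
  · intro u hux huy hu c
    have hu' := hfix u hux huy hu
    by_cases hca : c = al
    · subst hca
      rw [kswap_a_out _ _ hu']
    · by_cases hck : c = ka
      · subst hck
        rw [kswap_b_out hne hu']
      · rw [kswap_other hca hck]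

/-- The result of recolouring the edge `xA` from `de` to `al`. -/
structure Recol (m m' : C → V → V) (al de : C) (x A : V) : Prop where
  x_al : m' al x = A
  x_de : m' de x = x
  A_al : m' al A = x
  A_de : m' de A = A
  other : ∀ c, c ≠ al → c ≠ de → ∀ u, m' c u = m c u
  out : ∀ u, u ≠ x → u ≠ A → ∀ c, m' c u = m c u

theorem recol {y x A : V} (hm : Col H [s(y, x)] m) (hxA : x ≠ A) (hyA : y ≠ A)
    {al de : C} (h1 : m al x = x) (h2 : m de x = A) (h3 : m al A = A) :
    ∃ m' : C → V → V, Col H [s(y, x)] m' ∧ Recol m m' al de x A := by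
  have hne : al ≠ de := by
    rintro rfl
    exact hxA (h1.symm.trans h2)
  have hadj : H.Adj x A := by
    have := hm.adj de x (by rw [h2]; exact hxA.symm)
    rwa [h2] at this
  have hm1 := hm.rem hxA h2
  have hm2 := hm1.add (c := al) (T' := [s(y, x)]) hxA hadj (by simp)
    (by rw [remC_other_colour hne, h1]) (by rw [remC_other_colour hne, h3]) (by
      intro e
      simp only [List.mem_cons, List.not_mem_nil, or_false]
      constructor
      · rintro rfl
        refine ⟨Or.inr rfl, ?_⟩
        intro h
        rw [Sym2.eq_iff] at h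
        rcases h with ⟨_, h4⟩ | ⟨h4, _⟩
        · exact hxA h4
        · exact hyA h4
      · rintro ⟨h | h, h'⟩
        · exact absurd h h'
        · exact h)
  refine ⟨_, hm2, ?_, ?_, ?_, ?_, ?_, ?_⟩
  · rw [addC_u]
  · rw [addC_other_colour hne.symm, remC_u]
  · rw [addC_v]
  · rw [addC_other_colour hne.symm, remC_v]
  · intro c hca hcd u
    rw [addC_other_colour hca, remC_other_colour hcd]
  · intro u hux huA c
    rw [addC_other_vertex _ _ hux huA, remC_other_vertex _ _ hux huA]

end Pool.Agent.Vizing
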