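import Pool.Agent.Vizing.Basic

/-!
# A reducibility engine for edge colourings

A configuration has vertices `v 0, …, v (n-1)` and uncoloured edges `es`.  A state is a list of
masks, one for each of some distinct colours: if bit `i` of the mask is `0` the colour is missing
at `v i`.  A state is winning if every graph coloured outside the configuration with this state
can be coloured.
-/

set_option autoImplicit false

namespace Pool.Agent.Vizing

variable {V : Type*} {C : Type*}

/-- The colour/mask pairs `cs` are correct for the colouring `m`. -/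
def Valid (n : ℕ) (v : ℕ → V) (m : C → V → V) (cs : List (C × ℕ)) : Prop :=
  (cs.map Prod.fst).Nodup ∧ ∀ p ∈ cs, ∀ i < n, p.2.testBit i = false → m p.1 (v i) = v i

/-- The state `s` is correct for the colouring `m`. -/
def St (n : ℕ) (v : ℕ → V) (m : C → V → V) (s : List ℕ) : Prop :=
  ∃ cs : List (C × ℕ), Valid n v m cs ∧ cs.map Prod.snd = s

theorem perm_lift {α β : Type*} {f : α → β} {l l' : List β} (h : l.Perm l') :
    ∀ cs : List α, cs.map f = l → ∃ cs' : List α, cs.Perm cs' ∧ cs'.map f = l' := by
  induction h with
  | nil => intro cs h; exact ⟨cs, List.Perm.refl _, h⟩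
  | cons x _ ih =>
    intro cs h
    rcases cs with _ | ⟨c, cs⟩
    · simp at h
    · simp only [List.map_cons, List.cons.injEq] at h
      obtain ⟨cs', h1, h2⟩ := ih cs h.2
      exact ⟨c :: cs', h1.cons c, by simp [h.1, h2]⟩
  | swap x y l =>
    intro cs h
    rcases cs with _ | ⟨c, _ | ⟨d, cs⟩⟩
    · simp at h
    · simp at h
    · simp only [List.map_cons, List.cons.injEq] at h
      exact ⟨d :: c :: cs, List.Perm.swap _ _ _, by simp [h.1, h.2.1, h.2.2]⟩
  | trans _ _ ih1 ih2 =>
    intro cs h
    obtain ⟨cs1, h1, h2⟩ := ih1 cs h
    obtain ⟨cs2, h3, h4⟩ := ih2 cs1 h2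
    exact ⟨cs2, h1.trans h3, h4⟩

theorem Valid.perm {n : ℕ} {v : ℕ → V} {m : C → V → V} {cs cs' : List (C × ℕ)}
    (h : Valid n v m cs) (hp : cs.Perm cs') : Valid n v m cs' :=
  ⟨((hp.map Prod.fst).nodup_iff).1 h.1, fun p hp' => h.2 p (hp.mem_iff.2 hp')⟩

theorem St.perm {n : ℕ} {v : ℕ → V} {m : C → V → V} {s s' : List ℕ}
    (h : St n v m s) (hp : s.Perm s') : St n v m s' := by
  obtain ⟨cs, h1, h2⟩ := h
  obtain ⟨cs', h3, h4⟩ := perm_lift hp cs h2
  exact ⟨cs', h1.perm h3, h4⟩

/-- The uncoloured edges. -/
def edgeList (v : ℕ → V) (es : List (ℕ × ℕ)) : List (Sym2 V) := es.map fun e => s(v e.1, v e.2)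

/-- A state is winning. -/
def Win (n : ℕ) (es : List (ℕ × ℕ)) (s : List ℕ) : Prop :=
  ∀ (V C : Type) (H : SimpleGraph V) (v : ℕ → V) (m : C → V → V),
    Set.InjOn v {i | i < n} → (∀ e ∈ es, H.Adj (v e.1) (v e.2)) → Col H (edgeList v es) m →
    St n v m s → ∃ m' : C → V → V, Col H [] m'

theorem Win.perm {n : ℕ} {es : List (ℕ × ℕ)} {s s' : List ℕ} (h : Win n es s)
    (hp : s'.Perm s) : Win n es s' :=
  fun V C H v m h1 h2 h3 h4 => h V C H v m h1 h2 h3 (h4.perm hp)

/-! ### Extendable states -/

/-- `ps` gives for each edge the position of a colour which is free at both ends. -/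
def extOK : List (ℕ × ℕ) → List ℕ → List ℕ → Bool
  | [], _, _ => true
  | _ :: _, _, [] => false
  | e :: es, s, p :: ps =>
    match s[p]? with
    | none => false
    | some M => !(M.testBit e.1) && (!(M.testBit e.2) &&
        extOK es (s.set p (M ||| (2 ^ e.1 ||| 2 ^ e.2))) ps)

/-- The edges of the configuration are distinct pairs of distinct indices less than `n`. -/
def goodEdges (n : ℕ) : List (ℕ × ℕ) → Bool
  | [] => true
  | e :: es => (decide (e.1 < e.2) && decide (e.2 < n)) &&
      (es.all (fun e' => !(e.1 == e'.1 && e.2 == e'.2)) && goodEdges n es)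

theorem ext_sound (H : SimpleGraph V) (n : ℕ) (v : ℕ → V) (hv : Set.InjOn v {i | i < n}) :
    ∀ (es : List (ℕ × ℕ)), goodEdges n es = true → (∀ e ∈ es, H.Adj (v e.1) (v e.2)) →
    ∀ (s ps : List ℕ) (m : C → V → V), Col H (edgeList v es) m → St n v m s →
    extOK es s ps = true → ∃ m' : C → V → V, Col H [] m' := by
  classical
  intro es
  induction es with
  | nil => intro _ _ s ps m hm _ _; exact ⟨m, hm⟩
  | cons e es ih =>
    intro hg hadj s ps m hm hs hext
    rcases ps with _ | ⟨p, ps⟩
    · simp [extOK] at hext
    · rw [extOK] at hext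
      rcases hM : s[p]? with _ | M
      · rw [hM] at hext; simp at hext
      · rw [hM] at hext
        simp only [Bool.and_eq_true, Bool.not_eq_true'] at hext
        obtain ⟨hb1, hb2, hext⟩ := hext
        simp only [goodEdges, Bool.and_eq_true, decide_eq_true_eq, List.all_eq_true,
          Bool.not_eq_true', Bool.and_eq_false_iff, beq_eq_false_iff_ne] at hg
        obtain ⟨⟨hlt1, hlt2⟩, hg2, hg3⟩ := hg
        obtain ⟨cs, ⟨hnd, hval⟩, hcs⟩ := hs
        -- the colour at position `p`
        have hp : ∃ c, cs[p]? = some (c, M) := by
          rw [← hcs, List.getElem?_map] at hM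
          rcases hc : cs[p]? with _ | q
          · rw [hc] at hM; simp at hM
          · rw [hc] at hM
            simp only [Option.map_some, Option.some.injEq] at hM
            exact ⟨q.1, by rw [← hM]⟩
        obtain ⟨c, hc⟩ := hp
        have hmem : (c, M) ∈ cs := List.mem_of_getElem? hc
        have h1 : m c (v e.1) = v e.1 := hval _ hmem e.1 (by omega) hb1
        have h2 : m c (v e.2) = v e.2 := hval _ hmem e.2 hlt2 hb2
        have hne : v e.1 ≠ v e.2 := (hadj e (by simp)).ne
        have hcol := hm.add (T' := edgeList v es) hne (hadj e (by simp)) (by simp [edgeList]) h1 h2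
          (by
            intro x
            simp only [edgeList, List.map_cons, List.mem_cons, List.mem_map]
            constructor
            · rintro ⟨e', he', rfl⟩
              refine ⟨Or.inr ⟨e', he', rfl⟩, ?_⟩
              intro heq
              have hlt : e'.1 < e'.2 ∧ e'.2 < n := by
                clear ih hext hcs hval hnd hm hadj hg2
                induction es with
                | nil => simp at he'
                | cons f fs ihf =>
                  simp only [goodEdges, Bool.and_eq_true, decide_eq_true_eq] at hg3
                  rw [List.mem_cons] at he'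
                  rcases he' with rfl | he'
                  · exact hg3.1
                  · exact ihf hg3.2.2 he'
              rw [Sym2.eq_iff] at heq
              rcases heq with ⟨h3, h4⟩ | ⟨h3, h4⟩
              · have h5 := hv (by simp; omega) (by simp; omega) h3
                have h6 := hv (by simp; omega) (by simp; omega) h4
                rcases hg2 e' he' with h | h
                · exact h h5.symm
                · exact h h6.symm
              · have h5 := hv (by simp; omega) (by simp; omega) h3
                have h6 := hv (by simp; omega) (by simp; omega) h4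
                omega
            · rintro ⟨h | h, h'⟩
              · exact absurd h h'
              · exact h)
        refine ih hg3 (fun e' he' => hadj e' (by simp [he'])) _ ps _ hcol ?_ hext
        refine ⟨cs.set p (c, M ||| (2 ^ e.1 ||| 2 ^ e.2)), ⟨?_, ?_⟩, ?_⟩
        · rw [List.map_set]
          have : (cs.map Prod.fst).set p c = cs.map Prod.fst := by
            apply List.ext_getElem?
            intro i
            rw [List.getElem?_set]
            by_cases hi : p = i
            · subst hi
              rw [if_pos rfl]
              have hlen : p < (cs.map Prod.fst).length := by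
                rw [List.length_map]
                exact (List.getElem?_eq_some_iff.1 hc).1
              rw [if_pos hlen, List.getElem?_map, hc]
              rfl
            · rw [if_neg hi]
          simpa [this] using hnd
        · have hnd' : ((cs.set p (c, M ||| (2 ^ e.1 ||| 2 ^ e.2))).map Prod.fst).Nodup := by
            rw [List.map_set]
            have : (cs.map Prod.fst).set p c = cs.map Prod.fst := by
              apply List.ext_getElem?
              intro i
              rw [List.getElem?_set]
              by_cases hi : p = i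
              · subst hi
                rw [if_pos rfl]
                have hlen : p < (cs.map Prod.fst).length := by
                  rw [List.length_map]
                  exact (List.getElem?_eq_some_iff.1 hc).1
                rw [if_pos hlen, List.getElem?_map, hc]
                rfl
              · rw [if_neg hi]
            simpa [this] using hnd
          intro q hq i hi hbit
          by_cases hqc : q.1 = c
          · have hq2 : q = (c, M ||| (2 ^ e.1 ||| 2 ^ e.2)) := by
              apply List.inj_on_of_nodup_map hnd' hq
              · apply List.mem_of_getElem? (i := p)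
                rw [List.getElem?_set]
                have hlen : p < cs.length := (List.getElem?_eq_some_iff.1 hc).1
                simp [hlen]
              · exact hqc
            rw [hq2] at hbit ⊢
            simp only [Nat.testBit_or, Bool.or_eq_false_iff, Nat.testBit_two_pow,
              decide_eq_false_iff_not] at hbit
            obtain ⟨hbM, hbi1, hbi2⟩ := hbit
            have hv1 : v i ≠ v e.1 := fun h => hbi1 (hv (by simpa using hi) (by simp; omega) h).symm
            have hv2 : v i ≠ v e.2 := fun h => hbi2 (hv (by simpa using hi) (by simp; omega) h).symm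
            simp only
            rw [addC_other_vertex _ _ hv1 hv2]
            exact hval _ hmem i hi hbM
          · have hq3 : q ∈ cs := by
              rcases List.mem_or_eq_of_mem_set hq with h | h
              · exact h
              · exfalso; apply hqc; rw [h]
            rw [addC_other_colour hqc]
            exact hval q hq3 i hi hbit
        · rw [List.map_set, hcs]

/-! ### Matchings -/

/-- For every partition of `U` into pairs (and one singleton if the size is odd) some member of
`Ws` is a union of blocks. -/
def allM : ℕ → List ℕ → List ℕ → Bool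
  | _, [], Ws => !Ws.isEmpty
  | 0, _ :: _, _ => false
  | f + 1, i :: U, Ws =>
    (if U.length % 2 = 0 then allM f U Ws else true) &&
      U.all (fun j => allM f (U.erase j) (Ws.filter fun W => W.testBit i == W.testBit j))

theorem exists_unpaired (R : ℕ → ℕ → Prop) (hsymm : ∀ i j, R i j → R j i) (U : List ℕ)
    (hnd : U.Nodup) (huniq : ∀ i ∈ U, ∀ j ∈ U, ∀ k ∈ U, R i j → R i k → i ≠ j → i ≠ k → j = k)
    (hodd : U.length % 2 = 1) : ∃ j ∈ U, ∀ k ∈ U, k ≠ j → ¬ R j k := by
  classical
  by_contra hcon
  push Not at hcon
  choose! g hg1 hg2 hg3 using hcon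
  have hsum : ∑ x ∈ U.toFinset, (1 : ZMod 2) = 0 := by
    refine Finset.sum_involution (fun x _ => g x) ?_ ?_ ?_ ?_
    · intro a _; decide
    · intro a ha _; exact hg2 a (List.mem_toFinset.1 ha)
    · intro a ha; exact List.mem_toFinset.2 (hg1 a (List.mem_toFinset.1 ha))
    · intro a ha
      have ha' := List.mem_toFinset.1 ha
      have h1 := hg1 a ha'
      exact huniq (g a) h1 (g (g a)) (hg1 _ h1) a ha' (hg3 _ h1) (hsymm _ _ (hg3 a ha'))
        (hg2 _ h1).symm (hg2 a ha')
  rw [Finset.sum_const, List.toFinset_card_of_nodup hnd, nsmul_eq_mul, mul_one] at hsum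
  rw [ZMod.natCast_eq_zero_iff] at hsum
  omega

theorem allM_sound (R : ℕ → ℕ → Prop) (hsymm : ∀ i j, R i j → R j i) :
    ∀ (f : ℕ) (U Ws : List ℕ), U.Nodup →
    (∀ i ∈ U, ∀ j ∈ U, ∀ k ∈ U, R i j → R i k → i ≠ j → i ≠ k → j = k) →
    allM f U Ws = true →
    ∃ W ∈ Ws, ∀ i ∈ U, ∀ j ∈ U, R i j → W.testBit i = W.testBit j := by
  intro f
  induction f with
  | zero =>
    intro U Ws hnd huniq h
    rcases U with _ | ⟨i, U⟩
    · rcases Ws with _ | ⟨W, Ws⟩
      · simp [allM] at h
      · exact ⟨W, by simp, by simp⟩
    · simp [allM] at h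
  | succ f ih =>
    intro U Ws hnd huniq h
    rcases U with _ | ⟨i, U⟩
    · rcases Ws with _ | ⟨W, Ws⟩
      · simp [allM] at h
      · exact ⟨W, by simp, by simp⟩
    · rw [allM, Bool.and_eq_true, List.all_eq_true] at h
      obtain ⟨hs, hp⟩ := h
      rw [List.nodup_cons] at hnd
      have huniqU : ∀ i ∈ U, ∀ j ∈ U, ∀ k ∈ U, R i j → R i k → i ≠ j → i ≠ k → j = k :=
        fun a ha b hb c hc => huniq a (by simp [ha]) b (by simp [hb]) c (by simp [hc])
      -- pairing `i` with `j`
      have pair : ∀ j ∈ U, (∀ k ∈ U, R i k → k = j) → (∀ k ∈ U, R j k → k = j ) →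
          ∃ W ∈ Ws, ∀ a ∈ i :: U, ∀ b ∈ i :: U, R a b → W.testBit a = W.testBit b := by
        intro j hj h1 h2
        have hnd' : (U.erase j).Nodup := hnd.2.erase j
        obtain ⟨W, hW, hWp⟩ := ih (U.erase j) _ hnd' (fun a ha b hb c hc => huniqU a
          (List.mem_of_mem_erase ha) b (List.mem_of_mem_erase hb) c (List.mem_of_mem_erase hc))
          (hp j hj)
        rw [List.mem_filter] at hW
        have hij : W.testBit i = W.testBit j := by simpa using hW.2
        refine ⟨W, hW.1, ?_⟩
        have aux : ∀ a ∈ U, ∀ b ∈ U, R a b → W.testBit a = W.testBit b := by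
          intro a ha b hb hab
          by_cases haj : a = j
          · subst haj
            rw [h2 b hb hab]
          · by_cases hbj : b = j
            · subst hbj
              rw [h2 a ha (hsymm _ _ hab)]
            · exact hWp a ((List.mem_erase_of_ne haj).2 ha) b ((List.mem_erase_of_ne hbj).2 hb) hab
        intro a ha b hb hab
        rw [List.mem_cons] at ha hb
        rcases ha with rfl | ha
        · rcases hb with rfl | hb
          · rfl
          · rw [h1 b hb hab, hij]
        · rcases hb with rfl | hb
          · rw [h1 a ha (hsymm _ _ hab), hij]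
          · exact aux a ha b hb hab
      by_cases hex : ∃ j ∈ U, R i j
      · obtain ⟨j, hj, hij⟩ := hex
        have hij' : i ≠ j := by rintro rfl; exact hnd.1 hj
        apply pair j hj
        · intro k hk hik
          exact huniq i (by simp) k (by simp [hk]) j (by simp [hj]) hik hij
            (by rintro rfl; exact hnd.1 hk) hij'
        · intro k hk hjk
          by_contra hkj
          have := huniq j (by simp [hj]) k (by simp [hk]) i (by simp) hjk (hsymm _ _ hij)
            (Ne.symm hkj) (Ne.symm hij')
          subst this
          exact hnd.1 hk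
      · push Not at hex
        by_cases hlen : U.length % 2 = 0
        · rw [if_pos hlen] at hs
          obtain ⟨W, hW, hWp⟩ := ih U Ws hnd.2 huniqU hs
          refine ⟨W, hW, ?_⟩
          intro a ha b hb hab
          rw [List.mem_cons] at ha hb
          rcases ha with rfl | ha
          · rcases hb with rfl | hb
            · rfl
            · exact absurd hab (hex b hb)
          · rcases hb with rfl | hb
            · exact absurd (hsymm _ _ hab) (hex a ha)
            · exact hWp a ha b hb hab
        · obtain ⟨j, hj, hjk⟩ := exists_unpaired R hsymm U hnd.2 huniqU (by omega)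
          apply pair j hj
          · intro k hk hik
            exact absurd hik (hex k hk)
          · intro k hk hjk'
            by_contra hne
            exact hjk k hk hne hjk'

/-! ### Moves -/

/-- The positions where the masks differ. -/
def diffPos (n A B : ℕ) : List ℕ := (List.range n).filter fun i => A.testBit i != B.testBit i

theorem win_move {n : ℕ} {es : List (ℕ × ℕ)} {A B : ℕ} {rest : List ℕ} (f : ℕ) (Ws : List ℕ)
    (hall : allM f (diffPos n A B) Ws = true)
    (hW : ∀ W ∈ Ws, W &&& (A ^^^ B) = W ∧ Win n es ((A ^^^ W) :: (B ^^^ W) :: rest)) :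
    Win n es (A :: B :: rest) := by
  classical
  intro V C H v m hv hadj hm hs
  obtain ⟨cs, ⟨hnd, hval⟩, hcs⟩ := hs
  rcases cs with _ | ⟨⟨c1, M1⟩, _ | ⟨⟨c2, M2⟩, cs⟩⟩
  · simp at hcs
  · simp at hcs
  simp only [List.map_cons, List.cons.injEq] at hcs
  obtain ⟨rfl, rfl, hcs⟩ := hcs
  simp only [List.map_cons, List.nodup_cons, List.mem_cons, not_or] at hnd
  obtain ⟨⟨hc12, hc1⟩, hc2, hnd⟩ := hnd
  have hA : ∀ i < n, M1.testBit i = false → m c1 (v i) = v i := hval (c1, M1) (by simp)
  have hB : ∀ i < n, M2.testBit i = false → m c2 (v i) = v i := hval (c2, M2) (by simp)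
  -- the relation
  let R : ℕ → ℕ → Prop := fun i j => v j ∈ orb (m c1) (m c2) (v i)
  have hsymm : ∀ i j, R i j → R j i := fun i j h => orb_symm (hm.inv c1) (hm.inv c2) h
  have hU : ∀ i, i ∈ diffPos n M1 M2 ↔ i < n ∧ M1.testBit i ≠ M2.testBit i := by
    intro i; simp [diffPos]
  have hfix : ∀ i ∈ diffPos n M1 M2, m c1 (v i) = v i ∨ m c2 (v i) = v i := by
    intro i hi
    rw [hU] at hi
    rcases h1 : M1.testBit i with _ | _
    · left; exact hA i hi.1 h1
    · rcases h2 : M2.testBit i with _ | _
      · right; exact hB i hi.1 h2
      · exfalso; apply hi.2; rw [h1, h2]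
  have huniq : ∀ i ∈ diffPos n M1 M2, ∀ j ∈ diffPos n M1 M2, ∀ k ∈ diffPos n M1 M2,
      R i j → R i k → i ≠ j → i ≠ k → j = k := by
    intro i hi j hj k hk hij hik hne1 hne2
    by_contra hjk
    have hi' := ((hU i).1 hi).1
    have hj' := ((hU j).1 hj).1
    have hk' := ((hU k).1 hk).1
    exact orb_three (hm.inv c1) (hm.inv c2) (hfix i hi) (hfix j hj) (hfix k hk)
      (fun h => hne1 (hv (by simpa using hj') (by simpa using hi') h).symm)
      (fun h => hne2 (hv (by simpa using hk') (by simpa using hi') h).symm)
      (fun h => hjk (hv (by simpa using hj') (by simpa using hk') h)) hij hik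
  have hndU : (diffPos n M1 M2).Nodup := (List.nodup_range).filter _
  obtain ⟨W, hWm, hWp⟩ := allM_sound R hsymm f _ Ws hndU huniq hall
  obtain ⟨hWsub, hwin⟩ := hW W hWm
  have hWU : ∀ i, W.testBit i = true → M1.testBit i ≠ M2.testBit i := by
    intro i hi h
    rw [← hWsub, Nat.testBit_and, Nat.testBit_xor, h] at hi
    simp at hi
  -- the set to be swapped
  let S : Set V := {x | ∃ j < n, W.testBit j = true ∧ x ∈ orb (m c1) (m c2) (v j)}
  have hS : Cl (m c1) (m c2) S := by
    constructor
    · rintro x ⟨j, hj, hjW, hx⟩
      exact ⟨j, hj, hjW, (cl_orb _ _ _).1 x hx⟩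
    · rintro x ⟨j, hj, hjW, hx⟩
      exact ⟨j, hj, hjW, (cl_orb _ _ _).2 x hx⟩
  refine hwin V C H v (Pool.Agent.Vizing.kswap m c1 c2 S) hv hadj (hm.kswap hc12 hS) ?_
  refine ⟨(c1, M1 ^^^ W) :: (c2, M2 ^^^ W) :: cs, ⟨?_, ?_⟩, ?_⟩
  · simp only [List.map_cons, List.nodup_cons, List.mem_cons, not_or]
    exact ⟨⟨hc12, hc1⟩, hc2, hnd⟩
  · -- facts
    have hin : ∀ i, i < n → W.testBit i = true → v i ∈ S :=
      fun i hi hiW => ⟨i, hi, hiW, self_mem_orb _ _ _⟩
    -- a vertex outside `W` inside `S` misses both or has different bits... 
    have hout : ∀ i, i < n → W.testBit i = false → v i ∈ S → M1.testBit i ≠ M2.testBit i →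
        False := by
      rintro i hi hiW ⟨j, hj, hjW, hx⟩ hne
      have := hWp j ((hU j).2 ⟨hj, hWU j hjW⟩) i ((hU i).2 ⟨hi, hne⟩) hx
      rw [hjW, hiW] at this
      exact absurd this (by decide)
    intro p hp i hi hbit
    simp only [List.mem_cons] at hp
    rcases hp with rfl | rfl | hp
    · simp only [Nat.testBit_xor] at hbit ⊢
      rcases hiW : W.testBit i with _ | _
      · rw [hiW, Bool.xor_false] at hbit
        by_cases hiS : v i ∈ S
        · rw [kswap_a_in _ _ hiS]
          rcases hb : M2.testBit i with _ | _
          · exact hB i hi hb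
          · exact (hout i hi hiW hiS (by rw [hbit, hb]; decide)).elim
        · rw [kswap_a_out _ _ hiS]
          exact hA i hi hbit
      · rw [hiW, Bool.xor_true, Bool.not_eq_false'] at hbit
        rw [kswap_a_in _ _ (hin i hi hiW)]
        have := hWU i hiW
        rw [hbit] at this
        exact hB i hi (by rcases h : M2.testBit i with _ | _; rfl; exact absurd h.symm this)
    · simp only [Nat.testBit_xor] at hbit ⊢
      rcases hiW : W.testBit i with _ | _
      · rw [hiW, Bool.xor_false] at hbit
        by_cases hiS : v i ∈ S
        · rw [kswap_b_in hc12 hiS]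
          rcases hb : M1.testBit i with _ | _
          · exact hA i hi hb
          · exact (hout i hi hiW hiS (by rw [hbit, hb]; decide)).elim
        · rw [kswap_b_out hc12 hiS]
          exact hB i hi hbit
      · rw [hiW, Bool.xor_true, Bool.not_eq_false'] at hbit
        rw [kswap_b_in hc12 (hin i hi hiW)]
        have := hWU i hiW
        rw [hbit] at this
        exact hA i hi (by rcases h : M1.testBit i with _ | _; rfl; exact absurd h this)
    · have h1 : p.1 ≠ c1 := by
        rintro rfl; exact hc1 (List.mem_map_of_mem hp)
      have h2 : p.1 ≠ c2 := by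
        rintro rfl; exact hc2 (List.mem_map_of_mem hp)
      rw [kswap_other h1 h2]
      exact hval p (by simp [hp]) i hi hbit
  · simp [hcs]

end Pool.Agent.Vizing
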