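import Pool.Agent.Vizing.PathW

/-!
# The final case: two vertices with `k - 1` leaves each and a common big neighbour
-/

set_option autoImplicit false
set_option linter.unusedSectionVars false

namespace Pool.Agent.Vizing

open Finset

variable {V C : Type} [Fintype V] [Fintype C] {H : SimpleGraph V} {m : C → V → V} {k : ℕ}

/-- The colour `c` is missing at `x` or at `y`. -/
def Out (m : C → V → V) (x y : V) (c : C) : Prop := m c x = x ∨ m c y = y

/-- The local situation at `x`, `y`: `x` has at most `k` big neighbours and `k - 1` leaves. -/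
structure Loc (k : ℕ) (C : Type) [Fintype C] (H : SimpleGraph V) (x y : V) : Prop where
  hc : Crit k C H
  hk : 4 ≤ k
  hb : (big k H x).card ≤ k
  hl : (leaf k H x).card = k - 1
  hy : y ∈ leaf k H x

theorem Loc.yx {x y : V} (h : Loc k C H x y) : H.Adj y x := (mem_leaf.1 h.hy).1.symm

theorem Loc.facts {x y : V} (h : Loc k C H x y) (hm : Col H [s(y, x)] m) :
    Fintype.card C + 1 = 2 * k ∧ (miss m y).card = k ∧ (miss m x).card = 1 ∧
      dg H x = Fintype.card C := by
  obtain ⟨h1, h2, h3, h4, h5⟩ := h.hc.star_b h.hb h.hy hm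
  have h6 := card_miss_x hm h.yx
  have h7 := dg_eq k H x
  have h8 := h.hl
  have h9 := h.hk
  refine ⟨h1, h2, by omega, by omega⟩

theorem Loc.al {x y : V} (h : Loc k C H x y) (hm : Col H [s(y, x)] m) :
    ∃ al, m al x = x ∧ ∀ b, m b x = x → b = al := by
  obtain ⟨h1, h2, h3, h4⟩ := h.facts hm
  obtain ⟨al, hal⟩ := Finset.card_pos.1 (show 0 < (miss m x).card by omega)
  rw [mem_miss] at hal
  exact ⟨al, hal, fun b hb => Finset.card_le_one.1 (by omega) b (mem_miss.2 hb) al
    (mem_miss.2 hal)⟩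

theorem Loc.degx {x y : V} (h : Loc k C H x y) : k < dg H x := by
  obtain ⟨m, hm⟩ := h.hc.min y x h.yx
  have := h.facts hm
  have := h.hk
  omega

/-- The colour of the edge from `x` to a leaf different from `y` is not `Out`. -/
theorem Loc.leaf_col {x y A : V} (h : Loc k C H x y) (hm : Col H [s(y, x)] m)
    (hA : dg H A ≤ k) (hAx : A ≠ x) {de : C} (hde : m de x = A) : ¬ Out m x y de := by
  rintro (h1 | h1)
  · exact hAx (hde.symm.trans h1)
  · exact h.hc.star_leaf h.hy hm hA hde h1

/-- A path `y x z w v` with `z`, `w` big and `v` small. -/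
structure Path (k : ℕ) (C : Type) [Fintype C] (H : SimpleGraph V) (x y z w v : V) : Prop
    extends Loc k C H x y where
  hz : z ∈ big k H x
  hzw : H.Adj z w
  hwx : w ≠ x
  hw : k < dg H w
  hwv : H.Adj w v
  hvy : v ≠ y
  hv : dg H v ≤ k

namespace Path
variable {x y z w v : V}

theorem ne_of_lt {a b : V} (h1 : k < dg H a) (h2 : dg H b ≤ k) : a ≠ b := by
  rintro rfl; omega

theorem zx (h : Path k C H x y z w v) : z ≠ x := (mem_big.1 h.hz).1.ne'
theorem zy (h : Path k C H x y z w v) : z ≠ y := ne_of_lt (mem_big.1 h.hz).2 (mem_leaf.1 h.hy).2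
theorem wy (h : Path k C H x y z w v) : w ≠ y := ne_of_lt h.hw (mem_leaf.1 h.hy).2
theorem vx (h : Path k C H x y z w v) : v ≠ x := (ne_of_lt h.degx h.hv).symm
theorem vz (h : Path k C H x y z w v) : v ≠ z := (ne_of_lt (mem_big.1 h.hz).2 h.hv).symm

end Path

/-- First normalisation: the colour of `wv` is `Out`. -/
theorem t1a {x y z w v : V} (h : Path k C H x y z w v) :
    ∃ (m : C → V → V) (ze : C), Col H [s(y, x)] m ∧ m ze w = v ∧ Out m x y ze := by
  obtain ⟨m, hm⟩ := h.hc.min y x h.yx
  have hyx := h.yx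
  obtain ⟨ze, hze⟩ := hm.ex h.hwv (by
    rw [Ne, Sym2.eq_iff]
    rintro (⟨h1, _⟩ | ⟨h1, _⟩)
    · exact h.wy h1
    · exact h.hwx h1)
  by_cases hO : Out m x y ze
  · exact ⟨m, ze, hm, hze, hO⟩
  have hO' := hO
  rw [Out, not_or] at hO'
  have hAl := h.hc.colD h.hb h.hy hm hO'.1 hO'.2
  have hAy : m ze x ≠ y := hm.unc hyx.ne ze
  have hAw : m ze x ≠ w := by
    intro h1
    have := hm.back h1
    rw [hze] at this
    exact h.vx this
  rw [mem_leaf] at hAl
  obtain ⟨al, hal, hal'⟩ := h.al hm
  obtain ⟨ka, hka1, hka2, hka3⟩ := h.hc.leaf_two h.hb h.hy hm hAl.2 rfl hAl.1.ne' hAy hal al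
  have hkay : m ka y = y := hka3.resolve_left hka1
  obtain ⟨m1, hm1, L⟩ := linked h.hc.nc hm hyx hal hkay
  have hzeal : ze ≠ al := by rintro rfl; exact hO'.1 hal
  have hzeka : ze ≠ ka := by rintro rfl; exact hO'.2 hkay
  obtain ⟨m2, hm2, R⟩ := recol hm1 hAl.1.ne hAy.symm (al := ka) (de := ze) L.x_miss
    (L.other ze hzeal hzeka x) ((L.miss_iff ka _ hAl.1.ne' hAy).2 hka2)
  refine ⟨m2, ze, hm2, ?_, Or.inl R.x_de⟩
  rw [R.out w h.hwx hAw.symm, L.other ze hzeal hzeka, hze]

/-- Second normalisation, main case. -/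
theorem t1c {x y z w v : V} (h : Path k C H x y z w v) (hm : Col H [s(y, x)] m) {et ze : C}
    (het : m et z = w) (hze : m ze w = v) (hzey : m ze y = y) (hO : ¬ Out m x y et) :
    ∃ (m : C → V → V) (et ze : C), Col H [s(y, x)] m ∧ m et z = w ∧ m ze w = v ∧ Out m x y et ∧
      Out m x y ze := by
  have hyx := h.yx
  have hO' := hO
  rw [Out, not_or] at hO'
  have hAl := h.hc.colD h.hb h.hy hm hO'.1 hO'.2
  have hAy : m et x ≠ y := hm.unc hyx.ne et
  have hAw : m et x ≠ w := by
    intro h1
    have := hm.back h1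
    rw [hm.back het] at this
    exact h.zx this
  have hAz : m et x ≠ z := by
    intro h1
    have := hm.back h1
    rw [het] at this
    exact h.hwx this
  rw [mem_leaf] at hAl
  obtain ⟨al, hal, hal'⟩ := h.al hm
  obtain ⟨a, ha1, ha2, ha3⟩ := h.hc.leaf_two h.hb h.hy hm hAl.2 rfl hAl.1.ne' hAy hal ze
  have hetal : et ≠ al := by rintro rfl; exact hO'.1 hal
  by_cases haal : a = al
  · subst haal
    obtain ⟨m2, hm2, R⟩ := recol hm hAl.1.ne hAy.symm hal rfl ha2
    refine ⟨m2, et, ze, hm2, ?_, ?_, Or.inl R.x_de, Or.inr ?_⟩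
    · rw [R.out z h.zx hAz.symm, het]
    · rw [R.out w h.hwx hAw.symm, hze]
    · rw [R.out y hyx.ne hAy.symm, hzey]
  · have hay : m a y = y := ha3.resolve_left haal
    have heta : et ≠ a := by rintro rfl; exact hO'.2 hay
    have hzeal : ze ≠ al := by
      rintro rfl
      exact no_common h.hc.nc hm hyx hzey hal
    obtain ⟨m1, hm1, L⟩ := linked h.hc.nc hm hyx hal hay
    obtain ⟨m2, hm2, R⟩ := recol hm1 hAl.1.ne hAy.symm (al := a) (de := et) L.x_miss
      (L.other et hetal heta x) ((L.miss_iff a _ hAl.1.ne' hAy).2 ha2)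
    refine ⟨m2, et, ze, hm2, ?_, ?_, Or.inl R.x_de, Or.inr ?_⟩
    · rw [R.out z h.zx hAz.symm, L.other et hetal heta, het]
    · rw [R.out w h.hwx hAw.symm, L.other ze hzeal ha1.symm, hze]
    · rw [R.out y hyx.ne hAy.symm, L.other ze hzeal ha1.symm, hzey]

/-- The normalisation: the colours of `zw` and `wv` are `Out`. -/
theorem t1 {x y z w v : V} (h : Path k C H x y z w v) :
    ∃ (m : C → V → V) (et ze : C), Col H [s(y, x)] m ∧ m et z = w ∧ m ze w = v ∧ Out m x y et ∧
      Out m x y ze := by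
  classical
  obtain ⟨m, ze, hm, hze, hzeO⟩ := t1a h
  have hyx := h.yx
  obtain ⟨et, het⟩ := hm.ex h.hzw (by
    rw [Ne, Sym2.eq_iff]
    rintro (⟨h1, _⟩ | ⟨h1, _⟩)
    · exact h.zy h1
    · exact h.zx h1)
  by_cases hO : Out m x y et
  · exact ⟨m, et, ze, hm, het, hze, hO, hzeO⟩
  rcases hzeO with hzex | hzey
  · -- `ze` is the colour missing at `x`
    obtain ⟨c1, c2, c3, c4⟩ := h.facts hm
    have hv := card_miss hm h.vx h.hvy
    have hvd := h.hv
    have hzev : m ze v = w := hm.back hze
    have hex : ∃ ka, m ka v = v ∧ m ka y = y := by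
      by_contra hcon
      push Not at hcon
      have hd : Disjoint (miss m v) (miss m y) := by
        rw [Finset.disjoint_left]
        intro c h1 h2
        exact hcon c (mem_miss.1 h1) (mem_miss.1 h2)
      have hnot : ze ∉ miss m v ∪ miss m y := by
        rw [mem_union, mem_miss, mem_miss, not_or]
        refine ⟨?_, fun h1 => no_common h.hc.nc hm hyx h1 hzex⟩
        rw [hzev]; exact h.hwv.ne
      have hle : (insert ze (miss m v ∪ miss m y)).card ≤ Fintype.card C := Finset.card_le_univ _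
      rw [Finset.card_insert_of_notMem hnot, Finset.card_union_of_disjoint hd] at hle
      omega
    obtain ⟨ka, hkav, hkay⟩ := hex
    obtain ⟨m1, hm1, L⟩ := linked h.hc.nc hm hyx hzex hkay
    have hetze : et ≠ ze := by rintro rfl; exact hO (Or.inl hzex)
    have hetka : et ≠ ka := by rintro rfl; exact hO (Or.inr hkay)
    refine t1c h hm1 (et := et) (ze := ze) ?_ ?_ L.y_miss ?_
    · rw [L.other et hetze hetka, het]
    · have : m1 ze v = w := by rw [L.fixed v h.vx h.hvy (Or.inr hkav), hzev]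
      exact hm1.back this
    · intro h1
      apply hO
      rcases h1 with h1 | h1
      · left; rw [← L.other et hetze hetka, h1]
      · right; rw [← L.other et hetze hetka, h1]
  · exact t1c h hm het hze hzey hO

/-- The one leaf configurations. -/
theorem e1 {x y z w v A : V} (h : Path k C H x y z w v) (hm : Col H [s(y, x)] m) {et ze de : C}
    (het : m et z = w) (hze : m ze w = v) (hO1 : Out m x y et) (hO2 : Out m x y ze)
    (hA : A ∈ leaf k H x) (hAy : A ≠ y) (hAv : A ≠ v) (hde : m de x = A)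
    (hi : ∃ d, ¬ Out m x y d ∧ d ≠ de ∧ m d v ≠ v)
    (hii : m de v = v ∨ ∃ c, m c A = A ∧ m c v = v ∧ Out m x y c) : False := by
  classical
  have hyx := h.yx
  obtain ⟨c1, c2, c3, c4⟩ := h.facts hm
  obtain ⟨al, hal, hal'⟩ := h.al hm
  obtain ⟨_, _, _, _, hsurj⟩ := h.hc.star_b h.hb h.hy hm
  obtain ⟨be, hbey, hbex⟩ := hsurj z h.hz
  rw [mem_leaf] at hA
  have hzd := (mem_big.1 h.hz).2
  have hAx : A ≠ x := hA.1.ne'
  have hnd : [y, x, z, w, v, A].Nodup :=
    nodup6 hyx.ne h.zy.symm h.wy.symm h.hvy.symm hAy.symm h.zx.symm h.hwx.symm h.vx.symm hAx.symm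
      h.hzw.ne h.vz.symm (Path.ne_of_lt hzd hA.2) h.hwv.ne (Path.ne_of_lt h.hw hA.2) hAv.symm
  have conv : ∀ c, Out m x y c → c = al ∨ m c y = y := by
    rintro c (h1 | h1)
    · exact Or.inl (hal' c h1)
    · exact Or.inr h1
  have conv3 : ∀ c, Out m x y c → c = al ∨ c = de ∨ m c y = y := by
    intro c h1
    rcases conv c h1 with h2 | h2
    · exact Or.inl h2
    · exact Or.inr (Or.inr h2)
  obtain ⟨d, hd1, hd2, hd3⟩ := hi
  -- counting
  have hdeO : ¬ Out m x y de := h.leaf_col hm hA.2 hAx hde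
  have hQ1 : al ∉ miss m y := by
    rw [mem_miss]; intro h1; exact no_common h.hc.nc hm hyx h1 hal
  have hQ2 : de ∉ insert al (miss m y) := by
    rw [mem_insert, mem_miss, not_or]
    exact ⟨fun h1 => hdeO (Or.inl (h1 ▸ hal)), fun h1 => hdeO (Or.inr h1)⟩
  have hcardQ : (insert de (insert al (miss m y))).card = k + 2 := by
    rw [Finset.card_insert_of_notMem hQ2, Finset.card_insert_of_notMem hQ1, c2]
  have hP : 3 ≤ (miss m v ∩ insert de (insert al (miss m y))).card := by
    have h1 := Finset.card_union_add_card_inter (miss m v) (insert de (insert al (miss m y)))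
    have h2 : d ∉ miss m v ∪ insert de (insert al (miss m y)) := by
      simp only [mem_union, mem_insert, mem_miss, not_or]
      exact ⟨hd3, hd2, fun h3 => hd1 (Or.inl (h3 ▸ hal)), fun h3 => hd1 (Or.inr h3)⟩
    have h3 : (insert d (miss m v ∪ insert de (insert al (miss m y)))).card ≤ Fintype.card C :=
      Finset.card_le_univ _
    rw [Finset.card_insert_of_notMem h2] at h3
    have h4 := card_miss hm h.vx h.hvy
    have h5 := h.hv
    omega
  rcases hii with hdv | ⟨c, hcA, hcv, hcO⟩
  · -- E1a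
    have hPe : 1 < ((miss m v ∩ insert de (insert al (miss m y))).erase de).card := by
      have := Finset.pred_card_le_card_erase
        (s := miss m v ∩ insert de (insert al (miss m y))) (a := de)
      omega
    obtain ⟨v2, hv2⟩ := Finset.card_pos.1 (show 0 < _ from by omega : 0 <
      ((miss m v ∩ insert de (insert al (miss m y))).erase de).card)
    obtain ⟨v3, hv3, hv32⟩ := Finset.exists_mem_ne hPe v2
    simp only [mem_erase, mem_inter, mem_insert, mem_miss] at hv2 hv3
    obtain ⟨a1, _, ha12, ha13⟩ := h.hc.leaf_two h.hb h.hy hm hA.2 hde hAx hAy hal al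
    obtain ⟨a2, ha21, ha22, ha23⟩ := h.hc.leaf_two h.hb h.hy hm hA.2 hde hAx hAy hal a1
    exact conf_E1a h.hc.nc hnd hm hyx hal hde hbex hbey het hze hdv hv2.2.1 hv3.2.1 ha12 ha22
      hv32.symm ha21.symm hv2.1 hv3.1 (conv3 et hO1) (conv3 ze hO2)
      (hv2.2.2.resolve_left hv2.1) (hv3.2.2.resolve_left hv3.1) ha13 ha23
  · -- E1b
    have hPe : 1 < ((miss m v ∩ insert de (insert al (miss m y))).erase c).card := by
      have := Finset.pred_card_le_card_erase
        (s := miss m v ∩ insert de (insert al (miss m y))) (a := c)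
      omega
    obtain ⟨v2, hv2⟩ := Finset.card_pos.1 (show 0 < _ from by omega : 0 <
      ((miss m v ∩ insert de (insert al (miss m y))).erase c).card)
    obtain ⟨v3, hv3, hv32⟩ := Finset.exists_mem_ne hPe v2
    simp only [mem_erase, mem_inter, mem_insert, mem_miss] at hv2 hv3
    obtain ⟨a2, ha21, ha22, ha23⟩ := h.hc.leaf_two h.hb h.hy hm hA.2 hde hAx hAy hal c
    have cyc : ∀ u, (u = de ∨ u = al ∨ m u y = y) → (u = al ∨ u = de ∨ m u y = y) := by
      rintro u (h1 | h1 | h1)
      · exact Or.inr (Or.inl h1)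
      · exact Or.inl h1
      · exact Or.inr (Or.inr h1)
    exact conf_E1b h.hc.nc hnd hm hyx hal hde hbex hbey het hze hcv hcA hv2.2.1 hv3.2.1 ha22
      hv32.symm hv2.1 hv3.1 ha21.symm (conv3 et hO1) (conv3 ze hO2)
      (cyc _ hv2.2.2) (cyc _ hv3.2.2) (conv c hcO) ha23

/-- Path edges keep `Out` colours when only `Out` colours change. -/
theorem transfer {x y : V} {m m' : C → V → V} (hm : Col H [s(y, x)] m)
    (hm' : Col H [s(y, x)] m') {p q : C} (hoth : ∀ c, c ≠ p → c ≠ q → ∀ u, m' c u = m c u)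
    (hp : Out m' x y p) (hq : Out m' x y q) {e : C} {a b : V} (hab : a ≠ b) (he : m e a = b)
    (hO : Out m x y e) : ∃ e', m' e' a = b ∧ Out m' x y e' := by
  have hadj : H.Adj a b := by
    have := hm.adj e a (by rw [he]; exact hab.symm)
    rwa [he] at this
  have hT : s(a, b) ≠ s(y, x) := by
    have := hm.notT e a (by rw [he]; exact hab.symm)
    rw [he] at this
    simpa using this
  obtain ⟨e', he'⟩ := hm'.ex hadj hT
  refine ⟨e', he', ?_⟩
  by_cases h1 : e' = p
  · rw [h1]; exact hp
  · by_cases h2 : e' = q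
    · rw [h2]; exact hq
    · have h3 : m e' a = b := by rw [← hoth e' h1 h2, he']
      have h4 : e' = e := hm.uniq e' e a (by rw [h3, he]) (by rw [h3]; exact hab.symm)
      rw [h4] at h1 h2 ⊢
      rcases hO with h5 | h5
      · left; rw [hoth e h1 h2, h5]
      · right; rw [hoth e h1 h2, h5]

open Classical in
theorem Loc.cardD {x y : V} (h : Loc k C H x y) (hm : Col H [s(y, x)] m) :
    (univ.filter fun c => ¬ Out m x y c).card = k - 2 := by
  obtain ⟨c1, c2, c3, c4⟩ := h.facts hm
  have h1 : (univ.filter fun c => Out m x y c) = miss m x ∪ miss m y := by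
    ext c
    rw [mem_filter, mem_union, mem_miss, mem_miss]
    exact ⟨fun h => h.2, fun h => ⟨mem_univ _, h⟩⟩
  have h2 : Disjoint (miss m x) (miss m y) := by
    rw [Finset.disjoint_left]
    intro c h1 h2
    rw [mem_miss] at h1 h2
    exact no_common h.hc.nc hm h.yx h2 h1
  have h3 := Finset.card_filter_add_card_filter_not (s := (univ : Finset C))
    (fun c => Out m x y c)
  rw [h1, Finset.card_union_of_disjoint h2, Finset.card_univ] at h3
  have := h.hk
  omega

/-- Two colours which are not `Out`. -/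
theorem Loc.twoD {x y : V} (h : Loc k C H x y) (hm : Col H [s(y, x)] m) (f : C) :
    ∃ d, ¬ Out m x y d ∧ d ≠ f := by
  classical
  have h1 := h.cardD hm
  have h2 := h.hk
  obtain ⟨d, hd, hdf⟩ := Finset.exists_mem_ne (s := univ.filter fun c => ¬ Out m x y c)
    (by omega) f
  simp only [mem_filter, mem_univ, true_and] at hd
  exact ⟨d, hd, hdf⟩

/-- The two leaf configuration, when all the colours `D` and the colour `al` are missing
at `v`. -/
theorem e2 {x y z w v : V} (h : Path k C H x y z w v) (hm : Col H [s(y, x)] m) {et ze al : C}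
    (het : m et z = w) (hze : m ze w = v) (hO1 : Out m x y et) (hO2 : Out m x y ze)
    (hal : m al x = x) (halv : m al v = v) (hD : ∀ d, ¬ Out m x y d → m d v = v) : False := by
  classical
  have hyx := h.yx
  obtain ⟨c1, c2, c3, c4⟩ := h.facts hm
  obtain ⟨al', hal0, hal'⟩ := h.al hm
  have : al = al' := hal' al hal
  subst this
  obtain ⟨_, _, _, _, hsurj⟩ := h.hc.star_b h.hb h.hy hm
  obtain ⟨be, hbey, hbex⟩ := hsurj z h.hz
  have hzd := (mem_big.1 h.hz).2
  obtain ⟨dA, hdA, _⟩ := h.twoD hm al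
  obtain ⟨dB, hdB, hdBA⟩ := h.twoD hm dA
  have hdA' := hdA
  have hdB' := hdB
  rw [Out, not_or] at hdA' hdB'
  have hAl := h.hc.colD h.hb h.hy hm hdA'.1 hdA'.2
  have hBl := h.hc.colD h.hb h.hy hm hdB'.1 hdB'.2
  rw [mem_leaf] at hAl hBl
  have hAy : m dA x ≠ y := hm.unc hyx.ne dA
  have hBy : m dB x ≠ y := hm.unc hyx.ne dB
  have hAB : m dA x ≠ m dB x := fun h1 => hdBA (hm.uniq dA dB x h1 hdA'.1).symm
  have hAv : v ≠ m dA x := by
    intro h1
    have := hm.back h1.symm
    rw [hD dA hdA] at this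
    exact h.vx this
  have hBv : v ≠ m dB x := by
    intro h1
    have := hm.back h1.symm
    rw [hD dB hdB] at this
    exact h.vx this
  obtain ⟨a, _, ha2, ha3⟩ := h.hc.leaf_two h.hb h.hy hm hAl.2 rfl hAl.1.ne' hAy hal al
  obtain ⟨b, hb1, hb2, hb3⟩ := h.hc.leaf_two h.hb h.hy hm hBl.2 rfl hBl.1.ne' hBy hal a
  have conv : ∀ c, Out m x y c → c = al ∨ m c y = y := by
    rintro c (h1 | h1)
    · exact Or.inl (hal' c h1)
    · exact Or.inr h1
  have conv' : ∀ c, (c = al ∨ m c y = y) → Out m x y c := by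
    rintro c (h1 | h1)
    · exact Or.inl (h1 ▸ hal)
    · exact Or.inr h1
  have hnd : [y, x, z, w, v, m dA x, m dB x].Nodup := by
    have n1 := nodup6 hyx.ne h.zy.symm h.wy.symm h.hvy.symm hAy.symm h.zx.symm h.hwx.symm
      h.vx.symm hAl.1.ne h.hzw.ne h.vz.symm (Path.ne_of_lt hzd hAl.2) h.hwv.ne
      (Path.ne_of_lt h.hw hAl.2) hAv
    have n2 := nodup6 hyx.ne h.zy.symm h.wy.symm h.hvy.symm hBy.symm h.zx.symm h.hwx.symm
      h.vx.symm hBl.1.ne h.hzw.ne h.vz.symm (Path.ne_of_lt hzd hBl.2) h.hwv.ne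
      (Path.ne_of_lt h.hw hBl.2) hBv
    simp only [List.nodup_cons, List.mem_cons, List.not_mem_nil, or_false, not_or,
      not_false_eq_true, List.nodup_nil, and_true] at n1 n2 ⊢
    tauto
  refine conf_E2 h.hc.nc hnd hm hyx hal rfl rfl hbex hbey het hze halv (hD dA hdA) (hD dB hdB)
    ha2 hb2 hb1.symm (conv et hO1) ?_ ha3 hb3 ?_ ?_ ?_ ?_
  · rcases conv ze hO2 with h1 | h1
    · exfalso
      rw [← h1, hm.back hze] at halv
      exact h.hwv.ne halv
    · exact h1
  · rintro rfl; exact hdA hO1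
  · rintro rfl; exact hdB hO1
  · rintro rfl; exact hdB (conv' _ ha3)
  · rintro rfl; exact hdA (conv' _ hb3)

/-- A small vertex adjacent to `w` is adjacent to `x`. -/
theorem nonshared {x y z w v : V} (h : Path k C H x y z w v) (hvl : ¬ H.Adj x v) : False := by
  classical
  obtain ⟨m, et, ze, hm, het, hze, hO1, hO2⟩ := t1 h
  have hyx := h.yx
  obtain ⟨c1, c2, c3, c4⟩ := h.facts hm
  obtain ⟨al, hal, hal'⟩ := h.al hm
  have hk := h.hk
  have hvc := card_miss hm h.vx h.hvy
  have hvd := h.hv
  -- leaves are different from `v`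
  have hleaf : ∀ d, ¬ Out m x y d → m d x ∈ leaf k H x ∧ m d x ≠ y ∧ m d x ≠ v := by
    intro d hd
    rw [Out, not_or] at hd
    have h1 := h.hc.colD h.hb h.hy hm hd.1 hd.2
    refine ⟨h1, hm.unc hyx.ne d, ?_⟩
    intro h2
    apply hvl
    rw [mem_leaf, h2] at h1
    exact h1.1
  have hE : ∀ de, ¬ Out m x y de → (∃ d, ¬ Out m x y d ∧ d ≠ de ∧ m d v ≠ v) →
      ¬ (m de v = v ∨ ∃ c, m c (m de x) = m de x ∧ m c v = v ∧ Out m x y c) := by
    intro de hde hi hii
    obtain ⟨h1, h2, h3⟩ := hleaf de hde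
    exact e1 h hm het hze hO1 hO2 h1 h2 h3 rfl hi hii
  by_cases hall : ∀ d, ¬ Out m x y d → m d v = v
  · -- all the colours of `D` are missing at `v`
    have hex : ∃ c0, m c0 v = v ∧ Out m x y c0 := by
      by_contra hcon
      push Not at hcon
      have hsub : miss m v ⊆ univ.filter fun c => ¬ Out m x y c := by
        intro c hcc
        simp only [mem_filter, mem_univ, true_and]
        exact hcon c (mem_miss.1 hcc)
      have h1 := Finset.card_le_card hsub
      rw [h.cardD hm] at h1
      omega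
    obtain ⟨c0, hc0v, hc0O⟩ := hex
    rcases hc0O with hc0x | hc0y
    · exact e2 h hm het hze hO1 hO2 hc0x hc0v hall
    · obtain ⟨m1, hm1, L⟩ := linked h.hc.nc hm hyx hal hc0y
      have o1 : Out m1 x y al := Or.inr L.y_miss
      have o2 : Out m1 x y c0 := Or.inl L.x_miss
      obtain ⟨et', het', hO1'⟩ := transfer hm hm1 L.other o1 o2 h.hzw.ne het hO1
      obtain ⟨ze', hze', hO2'⟩ := transfer hm hm1 L.other o1 o2 h.hwv.ne hze hO2
      refine e2 h hm1 het' hze' hO1' hO2' L.x_miss ((L.miss_iff c0 v h.vx h.hvy).2 hc0v) ?_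
      intro d hd
      have h1 : d ≠ al := by rintro rfl; exact hd o1
      have h2 : d ≠ c0 := by rintro rfl; exact hd o2
      rw [L.other d h1 h2]
      apply hall
      intro h3
      apply hd
      rcases h3 with h4 | h4
      · left; rw [L.other d h1 h2, h4]
      · right; rw [L.other d h1 h2, h4]
  · push Not at hall
    obtain ⟨d0, hd0, hd0v⟩ := hall
    -- no colour of `D` is missing at `v`
    have hnone : ∀ d, ¬ Out m x y d → m d v ≠ v := by
      intro d hd
      by_cases h1 : d = d0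
      · rw [h1]; exact hd0v
      · intro h2
        exact hE d hd ⟨d0, hd0, Ne.symm h1, hd0v⟩ (Or.inl h2)
    have hno2 : ∀ de, ¬ Out m x y de → ∀ c, m c (m de x) = m de x → m c v = v → False := by
      intro de hde c h1 h2
      obtain ⟨d, hd, hdde⟩ := h.twoD hm de
      by_cases hcO : Out m x y c
      · exact hE de hde ⟨d, hd, hdde, hnone d hd⟩ (Or.inr ⟨c, h1, h2, hcO⟩)
      · exact hnone c hcO h2
    -- the colours present at `v` are missing at all leaves
    have hfull : ∀ de, ¬ Out m x y de → (miss m v).card ≤ k - 1 ∧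
        ∀ c, m c v ≠ v → c ≠ de → m c (m de x) = m de x := by
      intro de hde
      obtain ⟨h1, h2, h3⟩ := hleaf de hde
      rw [mem_leaf] at h1
      have hA := card_miss hm h1.1.ne' h2
      have hdis : Disjoint (miss m v) (miss m (m de x)) := by
        rw [Finset.disjoint_left]
        intro c h4 h5
        exact hno2 de hde c (mem_miss.1 h5) (mem_miss.1 h4)
      have hdn : de ∉ miss m v ∪ miss m (m de x) := by
        rw [mem_union, mem_miss, mem_miss, not_or]
        refine ⟨hnone de hde, ?_⟩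
        rw [hm.inv]
        exact h1.1.ne
      have hle : (insert de (miss m v ∪ miss m (m de x))).card ≤ Fintype.card C :=
        Finset.card_le_univ _
      have hcard : (insert de (miss m v ∪ miss m (m de x))).card =
          (miss m v).card + (miss m (m de x)).card + 1 := by
        rw [Finset.card_insert_of_notMem hdn, Finset.card_union_of_disjoint hdis]
      refine ⟨by omega, ?_⟩
      have huniv : insert de (miss m v ∪ miss m (m de x)) = univ := by
        apply Finset.eq_univ_of_card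
        omega
      intro c hcv hcde
      have : c ∈ insert de (miss m v ∪ miss m (m de x)) := by rw [huniv]; exact mem_univ _
      rw [mem_insert, mem_union, mem_miss, mem_miss] at this
      rcases this with h4 | h4 | h4
      · exact absurd h4 hcde
      · exact absurd h4 hcv
      · exact h4
    obtain ⟨d1, hd1, _⟩ := h.twoD hm al
    obtain ⟨d2, hd2, hd21⟩ := h.twoD hm d1
    -- a colour of `K` present at `v`
    have hom : ∃ om, m om y = y ∧ m om v ≠ v := by
      by_contra hcon
      push Not at hcon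
      have hsub : miss m y ⊆ miss m v := by
        intro c hcc
        rw [mem_miss] at hcc ⊢
        exact hcon c hcc
      have h1 := Finset.card_le_card hsub
      have h2 := (hfull d1 hd1).1
      omega
    obtain ⟨om, homy, homv⟩ := hom
    -- a colour of `K` missing at `v`
    have hka : ∃ ka, m ka y = y ∧ m ka v = v := by
      obtain ⟨ka, h1, h2⟩ := Finset.exists_mem_ne (s := miss m v) (by omega) al
      rw [mem_miss] at h1
      refine ⟨ka, ?_, h1⟩
      by_contra h3
      have hO : ¬ Out m x y ka := by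
        rintro (h4 | h4)
        · exact h2 (hal' ka h4)
        · exact h3 h4
      exact hnone ka hO h1
    obtain ⟨ka, hkay, hkav⟩ := hka
    have hko : ka ≠ om := by rintro rfl; exact homv hkav
    have omleaf : ∀ d, ¬ Out m x y d → m om (m d x) = m d x := by
      intro d hd
      apply (hfull d hd).2 om homv
      rintro rfl
      exact hd (Or.inr homy)
    -- the swap
    have hyS : y ∉ orb (m ka) (m om) v := by
      intro h1
      have h2 := orb_symm (hm.inv ka) (hm.inv om) h1
      exact h.hvy (orb_of_fixed hkay homy h2)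
    have finish : ∀ d d' : C, ¬ Out m x y d → ¬ Out m x y d' → d' ≠ d →
        m d x ∉ orb (m ka) (m om) v → False := by
      intro d d' hd hd' hne hS
      obtain ⟨l1, l2, l3⟩ := hleaf d hd
      have hm1 := hm.kswap hko (cl_orb (m ka) (m om) v)
      have hoth : ∀ c, c ≠ ka → c ≠ om → ∀ u,
          kswap m ka om (orb (m ka) (m om) v) c u = m c u :=
        fun c h1 h2 u => kswap_other h1 h2 _ u
      have o1 : Out (kswap m ka om (orb (m ka) (m om) v)) x y ka := by
        right; rw [kswap_a_out _ _ hyS, hkay]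
      have o2 : Out (kswap m ka om (orb (m ka) (m om) v)) x y om := by
        right; rw [kswap_b_out hko hyS, homy]
      have neD : ∀ c, ¬ Out m x y c → c ≠ ka ∧ c ≠ om := by
        intro c hcO
        constructor
        · rintro rfl; exact hcO (Or.inr hkay)
        · rintro rfl; exact hcO (Or.inr homy)
      obtain ⟨et', het', hO1'⟩ := transfer hm hm1 hoth o1 o2 h.hzw.ne het hO1
      obtain ⟨ze', hze', hO2'⟩ := transfer hm hm1 hoth o1 o2 h.hwv.ne hze hO2
      refine e1 h hm1 het' hze' hO1' hO2' l1 l2 l3 (de := d) ?_ ⟨d', ?_, hne, ?_⟩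
        (Or.inr ⟨om, ?_, ?_, o2⟩)
      · rw [hoth d (neD d hd).1 (neD d hd).2]
      · rintro (h1 | h1)
        · rw [hoth d' (neD d' hd').1 (neD d' hd').2] at h1; exact hd' (Or.inl h1)
        · rw [hoth d' (neD d' hd').1 (neD d' hd').2] at h1; exact hd' (Or.inr h1)
      · rw [hoth d' (neD d' hd').1 (neD d' hd').2]
        exact hnone d' hd'
      · rw [kswap_b_out hko hS]
        exact omleaf d hd
      · rw [kswap_b_in hko (self_mem_orb _ _ _), hkav]
    obtain ⟨l11, l12, l13⟩ := hleaf d1 hd1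
    obtain ⟨l21, l22, l23⟩ := hleaf d2 hd2
    by_cases hS1 : m d1 x ∈ orb (m ka) (m om) v
    · by_cases hS2 : m d2 x ∈ orb (m ka) (m om) v
      · refine orb_three (hm.inv ka) (hm.inv om) (Or.inl hkav) (Or.inr (omleaf d1 hd1))
          (Or.inr (omleaf d2 hd2)) l13 l23 ?_ hS1 hS2
        intro h1
        apply hd21
        refine (hm.uniq d1 d2 x h1 ?_).symm
        intro h2
        exact hd1 (Or.inl h2)
      · exact finish d2 d1 hd2 hd1 hd21.symm hS2
    · exact finish d1 d2 hd1 hd2 hd21 hS1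

/-- All leaves of `x` adjacent to `w` is impossible. -/
theorem shared {x y z w : V} (h : Loc k C H x y) (hz : z ∈ big k H x) (hzw : H.Adj z w)
    (hwx : w ≠ x) (hw : k < dg H w) (hall : ∀ u ∈ leaf k H x, H.Adj w u) : False := by
  classical
  have hk := h.hk
  have hl := h.hl
  have hyx := h.yx
  obtain ⟨v, hvl, hvy⟩ := Finset.exists_mem_ne (s := leaf k H x) (by omega) y
  have hv := (mem_leaf.1 hvl).2
  have hP : Path k C H x y z w v := ⟨h, hz, hzw, hwx, hw, hall v hvl, hvy, hv⟩
  obtain ⟨m, et, ze, hm, het, hze, hO1, hO2⟩ := t1 hP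
  obtain ⟨c1, c2, c3, c4⟩ := h.facts hm
  -- colours of the leaf edges
  have hcol : ∀ A ∈ leaf k H x, A ≠ y → ∃ d, m d x = A ∧ ¬ Out m x y d := by
    intro A hA hAy
    have hA' := mem_leaf.1 hA
    obtain ⟨d, hd⟩ := hm.ex hA'.1 (by
      rw [Ne, Sym2.eq_iff]
      rintro (⟨h1, _⟩ | ⟨_, h1⟩)
      · exact hyx.ne h1.symm
      · exact hAy h1)
    exact ⟨d, hd, h.leaf_col hm hA'.2 hA'.1.ne' hd⟩
  obtain ⟨dv, hdv, hdvO⟩ := hcol v hvl hvy
  have hdvv : m dv v = x := hm.back hdv
  have hvx := hP.vx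
  -- consequences of the one leaf configuration
  have hE : ∀ A ∈ leaf k H x, A ≠ y → A ≠ v → ∀ dA, m dA x = A → ¬ Out m x y dA →
      ¬ (m dA v = v ∨ ∃ c, m c A = A ∧ m c v = v ∧ Out m x y c) := by
    intro A hA hAy hAv dA hdA hdAO hii
    refine e1 hP hm het hze hO1 hO2 hA hAy hAv hdA ⟨dv, hdvO, ?_, ?_⟩ hii
    · rintro rfl
      exact hAv (hdA.symm.trans hdv)
    · rw [hdvv]; exact hvx.symm
  have hnone : ∀ d, ¬ Out m x y d → m d v ≠ v := by
    intro d hd h2
    have hd' := hd
    rw [Out, not_or] at hd'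
    have hl1 := h.hc.colD h.hb h.hy hm hd'.1 hd'.2
    have hdvne : m d x ≠ v := by
      intro h3
      have := hm.back h3
      rw [h2] at this
      exact hvx this
    exact hE _ hl1 (hm.unc hyx.ne d) hdvne d rfl hd (Or.inl h2)
  -- a third leaf
  have : ∃ A ∈ leaf k H x, A ≠ y ∧ A ≠ v := by
    have h1 : 0 < (((leaf k H x).erase y).erase v).card := by
      have := Finset.pred_card_le_card_erase (s := leaf k H x) (a := y)
      have := Finset.pred_card_le_card_erase (s := (leaf k H x).erase y) (a := v)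
      omega
    obtain ⟨A, hA⟩ := Finset.card_pos.1 h1
    simp only [mem_erase] at hA
    exact ⟨A, hA.2.2, hA.2.1, hA.1⟩
  obtain ⟨A, hAl, hAy, hAv⟩ := this
  have hA' := mem_leaf.1 hAl
  obtain ⟨dA, hdA, hdAO⟩ := hcol A hAl hAy
  have hdAA : m dA A = x := hm.back hdA
  have hno := hE A hAl hAy hAv dA hdA hdAO
  rw [not_or] at hno
  push Not at hno
  have hvc := card_miss hm hvx hvy
  have hAc := card_miss hm hA'.1.ne' hAy
  have hdis : Disjoint (miss m v) (miss m A) := by
    rw [Finset.disjoint_left]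
    intro c h4 h5
    rw [mem_miss] at h4 h5
    by_cases hcO : Out m x y c
    · exact hno.2 c h5 h4 hcO
    · exact hnone c hcO h4
  have hdn : dA ∉ miss m v ∪ miss m A := by
    rw [mem_union, mem_miss, mem_miss, not_or]
    refine ⟨hno.1, ?_⟩
    rw [hdAA]
    exact hA'.1.ne
  have huniv : insert dA (miss m v ∪ miss m A) = univ := by
    apply Finset.eq_univ_of_card
    have hle : (insert dA (miss m v ∪ miss m A)).card ≤ Fintype.card C := Finset.card_le_univ _
    rw [Finset.card_insert_of_notMem hdn, Finset.card_union_of_disjoint hdis] at hle ⊢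
    have := hA'.2
    omega
  have hmem : ∀ c, c ≠ dA → m c v = v ∨ m c A = A := by
    intro c hcne
    have : c ∈ insert dA (miss m v ∪ miss m A) := by rw [huniv]; exact mem_univ _
    rw [mem_insert, mem_union, mem_miss, mem_miss] at this
    rcases this with h4 | h4 | h4
    · exact absurd h4 hcne
    · exact Or.inl h4
    · exact Or.inr h4
  -- the roles of `v` and `A` are exchanged
  have hwA := hall A hAl
  obtain ⟨ze', hze'⟩ := hm.ex hwA (by
    rw [Ne, Sym2.eq_iff]
    rintro (⟨h1, _⟩ | ⟨h1, _⟩)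
    · exact hP.wy h1
    · exact hwx h1)
  have hzeA : m ze' A = w := hm.back hze'
  have hzedA : ze' ≠ dA := by
    rintro rfl
    exact hwx (hzeA.symm.trans hdAA)
  have hzeO : Out m x y ze' := by
    by_contra hcon
    rcases hmem ze' hzedA with h1 | h1
    · exact hnone ze' hcon h1
    · rw [hzeA] at h1
      exact hwA.ne h1
  have hP' : Path k C H x y z w A := ⟨h, hz, hzw, hwx, hw, hwA, hAy, hA'.2⟩
  refine e1 hP' hm het hze' hO1 hzeO hvl hvy hAv.symm hdv ⟨dA, hdAO, ?_, ?_⟩ (Or.inl ?_)
  · rintro rfl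
    exact hAv (hdA.symm.trans hdv)
  · rw [hdAA]; exact hA'.1.ne
  · have hne : dv ≠ dA := by
      rintro rfl
      exact hAv (hdA.symm.trans hdv)
    rcases hmem dv hne with h1 | h1
    · rw [hdvv] at h1
      exact absurd h1.symm hvx
    · exact h1

end Pool.Agent.Vizing
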