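import Pool.Agent.Vizing.Final

/-!
# Every `k`-degenerate graph of maximum degree at most `c` is `c`-edge-colourable if `c ≥ 2k - 1`
-/

set_option autoImplicit false
set_option linter.unusedSectionVars false

namespace Pool.Agent.Vizing

open Finset

variable {V C : Type} [Fintype V] [Fintype C] {H : SimpleGraph V} {m : C → V → V} {k : ℕ}

open Classical in
/-- Every nonempty set of vertices contains a vertex with at most `k` neighbours in the set. -/
def Degen (k : ℕ) (H : SimpleGraph V) : Prop :=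
  ∀ S : Finset V, S.Nonempty → ∃ v ∈ S, (S.filter fun u => H.Adj v u).card ≤ k

theorem Crit.ex_leaf (_hc : Crit k C H) {x : V} (hx : k < dg H x) (hb : (big k H x).card ≤ k) :
    ∃ y, y ∈ leaf k H x := by
  have := dg_eq k H x
  exact Finset.card_pos.1 (by omega)

theorem Crit.notX (hc : Crit k C H) (hk : 4 ≤ k) {x z : V} (hx : k < dg H x)
    (hb : (big k H x).card ≤ k) (hz : z ∈ big k H x) : k < (big k H z).card := by
  by_contra hcon
  obtain ⟨y, hy⟩ := hc.ex_leaf hx hb
  have hz' := mem_big.1 hz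
  obtain ⟨m, hm⟩ := hc.min y x (mem_leaf.1 hy).1.symm
  obtain ⟨c1, c2, c3, c4, c5⟩ := hc.star_b hb hy hm
  have h1 := hc.star_c hb hy hz
  have h2 := dg_eq k H z
  obtain ⟨u, hu, huy⟩ := Finset.exists_mem_ne (s := leaf k H z) (by omega) y
  have hu' := mem_leaf.1 hu
  have hux : u ≠ x := by rintro rfl; omega
  have := hc.lemW hk hb hy hz hu'.1 hux huy
  omega

theorem crit_false (hc : Crit k C H) (hk : 4 ≤ k) (hd : Degen k H) : False := by
  classical
  -- an edge
  have hedge : ∃ a b, H.Adj a b := by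
    by_contra hcon
    push Not at hcon
    apply hc.nc
    refine ⟨fun _ v => v, fun _ _ => rfl, fun _ _ h => absurd rfl h, fun _ _ h => absurd rfl h,
      fun u v h => absurd h (hcon u v), fun _ _ _ _ h => absurd rfl h⟩
  obtain ⟨a, b, hab⟩ := hedge
  let S0 : Finset V := univ.filter fun v => k < dg H v
  have hS0 : ∀ v, v ∈ S0 ↔ k < dg H v := by intro v; simp [S0]
  have hne0 : S0.Nonempty := by
    by_cases h1 : k < dg H a
    · exact ⟨a, (hS0 a).2 h1⟩
    · by_cases h2 : k < dg H b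
      · exact ⟨b, (hS0 b).2 h2⟩
      · exact (hc.indep hab (by omega) (by omega)).elim
  have hbig : ∀ v, S0.filter (fun u => H.Adj v u) = big k H v := by
    intro v; ext u
    rw [mem_filter, hS0, mem_big]
    exact and_comm
  obtain ⟨x0, hx0, hx0c⟩ := hd S0 hne0
  have hx0c' : (big k H x0).card ≤ k := by
    rw [← hbig]; convert hx0c
  rw [hS0] at hx0
  obtain ⟨y0, hy0⟩ := hc.ex_leaf hx0 hx0c'
  obtain ⟨m0, hm0⟩ := hc.min y0 x0 (mem_leaf.1 hy0).1.symm
  obtain ⟨c1, _, _, c4, _⟩ := hc.star_b hx0c' hy0 hm0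
  obtain ⟨z0, hz0⟩ := Finset.card_pos.1 (show 0 < (big k H x0).card by omega)
  let S1 : Finset V := S0.filter fun v => k < (big k H v).card
  have hS1 : ∀ v, v ∈ S1 ↔ k < dg H v ∧ k < (big k H v).card := by
    intro v
    rw [mem_filter, hS0]
  have hne1 : S1.Nonempty := ⟨z0, (hS1 z0).2 ⟨(mem_big.1 hz0).2, hc.notX hk hx0 hx0c' hz0⟩⟩
  obtain ⟨z, hz, hzc⟩ := hd S1 hne1
  rw [hS1] at hz
  have hzc' : (S1.filter fun u => H.Adj z u).card ≤ k := by convert hzc
  -- a first neighbour of `z` in `X`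
  have hsplit : (big k H z) ⊆ ((big k H z).filter fun u => (big k H u).card ≤ k) ∪
      (S1.filter fun u => H.Adj z u) := by
    intro u hu
    have hu' := mem_big.1 hu
    rw [mem_union, mem_filter, mem_filter, hS1]
    by_cases h1 : (big k H u).card ≤ k
    · exact Or.inl ⟨hu, h1⟩
    · exact Or.inr ⟨⟨hu'.2, by omega⟩, hu'.1⟩
  have hcs := (Finset.card_le_card hsplit).trans (Finset.card_union_le _ _)
  obtain ⟨x1, hx1⟩ := Finset.card_pos.1 (show 0 < ((big k H z).filter
    fun u => (big k H u).card ≤ k).card by omega)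
  rw [mem_filter] at hx1
  have hx1' := mem_big.1 hx1.1
  have hzx1 : z ∈ big k H x1 := mem_big.2 ⟨hx1'.1.symm, hz.1⟩
  obtain ⟨y1, hy1⟩ := hc.ex_leaf hx1'.2 hx1.2
  have hdz := hc.star_c hx1.2 hy1 hzx1
  have hleafz : (leaf k H z).card ≤ 1 := by
    rw [Finset.card_le_one]
    have key : ∀ u ∈ leaf k H z, u = y1 := by
      intro u hu
      by_contra hne
      have hu' := mem_leaf.1 hu
      have hux : u ≠ x1 := by rintro rfl; omega
      have := hc.lemW hk hx1.2 hy1 hzx1 hu'.1 hux hne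
      omega
    intro u hu v hv
    rw [key u hu, key v hv]
  have hdgz := dg_eq k H z
  obtain ⟨x2, hx2, hx21⟩ := Finset.exists_mem_ne (s := (big k H z).filter
    fun u => (big k H u).card ≤ k) (by omega) x1
  rw [mem_filter] at hx2
  have hx2' := mem_big.1 hx2.1
  have hzx2 : z ∈ big k H x2 := mem_big.2 ⟨hx2'.1.symm, hz.1⟩
  obtain ⟨y2, hy2⟩ := hc.ex_leaf hx2'.2 hx2.2
  have hx2y1 : x2 ≠ y1 := by
    rintro rfl; have := (mem_leaf.1 hy1).2; omega
  have hx1y2 : x1 ≠ y2 := by
    rintro rfl; have := (mem_leaf.1 hy2).2; omega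
  have hd2 := hc.lemW hk hx1.2 hy1 hzx1 hx2'.1 hx21 hx2y1
  have hd1 := hc.lemW hk hx2.2 hy2 hzx2 hx1'.1 hx21.symm hx1y2
  obtain ⟨m1, hm1⟩ := hc.min y1 x1 (mem_leaf.1 hy1).1.symm
  obtain ⟨_, _, _, e1, _⟩ := hc.star_b hx1.2 hy1 hm1
  obtain ⟨m2, hm2⟩ := hc.min y2 x2 (mem_leaf.1 hy2).1.symm
  obtain ⟨_, _, _, e2, _⟩ := hc.star_b hx2.2 hy2 hm2
  have f1 := dg_eq k H x1
  have f2 := dg_eq k H x2
  have hl1 : (leaf k H x1).card = k - 1 := by omega
  have hl2 : (leaf k H x2).card = k - 1 := by omega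
  have hloc : Loc k C H x1 y1 := ⟨hc, hk, hx1.2, hl1, hy1⟩
  -- the leaves of `x2` are leaves of `x1`
  have hsub : leaf k H x2 ⊆ leaf k H x1 := by
    intro v hv
    have hv' := mem_leaf.1 hv
    rw [mem_leaf]
    refine ⟨?_, hv'.2⟩
    by_contra hcon
    refine nonshared (⟨hloc, hzx1, hx2'.1, hx21, hx2'.2, hv'.1, ?_, hv'.2⟩ :
      Path k C H x1 y1 z x2 v) hcon
    rintro rfl
    exact hcon (mem_leaf.1 hy1).1
  have heq := Finset.eq_of_subset_of_card_le hsub (by omega)
  refine shared hloc hzx1 hx2'.1 hx21 hx2'.2 ?_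
  intro u hu
  rw [← heq] at hu
  exact (mem_leaf.1 hu).1

theorem degen_mono {H H' : SimpleGraph V} (h : H' ≤ H) (hd : Degen k H) : Degen k H' := by
  classical
  intro S hS
  obtain ⟨v, hv, hc⟩ := hd S hS
  refine ⟨v, hv, (Finset.card_le_card ?_).trans hc⟩
  intro u hu
  simp only [mem_filter] at hu ⊢
  exact ⟨hu.1, h hu.2⟩

theorem dg_mono {H H' : SimpleGraph V} (h : H' ≤ H) (v : V) : dg H' v ≤ dg H v := by
  apply Finset.card_le_card
  intro u hu
  rw [mem_nb] at hu ⊢
  exact h hu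

/-- The colouring theorem. -/
theorem colourable (hk : 4 ≤ k) (hC : 2 * k ≤ Fintype.card C + 1) (H : SimpleGraph V)
    (hd : Degen k H) (hdeg : ∀ v, dg H v ≤ Fintype.card C) : ∃ m : C → V → V, Col H [] m := by
  classical
  induction H using WellFoundedLT.induction with
  | _ H ih =>
    by_contra hnc
    refine crit_false (C := C) ⟨hC, hnc, ?_, hdeg⟩ hk hd
    intro y x hyx
    have hle : H.deleteEdges {s(y, x)} ≤ H := SimpleGraph.deleteEdges_le _
    have hlt : H.deleteEdges {s(y, x)} < H := by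
      refine lt_of_le_of_ne hle ?_
      intro h
      have : (H.deleteEdges {s(y, x)}).Adj y x := by rw [h]; exact hyx
      rw [SimpleGraph.deleteEdges_adj] at this
      exact this.2 rfl
    obtain ⟨m, hm⟩ := ih _ hlt (degen_mono hle hd) (fun v => (dg_mono hle v).trans (hdeg v))
    refine ⟨m, hm.inv, ?_, ?_, ?_, hm.uniq⟩
    · intro c v h
      exact hle (hm.adj c v h)
    · intro c v h
      have := hm.adj c v h
      rw [SimpleGraph.deleteEdges_adj] at this
      simpa using this.2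
    · intro u v huv h
      apply hm.cov u v _ (by simp)
      rw [SimpleGraph.deleteEdges_adj]
      exact ⟨huv, by simpa using h⟩

end Pool.Agent.Vizing
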