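import Pool.Agent.Vizing.Bridge

/-!
# Overfull graphs are of class two; explicit graphs for `k = 4, 5`
-/

set_option autoImplicit false

namespace Pool.Agent.Vizing

open Finset

/-- A graph on `V` whose edges can be coloured with `n` colours has at most `n * (|V| / 2)`
edges. -/
theorem card_edges_le {V : Type} [Fintype V] (G : SimpleGraph V) [DecidableRel G.Adj]
    {n : ℕ} (h : G.lineGraph.Colorable n) : ∑ v, G.degree v ≤ n * (2 * (Fintype.card V / 2)) := by
  classical
  rw [SimpleGraph.sum_degrees_eq_twice_card_edges]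
  obtain ⟨f⟩ := h
  have key : ∀ c : Fin n, 2 * ((univ : Finset G.edgeSet).filter fun e => f e = c).card ≤
      Fintype.card V := by
    intro c
    have hdis : ∀ e ∈ ((univ : Finset G.edgeSet).filter fun e => f e = c),
        ∀ e' ∈ ((univ : Finset G.edgeSet).filter fun e => f e = c), e ≠ e' →
        Disjoint (e : Sym2 V).toFinset (e' : Sym2 V).toFinset := by
      intro e he e' he' hne
      rw [Finset.disjoint_left]
      intro v hv hv'
      rw [Sym2.mem_toFinset] at hv hv'
      simp only [mem_filter, mem_univ, true_and] at he he'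
      have hadj : G.lineGraph.Adj e e' := by
        rw [SimpleGraph.lineGraph_adj_iff_exists]
        exact ⟨hne, v, hv, hv'⟩
      exact f.valid hadj (he.trans he'.symm)
    have h1 := Finset.card_biUnion hdis
    have h2 : ∀ e ∈ ((univ : Finset G.edgeSet).filter fun e => f e = c),
        (e : Sym2 V).toFinset.card = 2 := by
      intro e _
      exact Sym2.card_toFinset_of_not_isDiag _ (G.not_isDiag_of_mem_edgeSet e.2)
    rw [Finset.sum_congr rfl h2, Finset.sum_const, smul_eq_mul] at h1
    rw [mul_comm, ← h1]
    exact Finset.card_le_univ _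
  have h1 : (univ : Finset G.edgeSet).card =
      ∑ c : Fin n, ((univ : Finset G.edgeSet).filter fun e => f e = c).card :=
    Finset.card_eq_sum_card_fiberwise (fun _ _ => mem_univ _)
  have h2 : G.edgeFinset.card = (univ : Finset G.edgeSet).card := by
    rw [SimpleGraph.edgeFinset_card, Finset.card_univ]
  have h3 : ∑ c : Fin n, ((univ : Finset G.edgeSet).filter fun e => f e = c).card ≤
      ∑ _c : Fin n, Fintype.card V / 2 := by
    apply Finset.sum_le_sum
    intro c _
    have := key c
    omega
  rw [Finset.sum_const, Finset.card_univ, Fintype.card_fin, smul_eq_mul] at h3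
  calc 2 * G.edgeFinset.card ≤ 2 * (n * (Fintype.card V / 2)) := by omega
    _ = n * (2 * (Fintype.card V / 2)) := by ring

/-- An overfull graph shows a lower bound for `s(k)`. -/
theorem lt_vizingS {k D : ℕ} (hk : 4 ≤ k) {V : Type} [Fintype V] (G : SimpleGraph V)
    [DecidableRel G.Adj] (f : V → ℕ) (hf : Function.Injective f)
    (hdeg : ∀ v, {u : V | G.Adj v u ∧ f u < f v}.ncard ≤ k) (hD : G.maxDegree = D)
    (hover : D * (2 * (Fintype.card V / 2)) < ∑ v, G.degree v) : D < vizingS k := by
  have hcol : colNumber G ≤ k + 1 :=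
    Nat.sInf_le ⟨by omega, f, hf, fun v => Nat.lt_succ_of_le (hdeg v)⟩
  have hne : {s : ℕ | 0 < s ∧ ∀ (V : Type) [Fintype V] (G : SimpleGraph V) [DecidableRel G.Adj],
      colNumber G ≤ k + 1 → s ≤ G.maxDegree → ClassOne G}.Nonempty :=
    ⟨2 * k - 1, by omega, fun V _ G _ h1 h2 => classOne_of_col hk V G h1 h2⟩
  have hmem := Nat.sInf_mem hne
  by_contra hcon
  have h1 : ClassOne G := hmem.2 V G hcol (by
    rw [hD]
    exact not_lt.1 hcon)
  have h2 := card_edges_le G (colorable_of_classOne G h1)
  rw [hD] at h2
  omega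

/-- A graph given by the bit masks of the neighbourhoods. -/
def maskGraph (n : ℕ) (M : List ℕ)
    (hs : ∀ u v : Fin n, (M.getD u 0).testBit v = (M.getD v 0).testBit u)
    (hl : ∀ u : Fin n, (M.getD u 0).testBit u = false) : SimpleGraph (Fin n) where
  Adj u v := (M.getD u 0).testBit v = true
  symm := ⟨by
    intro u v h
    rw [hs] at h
    exact h⟩
  loopless := ⟨by
    intro u h
    rw [hl u] at h
    exact Bool.noConfusion h⟩

instance {n : ℕ} {M : List ℕ}
    {hs : ∀ u v : Fin n, (M.getD u 0).testBit v = (M.getD v 0).testBit u}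
    {hl : ∀ u : Fin n, (M.getD u 0).testBit u = false} : DecidableRel (maskGraph n M hs hl).Adj :=
  fun u v => inferInstanceAs (Decidable ((M.getD u 0).testBit v = true))

end Pool.Agent.Vizing
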