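import Pool.Agent.Vizing.Star

/-!
# Second neighbours have full degree
-/

set_option autoImplicit false
set_option linter.unusedSectionVars false

namespace Pool.Agent.Vizing

open Finset

variable {V C : Type} [Fintype V] [Fintype C] {H : SimpleGraph V} {m : C → V → V} {k : ℕ}

/-- At a leaf at least two colours of `K ∪ {al}` are missing. -/
theorem Crit.leaf_two (hc : Crit k C H) {y x A : V} (hb : (big k H x).card ≤ k)
    (hy : y ∈ leaf k H x) (hm : Col H [s(y, x)] m) (hA : dg H A ≤ k) {de al : C}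
    (hde : m de x = A) (hAx : A ≠ x) (hAy : A ≠ y) (hal : m al x = x) (f : C) :
    ∃ a, a ≠ f ∧ m a A = A ∧ (a = al ∨ m a y = y) := by
  classical
  have hy' := hy
  rw [mem_leaf] at hy'
  have hyx : H.Adj y x := hy'.1.symm
  obtain ⟨h2k, hKc, hdy, hbk, hsurj⟩ := hc.star_b hb hy hm
  have h1 := card_miss hm hAx hAy
  have h2 : al ∉ miss m y := by
    rw [mem_miss]; intro h; exact no_common hc.nc hm hyx h hal
  have h3 : de ∉ insert al (miss m y) := by
    rw [mem_insert, mem_miss, not_or]
    refine ⟨?_, hc.star_leaf hy hm hA hde⟩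
    rintro rfl
    exact hAx (hde.symm.trans hal)
  have h4 : de ∉ miss m A := by
    rw [mem_miss, hm.back hde]; exact hAx.symm
  have h5 := Finset.card_union_add_card_inter (miss m A) (insert de (insert al (miss m y)))
  have h6 : (miss m A ∪ insert de (insert al (miss m y))).card ≤ Fintype.card C :=
    Finset.card_le_univ _
  rw [Finset.card_insert_of_notMem h3, Finset.card_insert_of_notMem h2] at h5
  have h7 : miss m A ∩ insert de (insert al (miss m y)) = miss m A ∩ insert al (miss m y) := by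
    ext c
    simp only [mem_inter, mem_insert]
    constructor
    · rintro ⟨h8, rfl | h9⟩
      · exact absurd h8 h4
      · exact ⟨h8, h9⟩
    · rintro ⟨h8, h9⟩
      exact ⟨h8, Or.inr h9⟩
  rw [h7] at h5
  obtain ⟨a, ha, haf⟩ := Finset.exists_mem_ne (s := miss m A ∩ insert al (miss m y))
    (by omega) f
  rw [mem_inter, mem_insert, mem_miss, mem_miss] at ha
  exact ⟨a, haf, ha.1, ha.2⟩

/-- The colours which are present at `x` and at `y` are those of the edges to the other leaves. -/
theorem Crit.colD (hc : Crit k C H) {y x : V} (hb : (big k H x).card ≤ k)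
    (hy : y ∈ leaf k H x) (hm : Col H [s(y, x)] m) {c : C} (h1 : m c x ≠ x) (h2 : m c y ≠ y) :
    m c x ∈ leaf k H x := by
  obtain ⟨h2k, hKc, hdy, hbk, hsurj⟩ := hc.star_b hb hy hm
  have hadj := hm.adj c x h1
  rw [mem_leaf]
  refine ⟨hadj, ?_⟩
  by_contra hlt
  obtain ⟨ka, h3, h4⟩ := hsurj _ (mem_big.2 ⟨hadj, by omega⟩)
  have := hm.uniq ka c x h4 (by rw [h4]; exact h1)
  rw [this] at h3
  exact h2 h3

theorem nodup5 {a b c d e : V} (h1 : a ≠ b) (h2 : a ≠ c) (h3 : a ≠ d) (h3' : a ≠ e) (h4 : b ≠ c)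
    (h5 : b ≠ d) (h5' : b ≠ e) (h6 : c ≠ d) (h6' : c ≠ e) (h7 : d ≠ e) : [a, b, c, d, e].Nodup := by
  simp [h1, h2, h3, h3', h4, h5, h5', h6, h6', h7]

theorem nodup6 {a b c d e f : V} (h1 : a ≠ b) (h2 : a ≠ c) (h3 : a ≠ d) (h3' : a ≠ e)
    (h3'' : a ≠ f) (h4 : b ≠ c) (h5 : b ≠ d) (h5' : b ≠ e) (h5'' : b ≠ f) (h6 : c ≠ d)
    (h6' : c ≠ e) (h6'' : c ≠ f) (h7 : d ≠ e) (h7' : d ≠ f) (h8 : e ≠ f) :
    [a, b, c, d, e, f].Nodup := by
  simp [h1, h2, h3, h3', h3'', h4, h5, h5', h5'', h6, h6', h6'', h7, h7', h8]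

/-- A neighbour `w` of a big neighbour `z` of `x` has full degree. -/
theorem Crit.lemW (hc : Crit k C H) (hk : 4 ≤ k) {y x z w : V} (hb : (big k H x).card ≤ k)
    (hy : y ∈ leaf k H x) (hz : z ∈ big k H x) (hzw : H.Adj z w) (hwx : w ≠ x) (hwy : w ≠ y) :
    dg H w = Fintype.card C := by
  classical
  have hy' := hy
  rw [mem_leaf] at hy'
  have hyx : H.Adj y x := hy'.1.symm
  have hz' := hz
  rw [mem_big] at hz'
  obtain ⟨m, hm⟩ := hc.min y x hyx
  obtain ⟨h2k, hKc, hdy, hbk, hsurj⟩ := hc.star_b hb hy hm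
  obtain ⟨be, hbey, hbex⟩ := hsurj z hz
  have hzy : z ≠ y := by rintro rfl; omega
  have hzx : z ≠ x := hz'.1.ne'
  by_contra hne
  have hlt : dg H w < Fintype.card C := lt_of_le_of_ne (hc.deg w) hne
  have hcw := card_miss hm hwx hwy
  obtain ⟨c, hcc⟩ := Finset.card_pos.1 (show 0 < (miss m w).card by omega)
  rw [mem_miss] at hcc
  have hB := card_miss_x hm hyx
  have hBpos : 0 < (miss m x).card := by have := hc.deg x; omega
  obtain ⟨et, het⟩ := hm.ex hzw (by
    rw [Ne, Sym2.eq_iff]
    rintro (⟨h, _⟩ | ⟨h, _⟩)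
    · exact hzy h
    · exact hzx h)
  have hetw : m et w = z := hm.back het
  have hec : et ≠ c := ne_of_miss hzw.ne' hetw hcc
  -- facts on leaves
  have leafne : ∀ A : V, A ∈ leaf k H x → A ≠ x ∧ A ≠ z := by
    intro A hA
    rw [mem_leaf] at hA
    refine ⟨hA.1.ne', ?_⟩
    rintro rfl
    omega
  obtain ⟨al0, hal0⟩ := Finset.card_pos.1 hBpos
  rw [mem_miss] at hal0
  by_cases hcD : m c x ≠ x ∧ m c y ≠ y
  · have hBl := hc.colD hb hy hm hcD.1 hcD.2
    have hBne := leafne _ hBl
    have hBy : m c x ≠ y := hm.unc hyx.ne c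
    have hBw : m c x ≠ w := by
      intro h
      have := hm.back h
      rw [hcc] at this
      exact hwx this
    rw [mem_leaf] at hBl
    by_cases heD : m et x ≠ x ∧ m et y ≠ y
    · -- W2
      have hAl := hc.colD hb hy hm heD.1 heD.2
      have hAne := leafne _ hAl
      have hAy : m et x ≠ y := hm.unc hyx.ne et
      have hAw : m et x ≠ w := by
        intro h
        have := hm.back h
        rw [hetw] at this
        exact hzx this
      rw [mem_leaf] at hAl
      obtain ⟨a, _, ha2, ha3⟩ := hc.leaf_two hb hy hm hAl.2 rfl hAne.1 hAy hal0 c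
      obtain ⟨b, hb1, hb2, hb3⟩ := hc.leaf_two hb hy hm hBl.2 rfl hBne.1 hBy hal0 a
      have hAB : m et x ≠ m c x := by
        intro h
        exact hec (hm.uniq et c x h heD.1)
      refine conf_W2 hc.nc (nodup6 hyx.ne hzy.symm hwy.symm hAy.symm hBy.symm hzx.symm hwx.symm
        hAne.1.symm hBne.1.symm hzw.ne hAne.2.symm hBne.2.symm hAw.symm hBw.symm hAB)
        hm hyx hal0 rfl rfl hbex hbey het hcc ha2 hb2 hb1.symm ha3 hb3 ?_ ?_
      · rintro rfl
        rcases ha3 with rfl | h
        · exact hcD.1 hal0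
        · exact hcD.2 h
      · rintro rfl
        rcases hb3 with rfl | h
        · exact heD.1 hal0
        · exact heD.2 h
    · -- W1 with de = c
      have : ∃ al, m al x = x ∧ (et = al ∨ m et y = y) := by
        by_cases h : m et x = x
        · exact ⟨et, h, Or.inl rfl⟩
        · refine ⟨al0, hal0, Or.inr ?_⟩
          by_contra h'
          exact heD ⟨h, h'⟩
      obtain ⟨al, hal, hetal⟩ := this
      obtain ⟨a1, _, ha12, ha13⟩ := hc.leaf_two hb hy hm hBl.2 rfl hBne.1 hBy hal c
      obtain ⟨a2, ha21, ha22, ha23⟩ := hc.leaf_two hb hy hm hBl.2 rfl hBne.1 hBy hal a1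
      refine conf_W1 hc.nc (nodup5 hyx.ne hzy.symm hwy.symm hBy.symm hzx.symm hwx.symm
        hBne.1.symm hzw.ne hBne.2.symm hBw.symm) hm hyx hal rfl hbex hbey het hcc ha12 ha22
        ha21.symm ?_ (Or.inr (Or.inl rfl)) ha13 ha23
      rcases hetal with h | h
      · exact Or.inl h
      · exact Or.inr (Or.inr h)
  · by_cases heD : m et x ≠ x ∧ m et y ≠ y
    · have hAl := hc.colD hb hy hm heD.1 heD.2
      have hAne := leafne _ hAl
      have hAy : m et x ≠ y := hm.unc hyx.ne et
      have hAw : m et x ≠ w := by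
        intro h
        have := hm.back h
        rw [hetw] at this
        exact hzx this
      rw [mem_leaf] at hAl
      have : ∃ al, m al x = x ∧ (c = al ∨ m c y = y) := by
        by_cases h : m c x = x
        · exact ⟨c, h, Or.inl rfl⟩
        · refine ⟨al0, hal0, Or.inr ?_⟩
          by_contra h'
          exact hcD ⟨h, h'⟩
      obtain ⟨al, hal, hcal⟩ := this
      obtain ⟨a1, _, ha12, ha13⟩ := hc.leaf_two hb hy hm hAl.2 rfl hAne.1 hAy hal c
      obtain ⟨a2, ha21, ha22, ha23⟩ := hc.leaf_two hb hy hm hAl.2 rfl hAne.1 hAy hal a1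
      refine conf_W1 hc.nc (nodup5 hyx.ne hzy.symm hwy.symm hAy.symm hzx.symm hwx.symm
        hAne.1.symm hzw.ne hAne.2.symm hAw.symm) hm hyx hal rfl hbex hbey het hcc ha12 ha22
        ha21.symm (Or.inr (Or.inl rfl)) ?_ ha13 ha23
      rcases hcal with h | h
      · exact Or.inl h
      · exact Or.inr (Or.inr h)
    · -- both outside D
      have hcO : m c x = x ∨ m c y = y := by
        by_contra h; push Not at h; exact hcD h
      have heO : m et x = x ∨ m et y = y := by
        by_contra h; push Not at h; exact heD h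
      by_cases hb2 : 1 < (miss m x).card
      · -- two missing colours at x
        have : ∃ al al2, m al x = x ∧ m al2 x = x ∧ al ≠ al2 ∧ (et = al ∨ et = al2 ∨ m et y = y) ∧
            (c = al ∨ c = al2 ∨ m c y = y) := by
          by_cases h1 : m et x = x
          · by_cases h2 : m c x = x
            · exact ⟨et, c, h1, h2, hec, Or.inl rfl, Or.inr (Or.inl rfl)⟩
            · obtain ⟨b, hb, hbe⟩ := Finset.exists_mem_ne hb2 et
              rw [mem_miss] at hb
              exact ⟨et, b, h1, hb, hbe.symm, Or.inl rfl, Or.inr (Or.inr (hcO.resolve_left h2))⟩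
          · by_cases h2 : m c x = x
            · obtain ⟨b, hb, hbe⟩ := Finset.exists_mem_ne hb2 c
              rw [mem_miss] at hb
              exact ⟨c, b, h2, hb, hbe.symm, Or.inr (Or.inr (heO.resolve_left h1)), Or.inl rfl⟩
            · obtain ⟨b, hb, hbe⟩ := Finset.exists_mem_ne hb2 al0
              rw [mem_miss] at hb
              exact ⟨al0, b, hal0, hb, hbe.symm, Or.inr (Or.inr (heO.resolve_left h1)),
                Or.inr (Or.inr (hcO.resolve_left h2))⟩
        obtain ⟨al, al2, h1, h2, h3, h4, h5⟩ := this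
        exact conf_W0 hc.nc (nodup4 hyx.ne hzy.symm hwy.symm hzx.symm hwx.symm hzw.ne) hm hyx
          h1 h2 h3 hbex hbey het hcc h4 h5
      · -- one missing colour at x: there is another leaf
        have hB1 : (miss m x).card = 1 := by omega
        have huniq : ∀ b, m b x = x → b = al0 := by
          intro b hb
          exact Finset.card_le_one.1 (by omega) b (mem_miss.2 hb) al0 (mem_miss.2 hal0)
        have hcard := dg_eq k H x
        have hleafc : (leaf k H x).card = k - 1 := by omega
        have : ∃ A ∈ leaf k H x, A ≠ y ∧ A ≠ w := by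
          have h1 : 0 < (((leaf k H x).erase y).erase w).card := by
            have := Finset.pred_card_le_card_erase (s := leaf k H x) (a := y)
            have := Finset.pred_card_le_card_erase (s := (leaf k H x).erase y) (a := w)
            omega
          obtain ⟨A, hA⟩ := Finset.card_pos.1 h1
          simp only [mem_erase] at hA
          exact ⟨A, hA.2.2, hA.2.1, hA.1⟩
        obtain ⟨A, hAl, hAy, hAw⟩ := this
        have hAne := leafne _ hAl
        rw [mem_leaf] at hAl
        obtain ⟨de, hde⟩ := hm.ex hAl.1 (by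
          rw [Ne, Sym2.eq_iff]
          rintro (⟨h, _⟩ | ⟨_, h⟩)
          · exact hyx.ne h.symm
          · exact hAy h)
        obtain ⟨a1, _, ha12, ha13⟩ := hc.leaf_two hb hy hm hAl.2 hde hAne.1 hAy hal0 c
        obtain ⟨a2, ha21, ha22, ha23⟩ := hc.leaf_two hb hy hm hAl.2 hde hAne.1 hAy hal0 a1
        refine conf_W1 hc.nc (nodup5 hyx.ne hzy.symm hwy.symm hAy.symm hzx.symm hwx.symm
          hAne.1.symm hzw.ne hAne.2.symm hAw.symm) hm hyx hal0 hde hbex hbey het hcc ha12 ha22
          ha21.symm ?_ ?_ ha13 ha23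
        · rcases heO with h | h
          · exact Or.inl (huniq _ h)
          · exact Or.inr (Or.inr h)
        · rcases hcO with h | h
          · exact Or.inl (huniq _ h)
          · exact Or.inr (Or.inr h)

end Pool.Agent.Vizing
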