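import Pool.Agent.Vizing.Count

/-!
# The neighbourhood of a vertex with few large neighbours
-/

set_option autoImplicit false
set_option linter.unusedSectionVars false

namespace Pool.Agent.Vizing

open Finset

variable {V C : Type} [Fintype V] [Fintype C] {H : SimpleGraph V} {m : C → V → V} {k : ℕ}

/-- Edge-critical graphs. -/
structure Crit (k : ℕ) (C : Type) [Fintype C] (H : SimpleGraph V) : Prop where
  hC : 2 * k ≤ Fintype.card C + 1
  nc : ¬ ∃ m : C → V → V, Col H [] m
  min : ∀ y x, H.Adj y x → ∃ m : C → V → V, Col H [s(y, x)] m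
  deg : ∀ v, dg H v ≤ Fintype.card C

open Classical in
/-- The neighbours of degree greater than `k`. -/
noncomputable def big (k : ℕ) (H : SimpleGraph V) (x : V) : Finset V :=
  univ.filter fun u => H.Adj x u ∧ k < dg H u

open Classical in
/-- The neighbours of degree at most `k`. -/
noncomputable def leaf (k : ℕ) (H : SimpleGraph V) (x : V) : Finset V :=
  univ.filter fun u => H.Adj x u ∧ dg H u ≤ k

theorem mem_big {x u : V} : u ∈ big k H x ↔ H.Adj x u ∧ k < dg H u := by simp [big]

theorem mem_leaf {x u : V} : u ∈ leaf k H x ↔ H.Adj x u ∧ dg H u ≤ k := by simp [leaf]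

theorem dg_eq (k : ℕ) (H : SimpleGraph V) (x : V) :
    dg H x = (big k H x).card + (leaf k H x).card := by
  classical
  rw [dg, ← Finset.card_union_of_disjoint]
  · congr 1
    ext u
    simp only [mem_nb, mem_union, mem_big, mem_leaf]
    constructor
    · intro h
      rcases Nat.lt_or_ge k (dg H u) with h' | h'
      · exact Or.inl ⟨h, h'⟩
      · exact Or.inr ⟨h, h'⟩
    · rintro (h | h)
      · exact h.1
      · exact h.1
  · rw [Finset.disjoint_left]
    intro u h1 h2
    rw [mem_big] at h1
    rw [mem_leaf] at h2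
    omega

theorem nodup3 {a b c : V} (h1 : a ≠ b) (h2 : a ≠ c) (h3 : b ≠ c) : [a, b, c].Nodup := by
  simp [h1, h2, h3]

theorem nodup4 {a b c d : V} (h1 : a ≠ b) (h2 : a ≠ c) (h3 : a ≠ d) (h4 : b ≠ c) (h5 : b ≠ d)
    (h6 : c ≠ d) : [a, b, c, d].Nodup := by
  simp [h1, h2, h3, h4, h5, h6]

/-- Vertices of small degree are independent. -/
theorem Crit.indep (hc : Crit k C H) {x y : V} (hxy : H.Adj x y) (hx : dg H x ≤ k)
    (hy : dg H y ≤ k) : False := by
  classical
  obtain ⟨m, hm⟩ := hc.min y x hxy.symm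
  have h1 := card_miss_y hm hxy.symm
  have h2 := card_miss_x hm hxy.symm
  have h3 := hc.hC
  have h4 : ((miss m y) ∩ (miss m x)).Nonempty := by
    rw [← Finset.card_pos]
    have h5 := Finset.card_union_add_card_inter (miss m y) (miss m x)
    have h6 : (miss m y ∪ miss m x).card ≤ Fintype.card C := Finset.card_le_univ _
    omega
  obtain ⟨c, hcc⟩ := h4
  rw [mem_inter, mem_miss, mem_miss] at hcc
  exact no_common hc.nc hm hxy.symm hcc.1 hcc.2

/-- A colour missing at the leaf `y` goes from `x` to a big neighbour. -/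
theorem Crit.star_a (hc : Crit k C H) {y x : V} (hy : y ∈ leaf k H x) (hm : Col H [s(y, x)] m)
    {ka : C} (hka : m ka y = y) : m ka x ∈ big k H x := by
  classical
  rw [mem_leaf] at hy
  have hyx : H.Adj y x := hy.1.symm
  have hx : m ka x ≠ x := fun h => no_common hc.nc hm hyx hka h
  have hadj := hm.adj ka x hx
  rw [mem_big]
  refine ⟨hadj, ?_⟩
  by_contra hlt
  have hyu : y ≠ m ka x := (hm.unc hyx.ne ka).symm
  have hnd := nodup3 hyx.ne hyu hx.symm
  -- the three sets are disjoint
  have hB := card_miss_x hm hyx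
  have hBpos : 0 < (miss m x).card := by have := hc.deg x; omega
  obtain ⟨al0, hal0⟩ := Finset.card_pos.1 hBpos
  rw [mem_miss] at hal0
  have hd1 : Disjoint (miss m (m ka x)) (miss m y) := by
    rw [Finset.disjoint_left]
    intro c h1 h2
    rw [mem_miss] at h1 h2
    exact conf_S2 hc.nc hnd hm hyx hal0 rfl hka h1 (Or.inr h2)
  have hd2 : Disjoint (miss m (m ka x)) (miss m x) := by
    rw [Finset.disjoint_left]
    intro c h1 h2
    rw [mem_miss] at h1 h2
    exact conf_S2 hc.nc hnd hm hyx h2 rfl hka h1 (Or.inl rfl)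
  have hd3 : Disjoint (miss m y) (miss m x) := by
    rw [Finset.disjoint_left]
    intro c h1 h2
    rw [mem_miss] at h1 h2
    exact no_common hc.nc hm hyx h1 h2
  have hcard : (miss m (m ka x)).card + ((miss m y).card + (miss m x).card) ≤ Fintype.card C := by
    rw [← Finset.card_union_of_disjoint hd3, ← Finset.card_union_of_disjoint
      (Finset.disjoint_union_right.2 ⟨hd1, hd2⟩)]
    exact Finset.card_le_univ _
  have h1 := card_miss_y hm hyx
  have h2 := card_miss hm hx hyu.symm
  have h3 := hc.hC
  omega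

/-- Counting the colours at the leaf. -/
theorem Crit.star_b (hc : Crit k C H) {y x : V} (hb : (big k H x).card ≤ k)
    (hy : y ∈ leaf k H x) (hm : Col H [s(y, x)] m) :
    Fintype.card C + 1 = 2 * k ∧ (miss m y).card = k ∧ dg H y = k ∧ (big k H x).card = k ∧
      ∀ w ∈ big k H x, ∃ ka, m ka y = y ∧ m ka x = w := by
  classical
  have hy' := hy
  rw [mem_leaf] at hy'
  have hyx : H.Adj y x := hy'.1.symm
  have hsub : (miss m y).image (fun c => m c x) ⊆ big k H x := by
    intro w hw
    rw [mem_image] at hw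
    obtain ⟨c, h1, rfl⟩ := hw
    exact hc.star_a hy hm (mem_miss.1 h1)
  have hinj : Set.InjOn (fun c => m c x) (miss m y : Finset C) := by
    intro c h1 d h2 h
    rw [Finset.mem_coe, mem_miss] at h1 h2
    exact hm.uniq c d x h (fun h' => no_common hc.nc hm hyx h1 h')
  have hcard := Finset.card_image_of_injOn hinj
  have hle := Finset.card_le_card hsub
  have h1 := card_miss_y hm hyx
  have h3 := hc.hC
  have hb2 : (big k H x).card = k := by omega
  have hk : (miss m y).card = k := by omega
  refine ⟨by omega, hk, by omega, hb2, ?_⟩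
  have heq : (miss m y).image (fun c => m c x) = big k H x :=
    Finset.eq_of_subset_of_card_le hsub (by omega)
  intro w hw
  rw [← heq, mem_image] at hw
  obtain ⟨c, h4, h5⟩ := hw
  exact ⟨c, mem_miss.1 h4, h5⟩

/-- The colours of the edges to leaves are present at `y` and at `x`. -/
theorem Crit.star_leaf (hc : Crit k C H) {y x A : V} (hy : y ∈ leaf k H x)
    (hm : Col H [s(y, x)] m) (hA : dg H A ≤ k) {de : C} (hde : m de x = A) : m de y ≠ y := by
  intro h
  have := hc.star_a hy hm h
  rw [mem_big, hde] at this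
  omega

/-- Big neighbours have full degree. -/
theorem Crit.star_c (hc : Crit k C H) {y x w : V} (hb : (big k H x).card ≤ k)
    (hy : y ∈ leaf k H x) (hw : w ∈ big k H x) : dg H w = Fintype.card C := by
  classical
  have hy' := hy
  rw [mem_leaf] at hy'
  have hyx : H.Adj y x := hy'.1.symm
  obtain ⟨m, hm⟩ := hc.min y x hyx
  obtain ⟨h2k, hKc, hdy, hbk, hsurj⟩ := hc.star_b hb hy hm
  obtain ⟨ka, hka, hkx⟩ := hsurj w hw
  have hw' := hw
  rw [mem_big] at hw'
  by_contra hne
  have hlt : dg H w < Fintype.card C := lt_of_le_of_ne (hc.deg w) hne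
  have hwx : w ≠ x := hw'.1.ne'
  have hwy : w ≠ y := by rintro rfl; omega
  have hcw := card_miss hm hwx hwy
  have hpos : 0 < (miss m w).card := by omega
  obtain ⟨de, hde⟩ := Finset.card_pos.1 hpos
  rw [mem_miss] at hde
  have hB := card_miss_x hm hyx
  have hBpos : 0 < (miss m x).card := by have := hc.deg x; omega
  obtain ⟨al0, hal0⟩ := Finset.card_pos.1 hBpos
  rw [mem_miss] at hal0
  have hnd := nodup3 hyx.ne hwy.symm hwx.symm
  have hdey : m de y ≠ y := fun h =>
    conf_S2 hc.nc hnd hm hyx hal0 hkx hka hde (Or.inr h)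
  have hdex : m de x ≠ x := fun h =>
    conf_S2 hc.nc hnd hm hyx h hkx hka hde (Or.inl rfl)
  have hadjA := hm.adj de x hdex
  have hyA : y ≠ m de x := (hm.unc hyx.ne de).symm
  have hwA : w ≠ m de x := by
    intro h
    have h1 := hm.back h.symm
    rw [hde] at h1
    exact hwx h1
  -- the other end is a leaf
  have hA : dg H (m de x) ≤ k := by
    by_contra hbig
    have hmem : m de x ∈ big k H x := mem_big.2 ⟨hadjA, by omega⟩
    obtain ⟨k2, h1, h2⟩ := hsurj _ hmem
    have := hm.uniq k2 de x h2 (by rw [h2]; exact hdex)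
    rw [this] at h1
    exact hdey h1
  have hnd4 := nodup4 hyx.ne hwy.symm hyA hwx.symm hdex.symm hwA
  have hd1 : Disjoint (miss m (m de x)) (miss m y) := by
    rw [Finset.disjoint_left]
    intro c h1 h2
    rw [mem_miss] at h1 h2
    exact conf_S3 hc.nc hnd4 hm hyx hal0 hkx hka rfl hde h1 (Or.inr h2)
  have hd2 : Disjoint (miss m (m de x)) (miss m x) := by
    rw [Finset.disjoint_left]
    intro c h1 h2
    rw [mem_miss] at h1 h2
    exact conf_S3 hc.nc hnd4 hm hyx h2 hkx hka rfl hde h1 (Or.inl rfl)
  have hd3 : Disjoint (miss m y) (miss m x) := by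
    rw [Finset.disjoint_left]
    intro c h1 h2
    rw [mem_miss] at h1 h2
    exact no_common hc.nc hm hyx h1 h2
  have hdeA : m de (m de x) ≠ m de x := by
    rw [hm.inv]; exact hdex.symm
  have hd4 : de ∉ miss m (m de x) ∪ (miss m y ∪ miss m x) := by
    simp only [mem_union, mem_miss, not_or]
    exact ⟨hdeA, hdey, hdex⟩
  have hcard : (insert de (miss m (m de x) ∪ (miss m y ∪ miss m x))).card ≤ Fintype.card C :=
    Finset.card_le_univ _
  rw [Finset.card_insert_of_notMem hd4, Finset.card_union_of_disjoint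
      (Finset.disjoint_union_right.2 ⟨hd1, hd2⟩), Finset.card_union_of_disjoint hd3] at hcard
  have h2 := card_miss hm hdex hyA.symm
  omega

end Pool.Agent.Vizing
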