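import Pool.Agent.Vizing.Engine

/-!
# Certificates

A table of winning states, each with its winning move, and a decision tree covering all the ways
in which the named colours of a configuration can coincide.
-/

set_option autoImplicit false

namespace Pool.Agent.Vizing

/-- A certificate entry: state, colours for extending it, winning move. -/
structure Ent where
  s : List ℕ
  ps : List ℕ
  ws : List (ℕ × List ℕ × ℕ)

def okEnt (n : ℕ) (es : List (ℕ × ℕ)) (get : ℕ → Ent) (idx : ℕ) (e : Ent) : Bool :=
  extOK es e.s e.ps ||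
    match e.s with
    | a :: b :: rest =>
      allM 8 (diffPos n a b) (e.ws.map Prod.fst) &&
        e.ws.all (fun w => (w.1 &&& (a ^^^ b) == w.1) &&
          (extOK es ((a ^^^ w.1) :: (b ^^^ w.1) :: rest) w.2.1 ||
            (decide (w.2.2 < idx) &&
              ((a ^^^ w.1) :: (b ^^^ w.1) :: rest).isPerm (get w.2.2).s)))
    | _ => false

def tblOK (n : ℕ) (es : List (ℕ × ℕ)) (get : ℕ → Ent) (N : ℕ) : Bool :=
  (List.range N).all fun i => okEnt n es get i (get i)

theorem win_ext {n : ℕ} {es : List (ℕ × ℕ)} (hg : goodEdges n es = true) {s ps : List ℕ}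
    (h : extOK es s ps = true) : Win n es s :=
  fun _ _ H v _ hv hadj hm hs => ext_sound H n v hv es hg hadj s ps _ hm hs h

theorem tbl_sound {n : ℕ} {es : List (ℕ × ℕ)} (hg : goodEdges n es = true) {get : ℕ → Ent}
    {N : ℕ} (h : tblOK n es get N = true) : ∀ i < N, Win n es (get i).s := by
  intro i
  induction i using Nat.strong_induction_on with
  | _ i ih =>
    intro hi
    have hok : okEnt n es get i (get i) = true := by
      rw [tblOK, List.all_eq_true] at h
      exact h i (List.mem_range.2 hi)
    rw [okEnt, Bool.or_eq_true] at hok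
    rcases hok with hok | hok
    · exact win_ext hg hok
    · rcases hs : (get i).s with _ | ⟨a, _ | ⟨b, rest⟩⟩
      · rw [hs] at hok; simp at hok
      · rw [hs] at hok; simp at hok
      · rw [hs] at hok
        simp only [Bool.and_eq_true, List.all_eq_true, Bool.or_eq_true, beq_iff_eq,
          decide_eq_true_eq] at hok
        obtain ⟨h1, h2⟩ := hok
        refine win_move 8 _ h1 ?_
        intro W hW
        rw [List.mem_map] at hW
        obtain ⟨w, hw, rfl⟩ := hW
        obtain ⟨h3, h4⟩ := h2 w hw
        refine ⟨h3, ?_⟩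
        rcases h4 with h4 | ⟨h4, h5⟩
        · exact win_ext hg h4
        · exact (ih _ h4 (by omega)).perm (List.isPerm_iff.1 h5)

/-! ### Covering -/

/-- Is `x i ≠ x a` known? -/
def isNE (ne : List (ℕ × ℕ)) (i a : ℕ) : Bool :=
  ne.any fun p => (p.1 == i && p.2 == a) || (p.1 == a && p.2 == i)

/-- Put the name `i` in one of the classes. -/
def extCl (ne : List (ℕ × ℕ)) (i : ℕ) : List (List ℕ) → List (List (List ℕ))
  | [] => []
  | c :: cl => (if c.any (fun a => isNE ne i a) then [] else [(i :: c) :: cl]) ++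
      (extCl ne i cl).map (fun t => c :: t)

def optsCl (ne : List (ℕ × ℕ)) (i : ℕ) (cl : List (List ℕ)) : List (List (List ℕ)) :=
  ([i] :: cl) :: extCl ne i cl

def factMask (F : List ℕ) (sp : ℕ) (c : List ℕ) : ℕ :=
  c.foldr (fun i a => F.getD i 0 ||| a) (if c.any (fun i => decide (i < sp)) then 0 else 1)

def maskOf (n : ℕ) (F : List ℕ) (sp : ℕ) (c : List ℕ) : ℕ := (2 ^ n - 1) ^^^ factMask F sp c

/-- A configuration: number of vertices, edges, number of special names, facts (name, vertex),
pairs of names of different colours. -/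
structure Cfg where
  n : ℕ
  es : List (ℕ × ℕ)
  sp : ℕ
  F : List ℕ
  ne : List (ℕ × ℕ)

def cov (g : Cfg) (get : ℕ → Ent) (N : ℕ) : ℕ → List (List (List ℕ)) → List ℕ → Bool
  | _, [], _ => true
  | 0, _ :: _, _ => false
  | _, _ :: _, [] => false
  | f + 1, cl :: L, t :: ts =>
    if t < 16 then cov g get N f (optsCl g.ne t cl ++ L) ts
    else (decide (t - 16 < N) && (cl.map (maskOf g.n g.F g.sp)).isPerm (get (t - 16)).s) &&
      cov g get N f L ts

/-- The classes `cl` describe correctly the coincidences of the colours `x i`. -/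
structure Sat {C : Type*} (x : ℕ → C) (sp : ℕ) (cl : List (List ℕ)) : Prop where
  eq : ∀ c ∈ cl, ∀ a ∈ c, ∀ b ∈ c, x a = x b
  ne : cl.Pairwise fun c c' => ∀ a ∈ c, ∀ b ∈ c', x a ≠ x b
  nonempty : ∀ c ∈ cl, c ≠ []
  special : ∀ s < sp, ∃ c ∈ cl, s ∈ c

/-- `cl'` is obtained by putting `i` in the class of its colour. -/
theorem ext_sat {C : Type*} (x : ℕ → C) (ne : List (ℕ × ℕ)) (hne : ∀ p ∈ ne, x p.1 ≠ x p.2)
    (i : ℕ) : ∀ (cl : List (List ℕ)), (∀ c ∈ cl, ∀ a ∈ c, ∀ b ∈ c, x a = x b) →
    (cl.Pairwise fun c c' => ∀ a ∈ c, ∀ b ∈ c', x a ≠ x b) → (∀ c ∈ cl, c ≠ []) →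
    (∃ c ∈ cl, ∃ a ∈ c, x a = x i) →
    ∃ cl' ∈ extCl ne i cl, (∀ c ∈ cl', ∀ a ∈ c, ∀ b ∈ c, x a = x b) ∧
      (cl'.Pairwise fun c c' => ∀ a ∈ c, ∀ b ∈ c', x a ≠ x b) ∧ (∀ c ∈ cl', c ≠ []) ∧
      (∀ c ∈ cl, ∀ s ∈ c, ∃ c' ∈ cl', s ∈ c') ∧
      (∀ c' ∈ cl', ∀ s ∈ c', s = i ∨ ∃ c ∈ cl, s ∈ c) := by
  intro cl
  induction cl with
  | nil => intro _ _ _ h; simp at h
  | cons c cl ih =>
    intro heq hpw hnon hex
    rw [List.pairwise_cons] at hpw
    by_cases hc : ∃ a ∈ c, x a = x i
    · obtain ⟨a, ha, hai⟩ := hc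
      have hall : ∀ b ∈ c, x b = x i := fun b hb =>
        (heq c (by simp) b hb a ha).trans hai
      have hno : ¬ (c.any (fun a => isNE ne i a) = true) := by
        rw [List.any_eq_true]
        rintro ⟨b, hb, hb'⟩
        rw [isNE, List.any_eq_true] at hb'
        obtain ⟨p, hp, hp'⟩ := hb'
        simp only [Bool.or_eq_true, Bool.and_eq_true, beq_iff_eq] at hp'
        rcases hp' with ⟨h1, h2⟩ | ⟨h1, h2⟩
        · apply hne p hp
          rw [h1, h2, hall b hb]
        · apply hne p hp
          rw [h1, h2, hall b hb]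
      refine ⟨(i :: c) :: cl, ?_, ?_, ?_, ?_, ?_, ?_⟩
      · rw [extCl, if_neg hno]; simp
      · intro c' hc'
        rw [List.mem_cons] at hc'
        rcases hc' with rfl | hc'
        · intro b hb b' hb'
          rw [List.mem_cons] at hb hb'
          have e1 : x b = x i := by
            rcases hb with rfl | hb
            · rfl
            · exact hall b hb
          have e2 : x b' = x i := by
            rcases hb' with rfl | hb'
            · rfl
            · exact hall b' hb'
          rw [e1, e2]
        · exact heq c' (by simp [hc'])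
      · rw [List.pairwise_cons]
        refine ⟨?_, hpw.2⟩
        intro c' hc' b hb b' hb'
        rw [List.mem_cons] at hb
        rcases hb with rfl | hb
        · rw [← hai]; exact hpw.1 c' hc' a ha b' hb'
        · exact hpw.1 c' hc' b hb b' hb'
      · intro c' hc'
        rw [List.mem_cons] at hc'
        rcases hc' with rfl | hc'
        · simp
        · exact hnon c' (by simp [hc'])
      · intro c' hc' s hs
        rw [List.mem_cons] at hc'
        rcases hc' with rfl | hc'
        · exact ⟨i :: c', by simp, by simp [hs]⟩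
        · exact ⟨c', by simp [hc'], hs⟩
      · intro c' hc' s hs
        rw [List.mem_cons] at hc'
        rcases hc' with rfl | hc'
        · rw [List.mem_cons] at hs
          rcases hs with rfl | hs
          · exact Or.inl rfl
          · exact Or.inr ⟨c, by simp, hs⟩
        · exact Or.inr ⟨c', by simp [hc'], hs⟩
    · have hex' : ∃ c ∈ cl, ∃ a ∈ c, x a = x i := by
        obtain ⟨c', hc', h⟩ := hex
        rw [List.mem_cons] at hc'
        rcases hc' with rfl | hc'
        · exact absurd h hc
        · exact ⟨c', hc', h⟩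
      obtain ⟨cl', hcl', h1, h2, h3, h4, h5⟩ := ih (fun c' hc' => heq c' (by simp [hc'])) hpw.2
        (fun c' hc' => hnon c' (by simp [hc'])) hex'
      refine ⟨c :: cl', ?_, ?_, ?_, ?_, ?_, ?_⟩
      · rw [extCl, List.mem_append]
        right
        exact List.mem_map_of_mem hcl'
      · intro c' hc'
        rw [List.mem_cons] at hc'
        rcases hc' with rfl | hc'
        · exact heq c' (by simp)
        · exact h1 c' hc'
      · rw [List.pairwise_cons]
        refine ⟨?_, h2⟩
        intro c' hc' a ha b hb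
        rcases h5 c' hc' b hb with rfl | ⟨d, hd, hb'⟩
        · intro h; exact hc ⟨a, ha, h⟩
        · exact hpw.1 d hd a ha b hb'
      · intro c' hc'
        rw [List.mem_cons] at hc'
        rcases hc' with rfl | hc'
        · exact hnon c' (by simp)
        · exact h3 c' hc'
      · intro c' hc' s hs
        rw [List.mem_cons] at hc'
        rcases hc' with rfl | hc'
        · exact ⟨c', by simp, hs⟩
        · obtain ⟨d, hd, hs'⟩ := h4 c' hc' s hs
          exact ⟨d, by simp [hd], hs'⟩
      · intro c' hc' s hs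
        rw [List.mem_cons] at hc'
        rcases hc' with rfl | hc'
        · exact Or.inr ⟨c', by simp, hs⟩
        · rcases h5 c' hc' s hs with h | ⟨d, hd, hs'⟩
          · exact Or.inl h
          · exact Or.inr ⟨d, by simp [hd], hs'⟩

theorem opts_sat {C : Type*} (x : ℕ → C) (sp : ℕ) (ne : List (ℕ × ℕ))
    (hne : ∀ p ∈ ne, x p.1 ≠ x p.2) (i : ℕ) (cl : List (List ℕ)) (h : Sat x sp cl) :
    ∃ cl' ∈ optsCl ne i cl, Sat x sp cl' := by
  by_cases hex : ∃ c ∈ cl, ∃ a ∈ c, x a = x i
  · obtain ⟨cl', h0, h1, h2, h3, h4, _⟩ := ext_sat x ne hne i cl h.eq h.ne h.nonempty hex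
    refine ⟨cl', by simp [optsCl, h0], h1, h2, h3, ?_⟩
    intro s hs
    obtain ⟨c, hc, hsc⟩ := h.special s hs
    exact h4 c hc s hsc
  · push Not at hex
    refine ⟨[i] :: cl, by simp [optsCl], ?_, ?_, ?_, ?_⟩
    · intro c hc a ha b hb
      rw [List.mem_cons] at hc
      rcases hc with rfl | hc
      · simp only [List.mem_singleton] at ha hb
        rw [ha, hb]
      · exact h.eq c hc a ha b hb
    · rw [List.pairwise_cons]
      refine ⟨?_, h.ne⟩
      intro c hc a ha b hb
      simp only [List.mem_singleton] at ha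
      subst ha
      exact (hex c hc b hb).symm
    · intro c hc
      rw [List.mem_cons] at hc
      rcases hc with rfl | hc
      · simp
      · exact h.nonempty c hc
    · intro s hs
      obtain ⟨c, hc, hsc⟩ := h.special s hs
      exact ⟨c, by simp [hc], hsc⟩

/-- The hypotheses on the named colours `x i`. -/
structure Named {V C : Type*} (g : Cfg) (v : ℕ → V) (m : C → V → V) (x : ℕ → C) : Prop where
  facts : ∀ i, ∀ q < g.n, (g.F.getD i 0).testBit q = true → m (x i) (v q) = v q
  dflt : ∀ i, (∀ s < g.sp, x i ≠ x s) → m (x i) (v 0) = v 0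
  ne : ∀ p ∈ g.ne, x p.1 ≠ x p.2

theorem st_of_sat {V C : Type*} (g : Cfg) (v : ℕ → V) (m : C → V → V)
    (x : ℕ → C) (hx : Named g v m x) (cl : List (List ℕ)) (hcl : Sat x g.sp cl) :
    St g.n v m (cl.map (maskOf g.n g.F g.sp)) := by
  refine ⟨cl.map (fun c => (x (c.headD 0), maskOf g.n g.F g.sp c)), ⟨?_, ?_⟩, ?_⟩
  · rw [List.map_map, List.Nodup, List.pairwise_map]
    refine List.Pairwise.imp_of_mem ?_ hcl.ne
    intro c c' hc hc' h
    rcases c with _ | ⟨a, c⟩
    · exact absurd rfl (hcl.nonempty _ hc)
    · rcases c' with _ | ⟨a', c'⟩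
      · exact absurd rfl (hcl.nonempty _ hc')
      · exact h a (by simp) a' (by simp)
  · intro p hp i hi hbit
    rw [List.mem_map] at hp
    obtain ⟨c, hc, rfl⟩ := hp
    simp only at hbit ⊢
    rcases hc0 : c with _ | ⟨a0, c0⟩
    · exact absurd hc0 (hcl.nonempty _ hc)
    have hhead : c.headD 0 = a0 := by rw [hc0]; rfl
    rw [← hc0, hhead]
    have ha0 : a0 ∈ c := by rw [hc0]; simp
    rw [maskOf, Nat.testBit_xor, Nat.testBit_two_pow_sub_one] at hbit
    simp only [hi, decide_true, Bool.true_xor, Bool.not_eq_false'] at hbit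
    -- the facts mask has bit `i`
    have key : ∀ (d : List ℕ) (z : ℕ), (∀ b ∈ d, x b = x a0) →
        (d.foldr (fun i a => g.F.getD i 0 ||| a) z).testBit i = true →
        z.testBit i = true ∨ m (x a0) (v i) = v i := by
      intro d z
      induction d with
      | nil => intro _ h; exact Or.inl h
      | cons b d ih =>
        intro hd h
        rw [List.foldr_cons, Nat.testBit_or, Bool.or_eq_true] at h
        rcases h with h | h
        · right
          rw [← hd b (by simp)]
          exact hx.facts b i hi h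
        · exact ih (fun b' hb' => hd b' (by simp [hb'])) h
    rw [factMask] at hbit
    rcases key c _ (fun b hb => hcl.eq c hc b hb a0 ha0) hbit with h | h
    · by_cases hsp : c.any (fun i => decide (i < g.sp)) = true
      · rw [if_pos hsp] at h; simp at h
      · rw [if_neg hsp] at h
        have hi0 : i = 0 := by
          by_contra hne
          rw [Nat.testBit_one_eq_true_iff_self_eq_zero] at h
          exact hne h
        subst hi0
        apply hx.dflt
        intro s hs heq
        obtain ⟨c', hc', hsc'⟩ := hcl.special s hs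
        have hne : c ≠ c' := by
          rintro rfl
          apply hsp
          rw [List.any_eq_true]
          exact ⟨s, hsc', by simpa using hs⟩
        have hsym : Std.Symm (fun c c' : List ℕ => ∀ a ∈ c, ∀ b ∈ c', x a ≠ x b) :=
          ⟨fun c c' h a ha b hb => (h b hb a ha).symm⟩
        have := hcl.ne.forall hc hc' hne
        exact this a0 ha0 s hsc' heq
    · exact h
  · rw [List.map_map]; rfl

theorem cov_sound (g : Cfg) (hg : goodEdges g.n g.es = true) (get : ℕ → Ent) (N : ℕ)
    (ht : tblOK g.n g.es get N = true) {V C : Type} (H : SimpleGraph V) (v : ℕ → V)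
    (m : C → V → V) (hv : Set.InjOn v {i | i < g.n}) (hadj : ∀ e ∈ g.es, H.Adj (v e.1) (v e.2))
    (hm : Col H (edgeList v g.es) m) (x : ℕ → C) (hx : Named g v m x) :
    ∀ (f : ℕ) (L : List (List (List ℕ))) (ts : List ℕ), cov g get N f L ts = true →
    ∀ cl ∈ L, Sat x g.sp cl → ∃ m' : C → V → V, Col H [] m' := by
  intro f
  induction f with
  | zero =>
    intro L ts h
    rcases L with _ | ⟨cl, L⟩
    · simp
    · simp [cov] at h
  | succ f ih =>
    intro L ts h
    rcases L with _ | ⟨cl, L⟩
    · simp
    · rcases ts with _ | ⟨t, ts⟩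
      · simp [cov] at h
      · rw [cov] at h
        intro cl' hcl' hsat
        by_cases ht' : t < 16
        · rw [if_pos ht'] at h
          rw [List.mem_cons] at hcl'
          rcases hcl' with rfl | hcl'
          · obtain ⟨cl'', h1, h2⟩ := opts_sat x g.sp g.ne hx.ne t cl' hsat
            exact ih _ _ h cl'' (by simp [h1]) h2
          · exact ih _ _ h cl' (by simp [hcl']) hsat
        · rw [if_neg ht'] at h
          simp only [Bool.and_eq_true, decide_eq_true_eq] at h
          obtain ⟨⟨h1, h2⟩, h3⟩ := h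
          rw [List.mem_cons] at hcl'
          rcases hcl' with rfl | hcl'
          · exact tbl_sound hg ht _ h1 V C H v m hv hadj hm
              ((st_of_sat g v m x hx cl' hsat).perm (List.isPerm_iff.1 h2))
          · exact ih _ _ h3 cl' hcl' hsat

/-- The complete check of a configuration. -/
def cfgOK (g : Cfg) (get : ℕ → Ent) (N : ℕ) (f : ℕ) (ts : List ℕ) : Bool :=
  goodEdges g.n g.es && (tblOK g.n g.es get N &&
    cov g get N f [(List.range g.sp).map fun i => [i]] ts)

theorem cfg_sound (g : Cfg) (get : ℕ → Ent) (N f : ℕ) (ts : List ℕ)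
    (h : cfgOK g get N f ts = true) {V C : Type} (H : SimpleGraph V) (v : ℕ → V)
    (m : C → V → V) (hv : Set.InjOn v {i | i < g.n}) (hadj : ∀ e ∈ g.es, H.Adj (v e.1) (v e.2))
    (hm : Col H (edgeList v g.es) m) (x : ℕ → C) (hx : Named g v m x)
    (hsp : ∀ i < g.sp, ∀ j < g.sp, i ≠ j → x i ≠ x j) : ∃ m' : C → V → V, Col H [] m' := by
  rw [cfgOK, Bool.and_eq_true, Bool.and_eq_true] at h
  refine cov_sound g h.1 get N h.2.1 H v m hv hadj hm x hx f _ ts h.2.2
    ((List.range g.sp).map fun i => [i]) (List.mem_singleton.2 rfl) ?_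
  constructor
  · intro c hc a ha b hb
    rw [List.mem_map] at hc
    obtain ⟨i, _, rfl⟩ := hc
    simp only [List.mem_singleton] at ha hb
    rw [ha, hb]
  · rw [List.pairwise_map]
    refine List.Pairwise.imp_of_mem ?_ (List.nodup_range)
    intro i j hi hj hij a ha b hb
    simp only [List.mem_singleton] at ha hb
    subst ha hb
    exact hsp _ (List.mem_range.1 hi) _ (List.mem_range.1 hj) hij
  · intro c hc
    rw [List.mem_map] at hc
    obtain ⟨i, _, rfl⟩ := hc
    simp
  · intro s hs
    exact ⟨[s], by simp [hs], by simp⟩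

/-! ### Coded tables -/

def dig : ℕ → ℕ → List ℕ
  | 0, _ => []
  | f + 1, n => if n = 0 then [] else (n % 128) :: dig f (n / 128)

def parseWs (E : ℕ) : ℕ → List ℕ → List (ℕ × List ℕ × ℕ)
  | 0, _ => []
  | f + 1, W :: x :: d =>
    if x = 127 then (W, d.take E, 0) :: parseWs E f (d.drop E)
    else match d with
      | y :: d => (W, [], x * 128 + y) :: parseWs E f d
      | [] => []
  | _ + 1, _ => []

def decEnt (E : ℕ) (n : ℕ) : Ent :=
  match dig 300 n with
  | r :: k :: d => ⟨d.take r, if k = 1 then (d.drop r).take E else [],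
      if k = 1 then [] else parseWs E 64 (d.drop r)⟩
  | _ => ⟨[], [], []⟩

def getT (E : ℕ) (tbl : List (List ℕ)) (i : ℕ) : Ent :=
  decEnt E ((tbl.getD (i / 32) []).getD (i % 32) 0)

end Pool.Agent.Vizing
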